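import Mathlib

/-!
Complete graphs with product weights: abstract part (definitions and task statements).
-/

set_option linter.unusedSectionVars false
set_option linter.unusedSimpArgs false

namespace H990SF

open Finset

/-- The weight vector in which `d` is merged into `c`. -/
def mrg {V : Type*} [DecidableEq V] (x : V → ℝ) (c d : V) : V → ℝ :=
  Function.update (Function.update x c (x c + x d)) d 0

/-- The path with constant total weight `g` of `c` and `d`. -/
def pth {V : Type*} [DecidableEq V] (x : V → ℝ) (c d : V) (g t : ℝ) : V → ℝ :=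
  Function.update (Function.update x c t) d (g - t)

/-- A function of weight vectors with the properties of the forest sum of the complete graph with
product weights. -/
structure PWGood {V : Type*} [Fintype V] [DecidableEq V] (M : (V → ℝ) → ℝ) : Prop where
  symm : ∀ (σ : V ≃ V) (x : V → ℝ), M (x ∘ σ) = M x
  deriv : ∀ (x : V → ℝ) (c d : V), c ≠ d → ∀ g t : ℝ,
    HasDerivAt (fun s => M (pth x c d g s))
      ((∑ v ∈ univ \ {c, d}, x v *
          (M (mrg (pth x c d g t) c v) - M (mrg (pth x c d g t) d v)))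
        + (g - 2 * t) * M (mrg (pth x c d g t) c d)) t
  adj : ∀ x : V → ℝ, (∀ v, 0 ≤ x v) → ∀ a b c : V, a ≠ b → a ≠ c → b ≠ c →
    M x * M (mrg (mrg x a b) a c) ≤ M (mrg x a b) * M (mrg x a c)

/-- Task A1 (structure). -/
def PW_A1 (V : Type*) [Fintype V] [DecidableEq V] : Prop :=
  ∀ M : (V → ℝ) → ℝ, PWGood M → ∀ x : V → ℝ, (∀ v, 0 ≤ x v) → ∀ c d : V, c ≠ d →
    (x c + x d) * (M x - M (mrg x c d)) =
      x c * x d * ((x c + x d) * M (mrg x c d) +
        ∑ v ∈ univ \ {c, d}, x v * (M (mrg x c d) - M (mrg (mrg x c d) c v)))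

/-- Task A2 (negative correlation from the structure). -/
def PW_A2 (V : Type*) [Fintype V] [DecidableEq V] : Prop :=
  PW_A1 V → ∀ M : (V → ℝ) → ℝ, PWGood M → ∀ x : V → ℝ, (∀ v, 0 ≤ x v) → ∀ a b c d : V,
    a ≠ b → a ≠ c → a ≠ d → b ≠ c → b ≠ d → c ≠ d →
    M x * M (mrg (mrg x a b) c d) ≤ M (mrg x a b) * M (mrg x c d)

/-- Task B1. -/
def PW_B1 : Prop :=
  ∀ (ι : Type) [DecidableEq ι] (E : Finset ι) (Q : Finset ι → Prop) [DecidablePred Q]
    (w : ℝ → ι → ℝ) (w' : ι → ℝ) (t : ℝ), (∀ i ∈ E, HasDerivAt (fun s => w s i) (w' i) t) →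
    HasDerivAt (fun s => ∑ F ∈ E.powerset, if Q F then ∏ j ∈ F, w s j else 0)
      (∑ i ∈ E, w' i * ∑ F ∈ E.powerset, if i ∉ F ∧ Q (insert i F) then ∏ j ∈ F, w t j else 0) t

/-- Task B2. -/
def PW_B2 (V : Type*) [Fintype V] [DecidableEq V] : Prop :=
  ∀ (c d : V) (f : Sym2 V → ℝ), c ≠ d → (∀ e : Sym2 V, c ∉ e → d ∉ e → f e = 0) →
    f s(c, c) = 0 → f s(d, d) = 0 →
    ∑ e : Sym2 V, f e = (∑ v ∈ univ \ {c, d}, (f s(c, v) + f s(d, v))) + f s(c, d)

end H990SF
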