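import Mathlib

/-!
Multi-affine stable functions of finitely many complex variables:
the operator `1 - w ∂_x ∂_y` (`w ≥ 0`) preserves stability, and a real stable multi-affine
function satisfies the Rayleigh inequality at every real point.
-/

namespace H990SF

open Finset Complex

variable {U : Type*} [DecidableEq U]

/-- `f` is affine in each variable. -/
def MA (f : (U → ℂ) → ℂ) : Prop :=
  ∀ (z : U → ℂ) (i : U) (t : ℂ),
    f (Function.update z i t) =
      f (Function.update z i 0) + t * (f (Function.update z i 1) - f (Function.update z i 0))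

/-- The partial derivative of a multi-affine function, as a difference. -/
def pd (i : U) (f : (U → ℂ) → ℂ) : (U → ℂ) → ℂ :=
  fun z => f (Function.update z i 1) - f (Function.update z i 0)

/-- No zero when all the variables lie in the open upper half plane. -/
def Stab (f : (U → ℂ) → ℂ) : Prop := ∀ z : U → ℂ, (∀ i, 0 < (z i).im) → f z ≠ 0

/-- Real at real points. -/
def RealOn (f : (U → ℂ) → ℂ) : Prop := ∀ x : U → ℝ, (f (fun i => (x i : ℂ))).im = 0

lemma pd_comm (i j : U) (f : (U → ℂ) → ℂ) : pd i (pd j f) = pd j (pd i f) := by
  funext z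
  by_cases h : i = j
  · subst h; rfl
  · simp only [pd]
    rw [Function.update_comm h, Function.update_comm h, Function.update_comm h,
      Function.update_comm h]
    ring

lemma pd_self (i : U) (f : (U → ℂ) → ℂ) : pd i (pd i f) = 0 := by
  funext z
  simp [pd]

lemma MA.line {f : (U → ℂ) → ℂ} (hf : MA f) (z : U → ℂ) (i : U) (t : ℂ) :
    f (Function.update z i t) = f z + (t - z i) * pd i f z := by
  have h1 := hf z i t
  have h2 := hf z i (z i)
  rw [Function.update_eq_self] at h2
  rw [h1, h2, pd]; ring

lemma MA.pd {f : (U → ℂ) → ℂ} (hf : MA f) (i : U) : MA (pd i f) := by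
  intro z j t
  by_cases h : j = i
  · subst h; simp [H990SF.pd]
  · simp only [H990SF.pd]
    rw [Function.update_comm h, Function.update_comm h, Function.update_comm h,
      Function.update_comm h, Function.update_comm h, Function.update_comm h,
      hf (Function.update z i 1) j t, hf (Function.update z i 0) j t]
    ring

lemma MA.sub_smul {f g : (U → ℂ) → ℂ} (hf : MA f) (hg : MA g) (w : ℂ) :
    MA (fun z => f z - w * g z) := by
  intro z j t
  simp only
  rw [hf z j t, hg z j t]; ring

lemma MA.add_smul {f g : (U → ℂ) → ℂ} (hf : MA f) (hg : MA g) (w : ℂ) :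
    MA (fun z => f z + w * g z) := by
  intro z j t
  simp only
  rw [hf z j t, hg z j t]; ring

/-- The two-variable expansion. -/
lemma MA.two {f : (U → ℂ) → ℂ} (hf : MA f) (z : U → ℂ) {x y : U} (hxy : x ≠ y) (u v : ℂ) :
    f (Function.update (Function.update z x u) y v) =
      f (Function.update (Function.update z x 0) y 0)
      + (H990SF.pd x f (Function.update z y 0)) * u
      + (H990SF.pd y f (Function.update z x 0)) * v
      + (H990SF.pd x (H990SF.pd y f) z) * u * v := by
  have h1 := hf (Function.update z x u) y v
  have h2 : ∀ s : ℂ, f (Function.update (Function.update z x u) y s) =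
      f (Function.update (Function.update z x 0) y s) + u *
      (f (Function.update (Function.update z x 1) y s) -
        f (Function.update (Function.update z x 0) y s)) := by
    intro s
    rw [Function.update_comm hxy, Function.update_comm hxy, Function.update_comm hxy]
    exact hf (Function.update z y s) x u
  rw [h1, h2 0, h2 1]
  simp only [H990SF.pd]
  rw [Function.update_comm hxy.symm, Function.update_comm hxy.symm]
  ring

/-- Key two-variable lemma. -/
lemma two_var (A B C D : ℂ)
    (h : ∀ u v : ℂ, 0 < u.im → 0 < v.im → A + B * u + C * v + D * u * v ≠ 0)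
    (w : ℝ) (hw : 0 ≤ w) (u v : ℂ) (hu : 0 < u.im) (hv : 0 < v.im) :
    A + B * u + C * v + D * u * v - w * D ≠ 0 := by
  by_cases hD : D = 0
  · subst hD; simpa using h u v hu hv
  -- the imaginary part of `C / D` is nonnegative
  have hCD : 0 ≤ (C / D).im := by
    by_contra hneg
    push Not at hneg
    set u0 : ℂ := -(C / D) with hu0
    have hu0im : 0 < u0.im := by simp [hu0]; linarith
    set K : ℂ := A + B * u0 with hK
    have hCu : C + D * u0 = 0 := by rw [hu0]; field_simp; ring
    have hKne : K ≠ 0 := by
      have := h u0 Complex.I hu0im (by simp)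
      have h2 : A + B * u0 + C * Complex.I + D * u0 * Complex.I = K := by
        rw [hK]; linear_combination Complex.I * hCu
      rwa [h2] at this
    -- choose a large N
    set q : ℂ := Complex.I * K / D with hq
    set r : ℂ := B / D with hr
    obtain ⟨N, hN⟩ := exists_nat_gt (max (|q.im| / u0.im) (|r.im|))
    have hN1 : |q.im| / u0.im < N := lt_of_le_of_lt (le_max_left _ _) hN
    have hN2 : |r.im| < N := lt_of_le_of_lt (le_max_right _ _) hN
    have hNpos : (0 : ℝ) < N := lt_of_le_of_lt (abs_nonneg _) hN2
    have hNne : (N : ℂ) ≠ 0 := by exact_mod_cast hNpos.ne'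
    set ε : ℂ := q / N with hε
    have hεim : 0 < (u0 + ε).im := by
      have : ε.im = q.im / N := by
        rw [hε]
        have : (q / (N : ℂ)) = q / ((N : ℝ) : ℂ) := by simp
        rw [this, Complex.div_ofReal_im]
      rw [Complex.add_im, this]
      have h3 : |q.im| / N < u0.im := by
        rw [div_lt_iff₀ hNpos]
        rw [div_lt_iff₀ hu0im] at hN1
        linarith
      have h4 : -(|q.im| / N) ≤ q.im / N := by
        rw [← neg_div]
        exact div_le_div_of_nonneg_right (neg_abs_le _) hNpos.le
      linarith
    have hvim : 0 < ((N : ℂ) * Complex.I - r).im := by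
      simp only [Complex.sub_im, Complex.mul_im, Complex.natCast_re, Complex.I_im, mul_one,
        Complex.natCast_im, Complex.I_re, mul_zero, add_zero]
      have := le_abs_self r.im
      linarith
    refine h (u0 + ε) ((N : ℂ) * Complex.I - r) hεim hvim ?_
    have e1 : A + B * (u0 + ε) + C * ((N : ℂ) * Complex.I - r)
        + D * (u0 + ε) * ((N : ℂ) * Complex.I - r) =
        K + B * ε + (C + D * u0) * ((N : ℂ) * Complex.I - r)
        + D * ε * ((N : ℂ) * Complex.I - r) := by rw [hK]; ring
    rw [e1, hCu, hε, hq, hr]
    field_simp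
    ring_nf
    simp [Complex.I_sq]
  intro h0
  set a : ℂ := u + C / D with ha
  have haim : 0 < a.im := by rw [ha, Complex.add_im]; linarith
  have hane : a ≠ 0 := by
    intro h; rw [h] at haim; simp at haim
  have hDa : D * a = D * u + C := by rw [ha]; field_simp
  set v' : ℂ := v - w / a with hv'
  have hv'im : 0 < v'.im := by
    have : ((w : ℂ) / a).im ≤ 0 := by
      rw [Complex.div_im]
      simp only [Complex.ofReal_im, Complex.ofReal_re, zero_mul, zero_div, zero_sub]
      have : 0 ≤ w * a.im / Complex.normSq a :=
        div_nonneg (mul_nonneg hw haim.le) (Complex.normSq_nonneg _)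
      linarith
    rw [hv', Complex.sub_im]; linarith
  refine h u v' hu hv'im ?_
  have e2 : A + B * u + C * v' + D * u * v' =
      (A + B * u + C * v + D * u * v - w * D) + w * D - (D * u + C) * (w / a) := by
    rw [hv']; ring
  rw [e2, h0, ← hDa]
  field_simp
  ring

theorem Stab.op {f : (U → ℂ) → ℂ} (hf : MA f) (hs : Stab f) {x y : U} (hxy : x ≠ y)
    {w : ℝ} (hw : 0 ≤ w) : Stab (fun z => f z - w * H990SF.pd x (H990SF.pd y f) z) := by
  intro z hz
  have hz' : Function.update (Function.update z x (z x)) y (z y) = z := by simp
  have h := two_var (f (Function.update (Function.update z x 0) y 0))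
    (H990SF.pd x f (Function.update z y 0)) (H990SF.pd y f (Function.update z x 0))
    (H990SF.pd x (H990SF.pd y f) z) (by
      intro u v hu hv
      rw [← hf.two z hxy u v]
      apply hs
      intro i
      by_cases h1 : i = y
      · subst h1; simpa using hv
      · by_cases h2 : i = x
        · subst h2; simpa [Function.update_of_ne h1] using hu
        · simpa [Function.update_of_ne h1, Function.update_of_ne h2] using hz i)
    w hw (z x) (z y) (hz x) (hz y)
  rw [← hf.two z hxy (z x) (z y), hz'] at h
  exact h

omit [DecidableEq U] in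
lemma RealOn.sub_smul {f g : (U → ℂ) → ℂ} (hf : RealOn f) (hg : RealOn g) (w : ℝ) :
    RealOn (fun z => f z - w * g z) := by
  intro x
  simp [hf x, hg x]

lemma ofReal_update (x : U → ℝ) (a : U) (t : ℝ) :
    Function.update (fun i => (x i : ℂ)) a (t : ℂ) =
      fun i => ((Function.update x a t i : ℝ) : ℂ) := by
  funext i
  by_cases h : i = a
  · subst h; simp
  · simp [Function.update_of_ne h]

lemma RealOn.pd {f : (U → ℂ) → ℂ} (hf : RealOn f) (a : U) : RealOn (H990SF.pd a f) := by
  intro x
  have h1 := hf (Function.update x a 1)
  have h0 := hf (Function.update x a 0)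
  rw [← ofReal_update] at h1 h0
  simp only [Complex.ofReal_one, Complex.ofReal_zero] at h1 h0
  simp [H990SF.pd, h1, h0]

lemma cont_pd {f : (U → ℂ) → ℂ} (hf : Continuous f) (a : U) : Continuous (H990SF.pd a f) := by
  unfold H990SF.pd
  exact (hf.comp (continuous_id.update a continuous_const)).sub
    (hf.comp (continuous_id.update a continuous_const))

/-- The Rayleigh inequality of a real stable multi-affine function at a real point. -/
theorem rayleigh_of_stab {f : (U → ℂ) → ℂ} (hf : MA f) (hs : Stab f) (hc : Continuous f)
    (hr : RealOn f) {a c : U} (hac : a ≠ c) (x : U → ℝ) :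
    0 ≤ (H990SF.pd a f (fun i => (x i : ℂ))).re * (H990SF.pd c f (fun i => (x i : ℂ))).re
      - (f (fun i => (x i : ℂ))).re * (H990SF.pd a (H990SF.pd c f) (fun i => (x i : ℂ))).re := by
  by_contra hneg
  push Not at hneg
  set X : U → ℂ := fun i => (x i : ℂ) with hX
  -- values at the real point
  have hA0 : (f (Function.update (Function.update X a 0) c 0)).im = 0 := by
    have := hr (Function.update (Function.update x a 0) c 0)
    rwa [← ofReal_update, ← ofReal_update, Complex.ofReal_zero] at this
  have hB0 : (H990SF.pd a f (Function.update X c 0)).im = 0 := by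
    have := hr.pd a (Function.update x c 0)
    rwa [← ofReal_update, Complex.ofReal_zero] at this
  have hC0 : (H990SF.pd c f (Function.update X a 0)).im = 0 := by
    have := hr.pd c (Function.update x a 0)
    rwa [← ofReal_update, Complex.ofReal_zero] at this
  have hD0 : (H990SF.pd a (H990SF.pd c f) X).im = 0 := (hr.pd c).pd a x
  have hXX : Function.update (Function.update X a (X a)) c (X c) = X := by simp
  have hfX := hf.two X hac (X a) (X c)
  rw [hXX] at hfX
  have haX : H990SF.pd a f X = H990SF.pd a f (Function.update X c 0) +
      H990SF.pd a (H990SF.pd c f) X * X c := by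
    have h1 := (hf.pd a).line X c 0
    rw [pd_comm a c, h1]; ring
  have hcX : H990SF.pd c f X = H990SF.pd c f (Function.update X a 0) +
      H990SF.pd a (H990SF.pd c f) X * X a := by
    have h1 := (hf.pd c).line X a 0
    rw [h1]; ring
  set A := f (Function.update (Function.update X a 0) c 0) with hA
  set B := H990SF.pd a f (Function.update X c 0) with hB
  set C := H990SF.pd c f (Function.update X a 0) with hC
  set D := H990SF.pd a (H990SF.pd c f) X with hD
  rw [hfX, haX, hcX] at hneg
  have hXa : (X a).im = 0 ∧ (X a).re = x a := by simp [hX]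
  have hXc : (X c).im = 0 ∧ (X c).re = x c := by simp [hX]
  simp only [Complex.add_re, Complex.mul_re, Complex.mul_im, hB0, hC0, hD0, hXa.1, hXa.2,
    hXc.1, hXc.2, mul_zero, zero_mul, sub_zero, add_zero] at hneg
  have hneg' : B.re * C.re - A.re * D.re < 0 := by nlinarith [hneg]
  -- perturbation
  let Y : ℝ → U → ℂ := fun ε i => (x i : ℂ) + ε * Complex.I
  have hY : Continuous Y := by
    apply continuous_pi
    intro i
    fun_prop
  have hY0 : Y 0 = X := by funext i; simp [Y, hX]
  let φ : ℝ → ℝ := fun ε =>
    (-(f (Function.update (Function.update (Y ε) a 0) c 0)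
      + H990SF.pd c f (Function.update (Y ε) a 0) * Complex.I) *
      (starRingEnd ℂ) (H990SF.pd a f (Function.update (Y ε) c 0)
        + H990SF.pd a (H990SF.pd c f) (Y ε) * Complex.I)).im
  have hφ : Continuous φ := by
    have c1 : Continuous fun ε => f (Function.update (Function.update (Y ε) a 0) c 0) :=
      hc.comp ((hY.update a continuous_const).update c continuous_const)
    have c2 : Continuous fun ε => H990SF.pd c f (Function.update (Y ε) a 0) :=
      (cont_pd hc c).comp (hY.update a continuous_const)
    have c3 : Continuous fun ε => H990SF.pd a f (Function.update (Y ε) c 0) :=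
      (cont_pd hc a).comp (hY.update c continuous_const)
    have c4 : Continuous fun ε => H990SF.pd a (H990SF.pd c f) (Y ε) :=
      (cont_pd (cont_pd hc c) a).comp hY
    exact Complex.continuous_im.comp ((((c1.add (c2.mul continuous_const))).neg).mul
      (Complex.continuous_conj.comp (c3.add (c4.mul continuous_const))))
  have hφ0 : 0 < φ 0 := by
    simp only [φ, hY0]
    rw [← hA, ← hB, ← hC, ← hD]
    simp only [map_add, map_mul, Complex.conj_I, Complex.mul_im, Complex.neg_re, Complex.neg_im,
      Complex.add_re, Complex.add_im, Complex.mul_re, Complex.I_re, Complex.I_im,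
      Complex.conj_re, Complex.conj_im, hA0, hB0, hC0, hD0]
    ring_nf
    nlinarith [hneg']
  have hev : ∀ᶠ ε in nhds (0:ℝ), 0 < φ ε := hφ.continuousAt.eventually (lt_mem_nhds hφ0)
  obtain ⟨δ, hδ, hball⟩ := Metric.eventually_nhds_iff.1 hev
  have hφδ : 0 < φ (δ / 2) := hball (by
    rw [Real.dist_eq, sub_zero, abs_of_pos (by linarith)]; linarith)
  set ε : ℝ := δ / 2 with hε
  have hεpos : 0 < ε := by rw [hε]; linarith
  set A' := f (Function.update (Function.update (Y ε) a 0) c 0) with hA'
  set B' := H990SF.pd a f (Function.update (Y ε) c 0) with hB'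
  set C' := H990SF.pd c f (Function.update (Y ε) a 0) with hC'
  set D' := H990SF.pd a (H990SF.pd c f) (Y ε) with hD'
  have hφε : φ ε = (-(A' + C' * Complex.I) * (starRingEnd ℂ) (B' + D' * Complex.I)).im := rfl
  have hne : B' + D' * Complex.I ≠ 0 := by
    intro h
    rw [hφε, h] at hφδ
    simp at hφδ
  set u : ℂ := -(A' + C' * Complex.I) / (B' + D' * Complex.I) with hu
  have huim : 0 < u.im := by
    have h1 : u = (-(A' + C' * Complex.I) * (starRingEnd ℂ) (B' + D' * Complex.I)) *
        (((Complex.normSq (B' + D' * Complex.I))⁻¹ : ℝ) : ℂ) := by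
      rw [hu, div_eq_mul_inv, Complex.inv_def]; ring
    rw [h1, Complex.im_mul_ofReal, ← hφε]
    exact mul_pos hφδ (inv_pos.2 (Complex.normSq_pos.2 hne))
  refine hs (Function.update (Function.update (Y ε) a u) c Complex.I) ?_ ?_
  · intro i
    by_cases h1 : i = c
    · subst h1; simp
    · by_cases h2 : i = a
      · subst h2; simpa [Function.update_of_ne h1] using huim
      · rw [Function.update_of_ne h1, Function.update_of_ne h2]
        simpa [Y] using hεpos
  · rw [hf.two (Y ε) hac u Complex.I]
    have : A' + B' * u + C' * Complex.I + D' * u * Complex.I = 0 := by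
      have h3 : A' + B' * u + C' * Complex.I + D' * u * Complex.I =
        (A' + C' * Complex.I) + (B' + D' * Complex.I) * u := by ring
      rw [h3, hu, mul_div_cancel₀ _ hne]; ring
    exact this

end H990SF
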