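import Mathlib
import Pool.Agent.H990R2.SF.Stab

/-!
The polynomial `Phi r E = ∏_{(x,y,w) ∈ E} (1 - w ∂_x ∂_y) det (Lap r E + diag z)`:
stability and the deletion-contraction recursion at the all-ones vector.
-/

set_option linter.unusedSectionVars false
set_option linter.unusedSimpArgs false

namespace H990SF

open Finset Complex Matrix

variable {U : Type*} [Fintype U] [DecidableEq U]

/-- The unit vector of `x`, or `0` if `x` is the root. -/
def dl (r x : U) : U → ℂ := if x = r then 0 else Pi.single x 1

def nu (r x y : U) : U → ℂ := dl r x - dl r y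

/-- The Laplacian with the root row and column deleted (replaced by zero). -/
def Lap (r : U) : List (U × U × ℂ) → Matrix U U ℂ
  | [] => 0
  | e :: E => e.2.2 • vecMulVec (nu r e.1 e.2.1) (nu r e.1 e.2.1) + Lap r E

def D (r : U) (E : List (U × U × ℂ)) (z : U → ℂ) : ℂ := (Lap r E + diagonal z).det

def op (r : U) (e : U × U × ℂ) (f : (U → ℂ) → ℂ) : (U → ℂ) → ℂ :=
  if e.1 = r ∨ e.2.1 = r then f else fun z => f z - e.2.2 * pd e.1 (pd e.2.1 f) z

def ops (r : U) (E : List (U × U × ℂ)) (f : (U → ℂ) → ℂ) : (U → ℂ) → ℂ :=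
  E.foldr (op r) f

def Phi (r : U) (E : List (U × U × ℂ)) : (U → ℂ) → ℂ := ops r E (D r E)

/-- Relabelling of the endpoints. -/
def rel (m : U → U) (E : List (U × U × ℂ)) : List (U × U × ℂ) :=
  E.map fun e => (m e.1, m e.2.1, e.2.2)

/-- `y ↦ x`. -/
def mg (x y : U) : U → U := fun u => if u = y then x else u

/-! ### Determinants with unit rows -/

/-- rows in `T` replaced by unit rows -/
def rowT (T : Finset U) (A : Matrix U U ℂ) : Matrix U U ℂ :=
  fun i j => if i ∈ T then (1 : Matrix U U ℂ) i j else A i j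

lemma det_rowT_congr (T : Finset U) (A B : Matrix U U ℂ)
    (h : ∀ i, i ∉ T → ∀ j, j ∉ T → A i j = B i j) : (rowT T A).det = (rowT T B).det := by
  rw [Matrix.det_apply, Matrix.det_apply]
  refine Finset.sum_congr rfl fun σ _ => ?_
  congr 1
  by_cases hσ : ∃ i, σ i ∈ T ∧ σ i ≠ i
  · obtain ⟨i, hi, hne⟩ := hσ
    rw [Finset.prod_eq_zero (Finset.mem_univ i) (by simp [rowT, hi, hne]),
      Finset.prod_eq_zero (Finset.mem_univ i) (by simp [rowT, hi, hne])]
  · push Not at hσ
    refine Finset.prod_congr rfl fun i _ => ?_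
    by_cases hi : σ i ∈ T
    · simp [rowT, hi]
    · have hi' : i ∉ T := by
        intro hiT
        have h2 := hσ (σ.symm i) (by simpa using hiT)
        rw [Equiv.apply_symm_apply] at h2
        apply hi
        rw [h2, Equiv.apply_symm_apply]
        exact hiT
      simp only [rowT, hi, if_false]
      exact h _ hi _ hi'

omit [Fintype U] in
lemma rowT_insert (T : Finset U) (i : U) (A : Matrix U U ℂ) (hi : i ∉ T) :
    rowT (insert i T) A = (rowT T A).updateRow i (Pi.single i 1) := by
  ext a b
  by_cases h : a = i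
  · subst h
    simp [rowT, Matrix.one_apply, Pi.single_apply, eq_comm]
  · simp [rowT, h]

omit [Fintype U] in
lemma rowT_empty (A : Matrix U U ℂ) : rowT ∅ A = A := by
  ext a b; simp [rowT]

lemma rowT_diag_line (T : Finset U) (L : Matrix U U ℂ) (z : U → ℂ) (i : U) (t : ℂ) (hi : i ∉ T) :
    (rowT T (L + diagonal (Function.update z i t))).det =
      (rowT T (L + diagonal z)).det + (t - z i) * (rowT (insert i T) (L + diagonal z)).det := by
  have h1 : rowT T (L + diagonal (Function.update z i t)) =
      (rowT T (L + diagonal z)).updateRow i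
        ((rowT T (L + diagonal z)) i + (t - z i) • (Pi.single i 1)) := by
    ext a b
    by_cases h : a = i
    · subst h
      by_cases hb : b = a
      · subst hb
        simp [rowT, hi]
      · simp [rowT, hi, hb, Ne.symm hb]
    · simp [rowT, h, Matrix.diagonal_apply]
  rw [h1, Matrix.det_updateRow_add, Matrix.updateRow_eq_self, Matrix.det_updateRow_smul,
    rowT_insert T i _ hi]

lemma rowT_diag_mem (T : Finset U) (L : Matrix U U ℂ) (z : U → ℂ) (i : U) (t : ℂ) (hi : i ∈ T) :
    (rowT T (L + diagonal (Function.update z i t))).det = (rowT T (L + diagonal z)).det := by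
  apply det_rowT_congr
  intro a ha b _
  have : a ≠ i := fun h => ha (h ▸ hi)
  simp [Matrix.diagonal_apply, Function.update_of_ne this]

lemma MA_rowT (T : Finset U) (L : Matrix U U ℂ) :
    MA (fun z : U → ℂ => (rowT T (L + diagonal z)).det) := by
  intro z i t
  simp only
  by_cases hi : i ∈ T
  · rw [rowT_diag_mem T L z i t hi, rowT_diag_mem T L z i 0 hi, rowT_diag_mem T L z i 1 hi]; ring
  · rw [rowT_diag_line T L z i t hi, rowT_diag_line T L z i 0 hi, rowT_diag_line T L z i 1 hi]; ring

lemma pd_rowT (T : Finset U) (L : Matrix U U ℂ) (i : U) (hi : i ∉ T) :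
    pd i (fun z : U → ℂ => (rowT T (L + diagonal z)).det) =
      fun z => (rowT (insert i T) (L + diagonal z)).det := by
  funext z
  simp only [pd]
  rw [rowT_diag_line T L z i 0 hi, rowT_diag_line T L z i 1 hi]; ring

lemma D_eq (r : U) (E : List (U × U × ℂ)) :
    D r E = fun z => (rowT ∅ (Lap r E + diagonal z)).det := by
  funext z; rw [rowT_empty]; rfl

lemma MA_D (r : U) (E : List (U × U × ℂ)) : MA (D r E) := by
  rw [D_eq]; exact MA_rowT _ _

lemma pd_D (r : U) (E : List (U × U × ℂ)) (i : U) :
    pd i (D r E) = fun z => (rowT {i} (Lap r E + diagonal z)).det := by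
  rw [D_eq, pd_rowT _ _ _ (by simp)]; rfl

lemma pd_pd_D (r : U) (E : List (U × U × ℂ)) (i j : U) (hij : i ≠ j) :
    pd i (pd j (D r E)) = fun z => (rowT {i, j} (Lap r E + diagonal z)).det := by
  rw [pd_D, pd_rowT _ _ _ (by simpa using hij)]

/-! ### Deletion and contraction of one edge in the determinant -/

/-- The substitution that merges `y` into `x`. -/
def S (x y : U) (z : U → ℂ) : U → ℂ :=
  Function.update (Function.update z x (z x + z y)) y 1

/-- The substitution that merges `v` into the root. -/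
def S0 (v : U) (z : U → ℂ) : U → ℂ := Function.update z v 1

/-- Translation of one variable. -/
def tau (v : U) (w : ℂ) (z : U → ℂ) : U → ℂ := Function.update z v (z v + w)

/-- Add row `y` to row `x` and column `y` to column `x`. -/
def cc (x y : U) (A : Matrix U U ℂ) : Matrix U U ℂ :=
  (A.updateRow x (A x + A y)).updateCol x
    (fun k => (A.updateRow x (A x + A y)) k x + (A.updateRow x (A x + A y)) k y)

lemma det_cc (x y : U) (hxy : x ≠ y) (A : Matrix U U ℂ) : (cc x y A).det = A.det := by
  rw [cc, Matrix.det_updateCol_add_self _ hxy, Matrix.det_updateRow_add_self _ hxy]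

/-- Entries of `cc x y A` . -/
def ce (x y : U) (A : Matrix U U ℂ) (i j : U) : ℂ :=
  A i j + (if i = x then A y j else 0) + (if j = x then A i y else 0) +
    (if i = x then (if j = x then A y y else 0) else 0)

omit [Fintype U] in
lemma cc_apply (x y : U) (A : Matrix U U ℂ) (i j : U) : cc x y A i j = ce x y A i j := by
  unfold cc ce
  by_cases hj : j = x
  · subst hj
    by_cases hi : i = j
    · subst hi; simp; ring
    · simp [hi]
  · by_cases hi : i = x
    · subst hi; simp [hj]
    · simp [hi, hj]

lemma dl_mg (r x y : U) (hx : x ≠ r) (hy : y ≠ r) (a i : U) (hi : i ≠ y) :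
    dl r (mg x y a) i = dl r a i + (if i = x then dl r a y else 0) := by
  unfold mg
  by_cases ha : a = y
  · subst ha
    simp only [dl, hx, hy, if_true, if_false, Pi.single_apply, hi]
    simp
  · simp only [ha, if_false]
    have : dl r a y = 0 := by
      unfold dl
      split_ifs
      · rfl
      · simp [Pi.single_apply, Ne.symm ha]
    simp [this]

lemma nu_mg (r x y : U) (hx : x ≠ r) (hy : y ≠ r) (a b i : U) (hi : i ≠ y) :
    nu r (mg x y a) (mg x y b) i = nu r a b i + (if i = x then nu r a b y else 0) := by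
  simp only [nu, Pi.sub_apply, dl_mg r x y hx hy _ i hi]
  split_ifs <;> ring

lemma nu_mg_self (r x y : U) (hxy : x ≠ y) (a b : U) :
    nu r (mg x y a) (mg x y b) y = 0 := by
  have h : ∀ a, dl r (mg x y a) y = 0 := by
    intro a
    unfold mg dl
    split_ifs with h1 h2 h3
    · rfl
    · simp [Pi.single_apply, Ne.symm hxy]
    · rfl
    · simp [Pi.single_apply, Ne.symm h1]
  simp [nu, h]

lemma nu_mg_root (r v : U) (a b i : U) (hi : i ≠ v) :
    nu r (mg r v a) (mg r v b) i = nu r a b i := by
  have h : ∀ a, dl r (mg r v a) i = dl r a i := by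
    intro a
    unfold mg
    by_cases ha : a = v
    · subst ha
      simp only [dl, if_true]
      by_cases h2 : a = r
      · simp [h2]
      · simp [h2, Pi.single_apply, hi]
    · simp [ha]
  simp [nu, h]

lemma Lap_mg (r x y : U) (hx : x ≠ r) (hy : y ≠ r) (E : List (U × U × ℂ)) (i j : U)
    (hi : i ≠ y) (hj : j ≠ y) :
    Lap r (rel (mg x y) E) i j = ce x y (Lap r E) i j := by
  induction E with
  | nil => simp [Lap, rel, ce]
  | cons e E ih =>
    have h1 : Lap r (rel (mg x y) (e :: E)) i j =
      e.2.2 * (nu r (mg x y e.1) (mg x y e.2.1) i * nu r (mg x y e.1) (mg x y e.2.1) j)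
        + Lap r (rel (mg x y) E) i j := by
      simp [rel, Lap, Matrix.vecMulVec_apply]
    rw [h1, ih, nu_mg r x y hx hy _ _ i hi, nu_mg r x y hx hy _ _ j hj]
    simp only [ce, Lap, Matrix.add_apply, Matrix.smul_apply, Matrix.vecMulVec_apply, smul_eq_mul]
    split_ifs <;> ring

lemma Lap_row_zero (r x y : U) (hxy : x ≠ y) (E : List (U × U × ℂ)) (j : U) :
    Lap r (rel (mg x y) E) y j = 0 := by
  induction E with
  | nil => simp [Lap, rel]
  | cons e E ih =>
    have h1 : Lap r (rel (mg x y) (e :: E)) y j =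
      e.2.2 * (nu r (mg x y e.1) (mg x y e.2.1) y * nu r (mg x y e.1) (mg x y e.2.1) j)
        + Lap r (rel (mg x y) E) y j := by
      simp [rel, Lap, Matrix.vecMulVec_apply]
    rw [h1, ih, nu_mg_self r x y hxy]; simp

lemma Lap_mg_root (r v : U) (E : List (U × U × ℂ)) (i j : U)
    (hi : i ≠ v) (hj : j ≠ v) :
    Lap r (rel (mg r v) E) i j = Lap r E i j := by
  induction E with
  | nil => simp [Lap, rel]
  | cons e E ih =>
    have h1 : Lap r (rel (mg r v) (e :: E)) i j =
      e.2.2 * (nu r (mg r v e.1) (mg r v e.2.1) i * nu r (mg r v e.1) (mg r v e.2.1) j)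
        + Lap r (rel (mg r v) E) i j := by
      simp [rel, Lap, Matrix.vecMulVec_apply]
    rw [h1, ih, nu_mg_root r v _ _ i hi, nu_mg_root r v _ _ j hj]
    simp only [Lap, Matrix.add_apply, Matrix.smul_apply, Matrix.vecMulVec_apply, smul_eq_mul]

/-- a matrix whose rows in `T'` are unit rows -/
lemma rowT_union_eq (T : Finset U) (y : U) (A : Matrix U U ℂ)
    (h : ∀ j, A y j = (1 : Matrix U U ℂ) y j) : rowT (insert y T) A = rowT T A := by
  ext i j
  by_cases hi : i = y
  · subst hi; simp [rowT, h]
  · simp [rowT, hi]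

lemma unit_row (r x y : U) (hxy : x ≠ y) (E : List (U × U × ℂ)) (z : U → ℂ) (hz : z y = 1)
    (j : U) : (Lap r (rel (mg x y) E) + diagonal z) y j = (1 : Matrix U U ℂ) y j := by
  rw [Matrix.add_apply, Lap_row_zero r x y hxy, zero_add, Matrix.diagonal_apply,
    Matrix.one_apply, hz]

lemma ce_diag (x y : U) (hxy : x ≠ y) (z : U → ℂ) (i j : U) (hi : i ≠ y) (hj : j ≠ y) :
    ce x y (diagonal z) i j = diagonal (S x y z) i j := by
  have hyj := Ne.symm hj
  simp only [ce, Matrix.diagonal_apply, S]
  by_cases hij : i = j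
  · subst hij
    by_cases hix : i = x
    · subst hix
      simp [hyj, hi, Function.update_of_ne]
    · simp [hix, hi, hyj]
  · simp only [hij, if_false, hi, hyj]
    by_cases hix : i = x
    · subst hix; simp [Ne.symm hij]
    · simp [hix]

lemma ce_add (x y : U) (A B : Matrix U U ℂ) (i j : U) :
    ce x y (A + B) i j = ce x y A i j + ce x y B i j := by
  simp only [ce, Matrix.add_apply]
  split_ifs <;> ring

lemma det_merge (x y : U) (hxy : x ≠ y) (A : Matrix U U ℂ) (w : ℂ) :
    (w • vecMulVec (Pi.single x 1 - Pi.single y 1) (Pi.single x 1 - Pi.single y 1) + A).det =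
      A.det + w * (rowT {y} (cc x y A)).det := by
  rw [← det_cc x y hxy, ← det_cc x y hxy A]
  have h1 : cc x y (w • vecMulVec (Pi.single x 1 - Pi.single y 1)
      (Pi.single x 1 - Pi.single y 1) + A) =
      (cc x y A).updateRow y ((cc x y A) y + w • (Pi.single y 1)) := by
    ext i j
    rw [cc_apply, ce_add, ← cc_apply x y A]
    have h2 : ce x y (w • vecMulVec (Pi.single x 1 - Pi.single y 1)
      (Pi.single x 1 - Pi.single y 1)) i j = if i = y then w * (Pi.single y (1:ℂ) : U → ℂ) j else 0 := by
      simp only [ce, Matrix.smul_apply, Matrix.vecMulVec_apply, Pi.sub_apply, Pi.single_apply,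
        smul_eq_mul]
      by_cases hi : i = y
      · subst hi
        by_cases hj : j = i
        · subst hj; simp [hxy, Ne.symm hxy]
        · by_cases hjx : j = x
          · subst hjx; simp [hxy, Ne.symm hxy]
          · simp [hxy, Ne.symm hxy, hj, hjx]
      · by_cases hix : i = x
        · subst hix
          by_cases hj : j = y
          · subst hj; simp [hxy, Ne.symm hxy]
          · by_cases hjx : j = i
            · subst hjx; simp [hxy, Ne.symm hxy]
            · simp [hxy, Ne.symm hxy, hj, hjx]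
        · simp [hi, hix]
    rw [h2]
    by_cases hi : i = y
    · subst hi; simp; ring
    · simp [hi]
  rw [h1, Matrix.det_updateRow_add, Matrix.updateRow_eq_self, Matrix.det_updateRow_smul]
  have h3 : rowT {y} (cc x y A) = (cc x y A).updateRow y (Pi.single y 1) := by
    have := rowT_insert ∅ y (cc x y A) (by simp)
    rw [rowT_empty] at this
    rw [← this]; rfl
  rw [h3]

lemma nu_of_ne (r x y : U) (hx : x ≠ r) (hy : y ≠ r) :
    nu r x y = Pi.single x 1 - Pi.single y 1 := by simp [nu, dl, hx, hy]

lemma D_cons_merge (r x y : U) (hxy : x ≠ y) (hx : x ≠ r) (hy : y ≠ r) (w : ℂ)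
    (E : List (U × U × ℂ)) (z : U → ℂ) :
    D r ((x, y, w) :: E) z = D r E z + w * D r (rel (mg x y) E) (S x y z) := by
  unfold D
  rw [Lap, add_assoc]
  simp only
  rw [nu_of_ne r x y hx hy, det_merge x y hxy]
  congr 2
  rw [← rowT_empty (Lap r (rel (mg x y) E) + diagonal (S x y z)),
    ← rowT_union_eq ∅ y _ (unit_row r x y hxy E (S x y z) (by simp [S]))]
  apply det_rowT_congr
  intro i hi j hj
  have hi' : i ≠ y := by simpa using hi
  have hj' : j ≠ y := by simpa using hj
  rw [cc_apply, ce_add, Matrix.add_apply, Lap_mg r x y hx hy E i j hi' hj',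
    ce_diag x y hxy z i j hi' hj']

lemma pd_pd_D_merge (r x y : U) (hxy : x ≠ y) (hx : x ≠ r) (hy : y ≠ r)
    (E : List (U × U × ℂ)) :
    pd x (pd y (D r E)) = fun z => pd x (D r (rel (mg x y) E)) (S x y z) := by
  rw [pd_pd_D r E x y hxy, pd_D]
  funext z
  simp only
  rw [← rowT_union_eq {x} y _ (unit_row r x y hxy E (S x y z) (by simp [S])),
    Finset.pair_comm x y]
  apply det_rowT_congr
  intro i hi j hj
  have hi' : i ≠ y ∧ i ≠ x := by simpa [not_or] using hi
  have hj' : j ≠ y ∧ j ≠ x := by simpa [not_or] using hj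
  rw [Matrix.add_apply, Matrix.add_apply, Lap_mg r x y hx hy E i j hi'.1 hj'.1]
  congr 1
  · simp [ce, hi'.2, hj'.2]
  · simp [Matrix.diagonal_apply, S, hi'.1, hi'.2]

lemma D_cons_same (r x : U) (w : ℂ) (E : List (U × U × ℂ)) : D r ((x, x, w) :: E) = D r E := by
  funext z
  simp [D, Lap, nu]

lemma D_tau (r v : U) (hv : v ≠ r) (w : ℂ) (E : List (U × U × ℂ)) :
    D r ((v, r, w) :: E) = fun z => D r E (tau v w z) := by
  funext z
  unfold D
  congr 1
  rw [Lap]
  ext i j
  simp only [nu, dl, hv, if_false, if_true, sub_zero, Matrix.add_apply, Matrix.smul_apply,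
    Matrix.vecMulVec_apply, smul_eq_mul, tau, Matrix.diagonal_apply, Pi.single_apply]
  by_cases hij : i = j
  · subst hij
    by_cases hi : i = v
    · subst hi; simp; ring
    · simp [hi]
  · by_cases hi : i = v
    · subst hi; simp [hij, Ne.symm hij]
    · simp [hi, hij]

lemma D_symm_root (r v : U) (w : ℂ) (E : List (U × U × ℂ)) :
    D r ((r, v, w) :: E) = D r ((v, r, w) :: E) := by
  funext z
  unfold D
  congr 2
  rw [Lap, Lap]
  ext i j
  simp only [nu, dl, if_true, Matrix.add_apply, Matrix.smul_apply,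
    Matrix.vecMulVec_apply, smul_eq_mul, Pi.sub_apply, Pi.zero_apply]
  ring

lemma pd_D_root (r v : U) (hv : v ≠ r) (E : List (U × U × ℂ)) (z : U → ℂ) :
    pd v (D r E) z = D r (rel (mg r v) E) (S0 v z) := by
  rw [pd_D, D]
  rw [← rowT_empty (Lap r (rel (mg r v) E) + diagonal (S0 v z)),
    ← rowT_union_eq ∅ v _ (unit_row r r v (Ne.symm hv) E (S0 v z) (by simp [S0]))]
  simp only
  apply det_rowT_congr
  intro i hi j hj
  have hi' : i ≠ v := by simpa using hi
  have hj' : j ≠ v := by simpa using hj
  rw [Matrix.add_apply, Matrix.add_apply, Lap_mg_root r v E i j hi' hj']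
  congr 1
  simp [Matrix.diagonal_apply, S0, hi']

lemma D_cons_root (r v : U) (hv : v ≠ r) (w : ℂ) (E : List (U × U × ℂ)) (z : U → ℂ) :
    D r ((v, r, w) :: E) z = D r E z + w * D r (rel (mg r v) E) (S0 v z) := by
  rw [D_tau r v hv, ← pd_D_root r v hv]
  simp only [tau]
  rw [(MA_D r E).line z v (z v + w)]; ring

end H990SF
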