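import Mathlib
import Pool.Agent.H990R2.SF.Poly

/-!
The operators `1 - w ∂_x ∂_y`, the recursion for `Phi` and its stability.
-/

set_option linter.unusedSectionVars false
set_option linter.unusedSimpArgs false

namespace H990SF

open Finset Complex Matrix

variable {U : Type*} [Fintype U] [DecidableEq U]

/-! ### composition lemmas -/

lemma pd_comp_S (x y : U) (hxy : x ≠ y) {h : (U → ℂ) → ℂ} (hh : MA h) (i : U) :
    pd i (fun z => h (S x y z)) = fun z => pd (mg x y i) h (S x y z) := by
  funext z
  by_cases hiy : i = y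
  · subst hiy
    have e : ∀ t, S x i (Function.update z i t) = Function.update (S x i z) x (z x + t) := by
      intro t
      funext k
      unfold S
      by_cases hk : k = x
      · subst hk; simp [hxy]
      · by_cases hki : k = i
        · subst hki; simp [hk]
        · simp [hk, hki]
    simp only [pd, e, mg, if_true]
    rw [hh.line (S x i z) x (z x + 1), hh.line (S x i z) x (z x + 0)]
    simp only [pd]
    ring
  · by_cases hix : i = x
    · subst hix
      have e : ∀ t, S i y (Function.update z i t) = Function.update (S i y z) i (t + z y) := by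
        intro t
        unfold S
        rw [Function.update_of_ne (Ne.symm hxy), Function.update_self, Function.update_idem,
          Function.update_comm hxy, Function.update_comm hxy, Function.update_idem]
      simp only [pd, e, mg, hiy, if_false]
      rw [hh.line (S i y z) i (1 + z y), hh.line (S i y z) i (0 + z y)]
      simp only [pd]
      ring
    · have e : ∀ t, S x y (Function.update z i t) = Function.update (S x y z) i t := by
        intro t
        unfold S
        rw [Function.update_of_ne (Ne.symm hix), Function.update_of_ne (Ne.symm hiy),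
          Function.update_comm hix, Function.update_comm hiy]
      simp only [pd, e, mg, hiy, if_false]

lemma pd_comp_S0 (v : U) {h : (U → ℂ) → ℂ} (i : U) (hi : i ≠ v) :
    pd i (fun z => h (S0 v z)) = fun z => pd i h (S0 v z) := by
  funext z
  have e : ∀ t, S0 v (Function.update z i t) = Function.update (S0 v z) i t := by
    intro t
    unfold S0
    rw [Function.update_comm hi]
  simp only [pd, e]

lemma pd_comp_S0_self (v : U) {h : (U → ℂ) → ℂ} :
    pd v (fun z => h (S0 v z)) = 0 := by
  funext z
  simp [pd, S0]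

lemma pd_comp_tau (v : U) (w : ℂ) {h : (U → ℂ) → ℂ} (hh : MA h) (i : U) :
    pd i (fun z => h (tau v w z)) = fun z => pd i h (tau v w z) := by
  funext z
  by_cases hi : i = v
  · subst hi
    have e : ∀ t, tau i w (Function.update z i t) = Function.update (tau i w z) i (t + w) := by
      intro t
      unfold tau
      simp
    simp only [pd, e]
    rw [hh.line (tau i w z) i (1 + w), hh.line (tau i w z) i (0 + w)]
    simp only [pd]
    ring
  · have e : ∀ t, tau v w (Function.update z i t) = Function.update (tau v w z) i t := by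
      intro t
      unfold tau
      rw [Function.update_of_ne (Ne.symm hi), Function.update_comm hi]
    simp only [pd, e]

lemma pd_zero (i : U) : pd i (0 : (U → ℂ) → ℂ) = 0 := by
  funext z; simp [pd]

lemma pd_add_smul (i : U) (f g : (U → ℂ) → ℂ) (w : ℂ) :
    pd i (fun z => f z + w * g z) = fun z => pd i f z + w * pd i g z := by
  funext z; simp only [pd]; ring

lemma pd_sub_smul (i : U) (f g : (U → ℂ) → ℂ) (w : ℂ) :
    pd i (fun z => f z - w * g z) = fun z => pd i f z - w * pd i g z := by
  funext z; simp only [pd]; ring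

lemma op_add_smul (r : U) (e : U × U × ℂ) (f g : (U → ℂ) → ℂ) (w : ℂ) :
    op r e (fun z => f z + w * g z) = fun z => op r e f z + w * op r e g z := by
  unfold op
  split_ifs
  · rfl
  · rw [pd_add_smul, pd_add_smul]
    funext z; simp only; ring

lemma ops_cons (r : U) (e : U × U × ℂ) (E : List (U × U × ℂ)) (f : (U → ℂ) → ℂ) :
    ops r (e :: E) f = op r e (ops r E f) := rfl

lemma ops_add_smul (r : U) (E : List (U × U × ℂ)) (f g : (U → ℂ) → ℂ) (w : ℂ) :
    ops r E (fun z => f z + w * g z) = fun z => ops r E f z + w * ops r E g z := by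
  induction E with
  | nil => rfl
  | cons e E ih => rw [ops_cons, ih, op_add_smul]; rfl

lemma op_pd (r : U) (e : U × U × ℂ) (i : U) (f : (U → ℂ) → ℂ) :
    op r e (pd i f) = pd i (op r e f) := by
  unfold op
  split_ifs
  · rfl
  · rw [pd_sub_smul, pd_comm e.2.1 i, pd_comm e.1 i]

lemma ops_pd (r : U) (E : List (U × U × ℂ)) (i : U) (f : (U → ℂ) → ℂ) :
    ops r E (pd i f) = pd i (ops r E f) := by
  induction E with
  | nil => rfl
  | cons e E ih => rw [ops_cons, ih, op_pd, ops_cons]

lemma MA_op (r : U) (e : U × U × ℂ) {f : (U → ℂ) → ℂ} (hf : MA f) : MA (op r e f) := by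
  unfold op
  split_ifs
  · exact hf
  · exact hf.sub_smul ((hf.pd _).pd _) _

lemma MA_ops (r : U) (E : List (U × U × ℂ)) {f : (U → ℂ) → ℂ} (hf : MA f) : MA (ops r E f) := by
  induction E with
  | nil => exact hf
  | cons e E ih => exact MA_op r e ih

lemma MA_Phi (r : U) (E : List (U × U × ℂ)) : MA (Phi r E) := MA_ops r E (MA_D r E)

lemma mg_eq_root_iff (r x y : U) (hx : x ≠ r) (hy : y ≠ r) (a : U) : mg x y a = r ↔ a = r := by
  unfold mg
  split_ifs with h
  · subst h; simp [hx, hy]
  · rfl

lemma op_comp_S (r x y : U) (hxy : x ≠ y) (hx : x ≠ r) (hy : y ≠ r) (e : U × U × ℂ)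
    {h : (U → ℂ) → ℂ} (hh : MA h) :
    op r e (fun z => h (S x y z)) =
      fun z => op r (mg x y e.1, mg x y e.2.1, e.2.2) h (S x y z) := by
  unfold op
  simp only [mg_eq_root_iff r x y hx hy]
  split_ifs
  · rfl
  · rw [pd_comp_S x y hxy hh, pd_comp_S x y hxy (hh.pd _)]

lemma rel_cons (m : U → U) (e : U × U × ℂ) (E : List (U × U × ℂ)) :
    rel m (e :: E) = (m e.1, m e.2.1, e.2.2) :: rel m E := rfl

lemma ops_comp_S (r x y : U) (hxy : x ≠ y) (hx : x ≠ r) (hy : y ≠ r) (E : List (U × U × ℂ))
    {h : (U → ℂ) → ℂ} (hh : MA h) :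
    ops r E (fun z => h (S x y z)) = fun z => ops r (rel (mg x y) E) h (S x y z) := by
  induction E with
  | nil => rfl
  | cons e E ih =>
    rw [ops_cons, ih, op_comp_S r x y hxy hx hy e (MA_ops r _ hh)]; rfl

lemma op_comp_S0 (r v : U) (e : U × U × ℂ) (h : (U → ℂ) → ℂ) :
    op r e (fun z => h (S0 v z)) =
      fun z => op r (mg r v e.1, mg r v e.2.1, e.2.2) h (S0 v z) := by
  obtain ⟨a, b, w⟩ := e
  unfold op
  simp only
  by_cases ha : a = v
  · have h1 : mg r v a = r := by simp [mg, ha]
    simp only [h1, true_or, if_true]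
    split_ifs with h2
    · rfl
    · subst ha
      rw [pd_comm, pd_comp_S0_self, pd_zero]
      funext z; simp
  · have h1 : mg r v a = a := by simp [mg, ha]
    by_cases hb : b = v
    · have h2 : mg r v b = r := by simp [mg, hb]
      simp only [h1, h2, or_true, if_true]
      split_ifs with h3
      · rfl
      · subst hb
        rw [pd_comp_S0_self, pd_zero]
        funext z; simp
    · have h2 : mg r v b = b := by simp [mg, hb]
      simp only [h1, h2]
      split_ifs with h3
      · rfl
      · rw [pd_comp_S0 v _ hb, pd_comp_S0 v _ ha]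

lemma ops_comp_S0 (r v : U) (E : List (U × U × ℂ)) (h : (U → ℂ) → ℂ) :
    ops r E (fun z => h (S0 v z)) = fun z => ops r (rel (mg r v) E) h (S0 v z) := by
  induction E with
  | nil => rfl
  | cons e E ih =>
    rw [ops_cons, ih, op_comp_S0 r v e]; rfl

lemma op_comp_tau (r v : U) (w : ℂ) (e : U × U × ℂ) {h : (U → ℂ) → ℂ} (hh : MA h) :
    op r e (fun z => h (tau v w z)) = fun z => op r e h (tau v w z) := by
  unfold op
  split_ifs
  · rfl
  · rw [pd_comp_tau v w hh, pd_comp_tau v w (hh.pd _)]

lemma ops_comp_tau (r v : U) (w : ℂ) (E : List (U × U × ℂ)) {h : (U → ℂ) → ℂ} (hh : MA h) :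
    ops r E (fun z => h (tau v w z)) = fun z => ops r E h (tau v w z) := by
  induction E with
  | nil => rfl
  | cons e E ih =>
    rw [ops_cons, ih, op_comp_tau r v w e (MA_ops r _ hh)]; rfl

/-! ### the recursion -/

lemma Phi_nil (r : U) : Phi r ([] : List (U × U × ℂ)) 1 = 1 := by
  have : Lap r ([] : List (U × U × ℂ)) + diagonal (1 : U → ℂ) = 1 := by
    rw [Lap, zero_add]; exact Matrix.diagonal_one
  simp only [Phi, ops, List.foldr_nil, D]
  rw [this, Matrix.det_one]

lemma Phi_cons_same (r x : U) (w : ℂ) (E : List (U × U × ℂ)) :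
    Phi r ((x, x, w) :: E) = Phi r E := by
  unfold Phi
  rw [ops_cons, D_cons_same]
  unfold op
  split_ifs
  · rfl
  · simp only
    rw [pd_self]
    funext z; simp

lemma Phi_cons_merge (r x y : U) (hxy : x ≠ y) (hx : x ≠ r) (hy : y ≠ r) (w : ℂ)
    (E : List (U × U × ℂ)) :
    Phi r ((x, y, w) :: E) 1 = Phi r E 1 + w * Phi r (rel (mg x y) E) 1 := by
  have h1 : D r ((x, y, w) :: E) = fun z => D r E z + w * D r (rel (mg x y) E) (S x y z) := by
    funext z; exact D_cons_merge r x y hxy hx hy w E z
  have h2 : ops r E (D r ((x, y, w) :: E)) =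
      fun z => Phi r E z + w * Phi r (rel (mg x y) E) (S x y z) := by
    rw [h1, ops_add_smul, ops_comp_S r x y hxy hx hy E (MA_D _ _)]; rfl
  have h3 : pd x (pd y (Phi r E)) = fun z => pd x (Phi r (rel (mg x y) E)) (S x y z) := by
    unfold Phi
    rw [← ops_pd, ← ops_pd, pd_pd_D_merge r x y hxy hx hy,
      ops_comp_S r x y hxy hx hy E ((MA_D _ _).pd _), ops_pd]
  have h4 : pd x (pd y (fun z => Phi r (rel (mg x y) E) (S x y z))) = 0 := by
    rw [pd_comp_S x y hxy (MA_Phi _ _), pd_comp_S x y hxy ((MA_Phi _ _).pd _)]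
    funext z
    have e1 : mg x y x = x := by simp [mg, hxy]
    have e2 : mg x y y = x := by simp [mg]
    rw [e1, e2, pd_self]; rfl
  have h5 : Phi r ((x, y, w) :: E) = op r (x, y, w) (ops r E (D r ((x, y, w) :: E))) := rfl
  rw [h5, h2]
  unfold op
  simp only [hx, hy, or_self, if_false]
  rw [pd_add_smul, pd_add_smul, h3, h4]
  simp only [Pi.zero_apply, mul_zero, add_zero]
  have e3 : (1 : U → ℂ) = Function.update (S x y 1) x ((S x y 1) x - 1) := by
    funext i
    unfold S
    by_cases hi : i = x
    · subst hi; simp [hxy]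
    · by_cases hiy : i = y
      · subst hiy; simp [hi]
      · simp [hi, hiy]
  have e4 : Phi r (rel (mg x y) E) 1 = Phi r (rel (mg x y) E) (S x y 1) -
      pd x (Phi r (rel (mg x y) E)) (S x y 1) := by
    conv_lhs => rw [e3]
    rw [(MA_Phi r _).line]; ring
  rw [e4]; ring

lemma Phi_tau (r v : U) (hv : v ≠ r) (w : ℂ) (E : List (U × U × ℂ)) :
    Phi r ((v, r, w) :: E) = fun z => Phi r E (tau v w z) := by
  unfold Phi
  rw [ops_cons, D_tau r v hv, ops_comp_tau r v w E (MA_D _ _)]
  unfold op
  simp

lemma Phi_symm_root (r v : U) (w : ℂ) (E : List (U × U × ℂ)) :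
    Phi r ((r, v, w) :: E) = Phi r ((v, r, w) :: E) := by
  unfold Phi
  rw [ops_cons, ops_cons, D_symm_root]
  unfold op
  simp

lemma Phi_cons_root (r v : U) (hv : v ≠ r) (w : ℂ) (E : List (U × U × ℂ)) :
    Phi r ((v, r, w) :: E) 1 = Phi r E 1 + w * Phi r (rel (mg r v) E) 1 := by
  have h1 : D r ((v, r, w) :: E) = fun z => D r E z + w * D r (rel (mg r v) E) (S0 v z) := by
    funext z; exact D_cons_root r v hv w E z
  have h2 : ops r E (D r ((v, r, w) :: E)) =
      fun z => Phi r E z + w * Phi r (rel (mg r v) E) (S0 v z) := by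
    rw [h1, ops_add_smul, ops_comp_S0 r v E]; rfl
  have h5 : Phi r ((v, r, w) :: E) = op r (v, r, w) (ops r E (D r ((v, r, w) :: E))) := rfl
  rw [h5, h2]
  unfold op
  simp only [or_true, if_true]
  have : S0 v (1 : U → ℂ) = 1 := by
    funext i; unfold S0
    by_cases hi : i = v
    · subst hi; simp
    · simp [hi]
  rw [this]

/-- The endpoint relabelling used when the edge `xy` is contracted. -/
def mgr (r x y : U) : U → U := if y = r then mg r x else mg x y

theorem Phi_cons (r x y : U) (hxy : x ≠ y) (w : ℂ) (E : List (U × U × ℂ)) :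
    Phi r ((x, y, w) :: E) 1 = Phi r E 1 + w * Phi r (rel (mgr r x y) E) 1 := by
  unfold mgr
  by_cases hy : y = r
  · subst hy
    simp only [if_true]
    exact Phi_cons_root y x hxy w E
  · simp only [hy, if_false]
    by_cases hx : x = r
    · subst hx
      rw [Phi_symm_root, Phi_cons_root x y hy w E]
    · exact Phi_cons_merge r x y hxy hx hy w E

/-! ### stability -/

/-- All the weights are nonnegative reals. -/
def NN (E : List (U × U × ℂ)) : Prop := ∀ e ∈ E, ∃ w : ℝ, 0 ≤ w ∧ e.2.2 = w

lemma Stab_ops (r : U) (E : List (U × U × ℂ)) (hE : NN E) {f : (U → ℂ) → ℂ} (hf : MA f)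
    (hs : Stab f) : Stab (ops r E f) := by
  induction E with
  | nil => exact hs
  | cons e E ih =>
    have ih' := ih (fun e he => hE e (List.mem_cons_of_mem _ he))
    obtain ⟨w, hw, hwe⟩ := hE e List.mem_cons_self
    rw [ops_cons]
    unfold op
    split_ifs with h
    · exact ih'
    · by_cases hxy : e.1 = e.2.1
      · rw [hxy, pd_self]
        simpa using ih'
      · rw [hwe]
        exact Stab.op (MA_ops r E hf) ih' hxy hw

lemma RealOn_ops (r : U) (E : List (U × U × ℂ)) (hE : NN E) {f : (U → ℂ) → ℂ}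
    (hs : RealOn f) : RealOn (ops r E f) := by
  induction E with
  | nil => exact hs
  | cons e E ih =>
    have ih' := ih (fun e he => hE e (List.mem_cons_of_mem _ he))
    obtain ⟨w, hw, hwe⟩ := hE e List.mem_cons_self
    rw [ops_cons]
    unfold op
    split_ifs with h
    · exact ih'
    · rw [hwe]
      exact RealOn.sub_smul ih' ((ih'.pd _).pd _) w

lemma cont_ops (r : U) (E : List (U × U × ℂ)) {f : (U → ℂ) → ℂ}
    (hs : Continuous f) : Continuous (ops r E f) := by
  induction E with
  | nil => exact hs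
  | cons e E ih =>
    rw [ops_cons]
    unfold op
    split_ifs with h
    · exact ih
    · exact ih.sub (continuous_const.mul (cont_pd (cont_pd ih _) _))

lemma cont_D (r : U) (E : List (U × U × ℂ)) : Continuous (D r E) := by
  unfold D
  exact (continuous_const.add (Continuous.matrix_diagonal continuous_id)).matrix_det

lemma dl_real (r x i : U) : (starRingEnd ℂ) (dl r x i) = dl r x i := by
  unfold dl
  split_ifs
  · simp
  · by_cases h : i = x
    · subst h; simp
    · simp [Pi.single_apply, h]

lemma nu_real (r x y i : U) : (starRingEnd ℂ) (nu r x y i) = nu r x y i := by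
  simp [nu, dl_real]

lemma Lap_real (r : U) (E : List (U × U × ℂ)) (hE : NN E) (i j : U) :
    (starRingEnd ℂ) (Lap r E i j) = Lap r E i j := by
  induction E with
  | nil => simp [Lap]
  | cons e E ih =>
    have ih' := ih (fun e he => hE e (List.mem_cons_of_mem _ he))
    obtain ⟨w, hw, hwe⟩ := hE e List.mem_cons_self
    simp only [Lap, Matrix.add_apply, Matrix.smul_apply, Matrix.vecMulVec_apply, smul_eq_mul,
      map_add, map_mul, ih', nu_real, hwe, Complex.conj_ofReal]

lemma RealOn_D (r : U) (E : List (U × U × ℂ)) (hE : NN E) : RealOn (D r E) := by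
  intro x
  rw [← Complex.conj_eq_iff_im]
  unfold D
  rw [RingHom.map_det]
  congr 1
  ext i j
  simp only [RingHom.mapMatrix_apply, Matrix.map_apply, Matrix.add_apply, map_add,
    Lap_real r E hE, Matrix.diagonal_apply]
  congr 1
  split_ifs <;> simp

lemma Lap_form (r : U) (E : List (U × U × ℂ)) (hE : NN E) (v : U → ℂ) :
    (star v ⬝ᵥ (Lap r E *ᵥ v)).im = 0 := by
  induction E with
  | nil => simp [Lap]
  | cons e E ih =>
    have ih' := ih (fun e he => hE e (List.mem_cons_of_mem _ he))
    obtain ⟨w, hw, hwe⟩ := hE e List.mem_cons_self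
    rw [Lap, Matrix.add_mulVec, dotProduct_add, Complex.add_im, ih', add_zero,
      Matrix.smul_mulVec, dotProduct_smul, hwe]
    have h1 : star v ⬝ᵥ (vecMulVec (nu r e.1 e.2.1) (nu r e.1 e.2.1) *ᵥ v) =
        (starRingEnd ℂ) (nu r e.1 e.2.1 ⬝ᵥ v) * (nu r e.1 e.2.1 ⬝ᵥ v) := by
      rw [Matrix.vecMulVec_mulVec]
      simp only [dotProduct, map_sum, map_mul, nu_real, Pi.star_apply, Pi.smul_apply]
      rw [Finset.sum_mul]
      refine Finset.sum_congr rfl fun i _ => ?_
      simp [MulOpposite.smul_eq_mul_unop]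
      ring
    rw [h1, mul_comm ((starRingEnd ℂ) _), Complex.mul_conj]
    simp [← Complex.ofReal_mul]

lemma Stab_D (r : U) (E : List (U × U × ℂ)) (hE : NN E) : Stab (D r E) := by
  intro z hz h0
  unfold D at h0
  obtain ⟨v, hv, hMv⟩ := Matrix.exists_mulVec_eq_zero_iff.2 h0
  have h1 : (star v ⬝ᵥ ((Lap r E + diagonal z) *ᵥ v)).im = 0 := by
    rw [hMv]; simp
  rw [Matrix.add_mulVec, dotProduct_add, Complex.add_im, Lap_form r E hE, zero_add] at h1
  have h2 : (star v ⬝ᵥ (diagonal z *ᵥ v)).im = ∑ i, (z i).im * Complex.normSq (v i) := by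
    simp only [dotProduct, Matrix.mulVec_diagonal, Complex.im_sum]
    refine Finset.sum_congr rfl fun i _ => ?_
    simp only [Pi.star_apply, Complex.star_def]
    have : (starRingEnd ℂ) (v i) * (z i * v i) = z i * (v i * (starRingEnd ℂ) (v i)) := by ring
    rw [this, Complex.mul_conj, Complex.im_mul_ofReal]
  rw [h2] at h1
  obtain ⟨i, hi⟩ : ∃ i, v i ≠ 0 := by
    by_contra h
    push Not at h
    exact hv (funext h)
  have h3 : 0 < ∑ i, (z i).im * Complex.normSq (v i) :=
    Finset.sum_pos' (fun j _ => mul_nonneg (hz j).le (Complex.normSq_nonneg _))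
      ⟨i, Finset.mem_univ _, mul_pos (hz i) (Complex.normSq_pos.2 hi)⟩
  exact absurd h1 h3.ne'

theorem Stab_Phi (r : U) (E : List (U × U × ℂ)) (hE : NN E) : Stab (Phi r E) :=
  Stab_ops r E hE (MA_D r E) (Stab_D r E hE)

theorem RealOn_Phi (r : U) (E : List (U × U × ℂ)) (hE : NN E) : RealOn (Phi r E) :=
  RealOn_ops r E hE (RealOn_D r E hE)

theorem cont_Phi (r : U) (E : List (U × U × ℂ)) : Continuous (Phi r E) :=
  cont_ops r E (cont_D r E)

end H990SF
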