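import Mathlib
import Pool.Agent.H990R2.SF.Ops

/-!
The weighted sum over the forests of a multigraph is `Phi` at the all-ones vector.
-/

set_option linter.unusedSectionVars false
set_option linter.unusedSimpArgs false

namespace H990SF

open Finset

section graph

variable {V ι : Type*}

/-- The simple graph spanned by the edges in `F`; edge `i` joins `a i` and `b i`. -/
def gr (a b : ι → V) (F : Finset ι) : SimpleGraph V :=
  SimpleGraph.fromEdgeSet ((fun i => s(a i, b i)) '' (F : Set ι))

/-- `F` is (the edge set of) a forest of the multigraph with endpoints `a i`, `b i`: it has no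
loop, no two parallel edges, and the simple graph that it spans is acyclic. -/
def IsF (a b : ι → V) (F : Finset ι) : Prop :=
  (∀ i ∈ F, a i ≠ b i) ∧ Set.InjOn (fun i => s(a i, b i)) (F : Set ι) ∧ (gr a b F).IsAcyclic

variable [DecidableEq ι]

lemma gr_insert (a b : ι → V) (i : ι) (F : Finset ι) :
    gr a b (insert i F) = gr a b F ⊔ SimpleGraph.edge (a i) (b i) := by
  unfold gr SimpleGraph.edge
  rw [← SimpleGraph.fromEdgeSet_union]
  congr 1
  rw [Finset.coe_insert, Set.image_insert_eq]
  ext x; simp [or_comm]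

lemma gr_mono (a b : ι → V) {F G : Finset ι} (h : F ⊆ G) : gr a b F ≤ gr a b G :=
  SimpleGraph.fromEdgeSet_mono (Set.image_mono (by exact_mod_cast h))

lemma IsF_mono (a b : ι → V) {F G : Finset ι} (h : F ⊆ G) (hG : IsF a b G) : IsF a b F :=
  ⟨fun i hi => hG.1 i (h hi), hG.2.1.mono (by exact_mod_cast h), hG.2.2.anti (gr_mono a b h)⟩

lemma IsF_insert (a b : ι → V) {i : ι} {P : Finset ι} (hP : IsF a b P)
    (hr : ¬ (gr a b P).Reachable (a i) (b i)) : IsF a b (insert i P) := by
  have hne : a i ≠ b i := fun h => hr (h ▸ SimpleGraph.Reachable.refl _)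
  refine ⟨?_, ?_, ?_⟩
  · intro j hj
    rcases Finset.mem_insert.1 hj with rfl | hj
    · exact hne
    · exact hP.1 j hj
  · rw [Finset.coe_insert]
    by_cases hi : i ∈ P
    · rw [Set.insert_eq_of_mem (by exact_mod_cast hi)]; exact hP.2.1
    rw [Set.injOn_insert (by exact_mod_cast hi)]
    refine ⟨hP.2.1, ?_⟩
    rintro ⟨j, hj, hij⟩
    apply hr
    apply SimpleGraph.Adj.reachable
    unfold gr
    rw [SimpleGraph.fromEdgeSet_adj]
    exact ⟨⟨j, hj, hij⟩, hne⟩
  · rw [gr_insert]
    exact hP.2.2.sup_edge_of_not_reachable hr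

lemma not_reach_of_IsF_insert (a b : ι → V) {i : ι} {P : Finset ι} (hi : i ∉ P)
    (h : IsF a b (insert i P)) : ¬ (gr a b P).Reachable (a i) (b i) := by
  intro hr
  have h3 := h.2.2
  rw [gr_insert, SimpleGraph.isAcyclic_sup_fromEdgeSet_iff] at h3
  rcases h3.2 hr with h4 | h4
  · exact h.1 i (Finset.mem_insert_self _ _) h4
  · unfold gr at h4
    rw [SimpleGraph.fromEdgeSet_adj] at h4
    obtain ⟨⟨j, hj, hij⟩, -⟩ := h4
    have := h.2.1 (by simpa using Or.inr hj) (by simp) hij
    exact hi (this ▸ hj)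

lemma reach_sup_edge (G : SimpleGraph V) (x y u v : V) :
    (G ⊔ SimpleGraph.edge x y).Reachable u v ↔
      G.Reachable u v ∨ (G.Reachable u x ∧ G.Reachable y v) ∨
        (G.Reachable u y ∧ G.Reachable x v) := by
  constructor
  · rintro ⟨p⟩
    induction p with
    | nil => exact Or.inl (SimpleGraph.Reachable.refl _)
    | @cons u w v h p ih =>
      rw [SimpleGraph.sup_adj, SimpleGraph.edge_adj] at h
      rcases h with h | ⟨h, -⟩
      · rcases ih with ih | ⟨h1, h2⟩ | ⟨h1, h2⟩
        · exact Or.inl (h.reachable.trans ih)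
        · exact Or.inr (Or.inl ⟨h.reachable.trans h1, h2⟩)
        · exact Or.inr (Or.inr ⟨h.reachable.trans h1, h2⟩)
      · rcases h with ⟨rfl, rfl⟩ | ⟨rfl, rfl⟩
        · rcases ih with ih | ⟨h1, h2⟩ | ⟨h1, h2⟩
          · exact Or.inr (Or.inl ⟨SimpleGraph.Reachable.refl _, ih⟩)
          · exact Or.inr (Or.inl ⟨SimpleGraph.Reachable.refl _, h2⟩)
          · exact Or.inl h2
        · rcases ih with ih | ⟨h1, h2⟩ | ⟨h1, h2⟩
          · exact Or.inr (Or.inr ⟨SimpleGraph.Reachable.refl _, ih⟩)
          · exact Or.inl h2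
          · exact Or.inr (Or.inr ⟨SimpleGraph.Reachable.refl _, h2⟩)
  · have hxy : (G ⊔ SimpleGraph.edge x y).Reachable x y := by
      by_cases h : x = y
      · subst h; exact SimpleGraph.Reachable.refl _
      · apply SimpleGraph.Adj.reachable
        rw [SimpleGraph.sup_adj, SimpleGraph.edge_adj]
        exact Or.inr ⟨Or.inl ⟨rfl, rfl⟩, h⟩
    have hle : G ≤ G ⊔ SimpleGraph.edge x y := le_sup_left
    rintro (h | ⟨h1, h2⟩ | ⟨h1, h2⟩)
    · exact h.mono hle
    · exact (h1.mono hle).trans (hxy.trans (h2.mono hle))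
    · exact (h1.mono hle).trans (hxy.symm.trans (h2.mono hle))

end graph

section link

variable {V ι : Type*} [Fintype V] [DecidableEq V] [DecidableEq ι]

lemma mg_eq_iff (x y : V) (u v : V) :
    mg x y u = mg x y v ↔ u = v ∨ (u = x ∧ v = y) ∨ (u = y ∧ v = x) := by
  unfold mg
  split_ifs with h1 h2 h2
  · subst h1 h2; simp
  · subst h1
    constructor
    · rintro rfl; exact Or.inr (Or.inr ⟨rfl, rfl⟩)
    · rintro (rfl | ⟨rfl, rfl⟩ | ⟨-, rfl⟩)
      · exact absurd rfl h2
      · exact absurd rfl h2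
      · rfl
  · subst h2
    constructor
    · rintro rfl; exact Or.inr (Or.inl ⟨rfl, rfl⟩)
    · rintro (rfl | ⟨rfl, -⟩ | ⟨rfl, rfl⟩)
      · exact absurd rfl h1
      · rfl
      · exact absurd rfl h1
  · constructor
    · rintro rfl; exact Or.inl rfl
    · rintro (rfl | ⟨-, rfl⟩ | ⟨rfl, -⟩)
      · rfl
      · exact absurd rfl h2
      · exact absurd rfl h1

lemma mgr_eq_iff (r x y : V) (u v : V) :
    mgr r x y u = mgr r x y v ↔ u = v ∨ (u = x ∧ v = y) ∨ (u = y ∧ v = x) := by
  unfold mgr
  split_ifs with h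
  · subst h
    rw [mg_eq_iff]
    tauto
  · exact mg_eq_iff x y u v

lemma rel_map (m : V → V) (c : V → V) (a b : ι → V) (w : ι → ℂ) (l : List ι) :
    rel m (l.map fun i => (c (a i), c (b i), w i)) =
      l.map fun i => ((m ∘ c) (a i), (m ∘ c) (b i), w i) := by
  simp [rel, Function.comp_def]

open Classical in
theorem forest_sum_aux (r : V) (a b : ι → V) (w : ι → ℂ) (l : List ι) :
    ∀ (P : Finset ι) (c : V → V), l.Nodup → (∀ i ∈ l, i ∉ P) → IsF a b P →
      (∀ u v, c u = c v ↔ (gr a b P).Reachable u v) →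
      ∑ F ∈ l.toFinset.powerset, (if IsF a b (P ∪ F) then ∏ i ∈ F, w i else 0) =
        Phi r (l.map fun i => (c (a i), c (b i), w i)) 1 := by
  induction l with
  | nil =>
    intro P c _ _ hP _
    simp [hP, Phi_nil]
  | cons i l ih =>
    intro P c hnd hdis hP hc
    rw [List.nodup_cons] at hnd
    have hil : i ∉ l.toFinset := by simpa using hnd.1
    have hiP : i ∉ P := hdis i List.mem_cons_self
    rw [List.toFinset_cons, Finset.sum_powerset_insert hil, List.map_cons]
    rw [ih P c hnd.2 (fun j hj => hdis j (List.mem_cons_of_mem _ hj)) hP hc]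
    by_cases hcc : c (a i) = c (b i)
    · rw [hcc, Phi_cons_same]
      rw [Finset.sum_eq_zero, add_zero]
      intro F hF
      rw [if_neg]
      intro hbad
      have h2 : IsF a b (insert i P) := IsF_mono a b (by
        intro j hj
        rcases Finset.mem_insert.1 hj with rfl | hj
        · simp
        · simp [hj]) hbad
      exact not_reach_of_IsF_insert a b hiP h2 ((hc _ _).1 hcc)
    · rw [Phi_cons r _ _ hcc, rel_map]
      congr 1
      have hnr : ¬ (gr a b P).Reachable (a i) (b i) := fun h => hcc ((hc _ _).2 h)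
      rw [← ih (insert i P) (mgr r (c (a i)) (c (b i)) ∘ c) hnd.2 (by
        intro j hj
        rw [Finset.mem_insert, not_or]
        exact ⟨fun h => hnd.1 (h ▸ hj), hdis j (List.mem_cons_of_mem _ hj)⟩)
        (IsF_insert a b hP hnr) (by
          intro u v
          rw [Function.comp_apply, Function.comp_apply, mgr_eq_iff, gr_insert, reach_sup_edge,
            hc, hc, hc, hc, hc]
          constructor
          · rintro (h | ⟨h1, h2⟩ | ⟨h1, h2⟩)
            · exact Or.inl h
            · exact Or.inr (Or.inl ⟨h1, h2.symm⟩)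
            · exact Or.inr (Or.inr ⟨h1, h2.symm⟩)
          · rintro (h | ⟨h1, h2⟩ | ⟨h1, h2⟩)
            · exact Or.inl h
            · exact Or.inr (Or.inl ⟨h1, h2.symm⟩)
            · exact Or.inr (Or.inr ⟨h1, h2.symm⟩))]
      rw [Finset.mul_sum]
      refine Finset.sum_congr rfl fun F hF => ?_
      have hiF : i ∉ F := fun h => hil (Finset.mem_powerset.1 hF h)
      have e1 : P ∪ insert i F = insert i P ∪ F := by
        ext j; simp
      rw [e1, Finset.prod_insert hiF]
      split_ifs <;> simp

open Classical in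
/-- The weighted forest sum of the multigraph. -/
theorem forest_sum (r : V) (a b : ι → V) (w : ι → ℂ) (l : List ι) (hl : l.Nodup) :
    ∑ F ∈ l.toFinset.powerset, (if IsF a b F then ∏ i ∈ F, w i else 0) =
        Phi r (l.map fun i => (a i, b i, w i)) 1 := by
  have h0 : IsF a b (∅ : Finset ι) := by
    refine ⟨by simp, by simp, ?_⟩
    have : gr a b (∅ : Finset ι) = ⊥ := by simp [gr]
    rw [this]; exact SimpleGraph.isAcyclic_bot
  have := forest_sum_aux r a b w l ∅ id hl (by simp) h0 (by
    intro u v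
    have : gr a b (∅ : Finset ι) = ⊥ := by simp [gr]
    rw [this, SimpleGraph.reachable_bot]; rfl)
  simpa using this

end link

end H990SF
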