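import Mathlib
import Pool.Agent.H990R2.SF.Link

/-!
The strongly Rayleigh inequality for the edges of a star in the weighted forest measure of a
finite multigraph.
-/

set_option linter.unusedSectionVars false
set_option linter.unusedSimpArgs false

namespace H990SF

open Finset

variable {V ι : Type*} [Fintype V] [DecidableEq V] [DecidableEq ι]

/-- The endpoint different from `r` of an edge at `r`. -/
def oth (r : V) (a b : ι → V) (i : ι) : V := if a i = r then b i else a i

lemma Phi_star (r : V) (a b : ι → V) (w : ι → ℂ) (ls : List ι)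
    (hls : ∀ i ∈ ls, a i = r ∨ b i = r) (E' : List (V × V × ℂ)) :
    ∀ z : V → ℂ, Phi r ((ls.map fun i => (a i, b i, w i)) ++ E') z =
      Phi r E' (fun v => z v + (ls.map fun i => if oth r a b i = v ∧ v ≠ r then w i else 0).sum) := by
  induction ls with
  | nil => intro z; simp
  | cons i ls ih =>
    intro z
    have ih' := ih (fun j hj => hls j (List.mem_cons_of_mem _ hj))
    rw [List.map_cons, List.cons_append]
    rcases hls i List.mem_cons_self with h | h
    · by_cases h2 : b i = r
      · rw [h, h2, Phi_cons_same, ih' z]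
        congr 1
        funext v
        have : ¬ (oth r a b i = v ∧ v ≠ r) := by
          rintro ⟨h3, h4⟩
          apply h4
          rw [← h3]; simp [oth, h, h2]
        rw [List.map_cons, List.sum_cons, if_neg this, zero_add]
      · rw [h, Phi_symm_root, Phi_tau r (b i) h2]
        simp only
        rw [ih']
        congr 1
        funext v
        rw [List.map_cons, List.sum_cons]
        have ho : oth r a b i = b i := by simp [oth, h]
        rw [ho]
        by_cases hv : v = b i
        · subst hv
          simp [tau, h2]; ring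
        · simp [tau, hv, Ne.symm hv]
    · by_cases h2 : a i = r
      · rw [h, h2, Phi_cons_same, ih' z]
        congr 1
        funext v
        have : ¬ (oth r a b i = v ∧ v ≠ r) := by
          rintro ⟨h3, h4⟩
          apply h4
          rw [← h3]; simp [oth, h, h2]
        rw [List.map_cons, List.sum_cons, if_neg this, zero_add]
      · rw [h, Phi_tau r (a i) h2]
        simp only
        rw [ih']
        congr 1
        funext v
        rw [List.map_cons, List.sum_cons]
        have ho : oth r a b i = a i := by simp [oth, h2]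
        rw [ho]
        by_cases hv : v = a i
        · subst hv
          simp [tau, h2]; ring
        · simp [tau, hv, Ne.symm hv]

open Classical in
/-- The weighted sum over the forests inside `E` that contain `X`, each forest weighted by the
product of its weights outside `X`. -/
noncomputable def NX (a b : ι → V) (E : Finset ι) (w : ι → ℝ) (X : Finset ι) : ℝ :=
  ∑ F ∈ E.powerset with X ⊆ F ∧ IsF a b F, ∏ i ∈ F \ X, w i

open Classical in
lemma NX_empty (a b : ι → V) (E : Finset ι) (w : ι → ℝ) :
    NX a b E w ∅ = ∑ F ∈ E.powerset, (if IsF a b F then ∏ i ∈ F, w i else 0) := by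
  unfold NX
  rw [Finset.sum_filter]
  simp

open Classical in
lemma NX_step (a b : ι → V) (E : Finset ι) (w : ι → ℝ) (X : Finset ι) (e : ι) (he : e ∉ X) :
    NX a b E w (insert e X) =
      NX a b E (Function.update w e 1) X - NX a b E (Function.update w e 0) X := by
  unfold NX
  rw [Finset.sum_filter, Finset.sum_filter, Finset.sum_filter, ← Finset.sum_sub_distrib]
  refine Finset.sum_congr rfl fun F _ => ?_
  by_cases hF : X ⊆ F ∧ IsF a b F
  · rw [if_pos hF, if_pos hF]
    by_cases heF : e ∈ F
    · rw [if_pos ⟨Finset.insert_subset heF hF.1, hF.2⟩]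
      have hm : e ∈ F \ X := by simp [heF, he]
      rw [Finset.prod_update_of_mem hm, Finset.prod_update_of_mem hm]
      have : F \ insert e X = (F \ X) \ {e} := by
        ext j; simp; tauto
      rw [this]; ring
    · rw [if_neg (fun h => heF (h.1 (Finset.mem_insert_self _ _)))]
      have hm : e ∉ F \ X := by simp [heF]
      rw [Finset.prod_update_of_notMem hm, Finset.prod_update_of_notMem hm]; ring
  · rw [if_neg hF, if_neg hF, if_neg (fun h => hF ⟨fun x hx => h.1 (Finset.mem_insert_of_mem hx), h.2⟩)]
    ring

/-- The shifted star weights. -/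
def X0 (r : V) (a b : ι → V) (E : Finset ι) (w : ι → ℝ) (v : V) : ℝ :=
  1 + ∑ i ∈ E.filter (fun i => a i = r ∨ b i = r), if oth r a b i = v ∧ v ≠ r then w i else 0

/-- The list of the edges not at `r`. -/
noncomputable def lst (r : V) (a b : ι → V) (E : Finset ι) (w : ι → ℝ) : List (V × V × ℂ) :=
  (E.filter (fun i => ¬ (a i = r ∨ b i = r))).toList.map fun i => (a i, b i, (w i : ℂ))

lemma Z_eq (r : V) (a b : ι → V) (E : Finset ι) (w : ι → ℝ) :
    ((NX a b E w ∅ : ℝ) : ℂ) = Phi r (lst r a b E w) (fun v => ((X0 r a b E w v : ℝ) : ℂ)) := by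
  classical
  set ls := (E.filter (fun i => a i = r ∨ b i = r)).toList with hls
  set l' := (E.filter (fun i => ¬ (a i = r ∨ b i = r))).toList with hl'
  have hnd : (ls ++ l').Nodup := by
    rw [List.nodup_append']
    refine ⟨Finset.nodup_toList _, Finset.nodup_toList _, ?_⟩
    intro i hi hi'
    rw [hls, Finset.mem_toList, Finset.mem_filter] at hi
    rw [hl', Finset.mem_toList, Finset.mem_filter] at hi'
    exact hi'.2 hi.2
  have hE : (ls ++ l').toFinset = E := by
    rw [List.toFinset_append, hls, hl', Finset.toList_toFinset, Finset.toList_toFinset,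
      Finset.filter_union_filter_not_eq]
  have h := forest_sum r a b (fun i => (w i : ℂ)) (ls ++ l') hnd
  rw [hE] at h
  have h1 : ((NX a b E w ∅ : ℝ) : ℂ) =
      ∑ F ∈ E.powerset, (if IsF a b F then ∏ i ∈ F, (w i : ℂ) else 0) := by
    rw [NX_empty]
    push_cast
    refine Finset.sum_congr rfl fun F _ => ?_
    split_ifs <;> simp
  rw [h1, h, List.map_append, Phi_star r a b _ ls]
  · unfold lst
    congr 1
    funext v
    unfold X0
    rw [hls, Finset.sum_map_toList]
    push_cast
    congr 1
    refine Finset.sum_congr rfl fun i _ => ?_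
    split_ifs <;> simp
  · intro i hi
    rw [hls, Finset.mem_toList, Finset.mem_filter] at hi
    exact hi.2

lemma lst_update (r : V) (a b : ι → V) (E : Finset ι) (w : ι → ℝ) (e : ι)
    (he : a e = r ∨ b e = r) (t : ℝ) : lst r a b E (Function.update w e t) = lst r a b E w := by
  unfold lst
  apply List.map_congr_left
  intro i hi
  rw [Finset.mem_toList, Finset.mem_filter] at hi
  have : i ≠ e := fun h => hi.2 (h ▸ he)
  rw [Function.update_of_ne this]

lemma X0_update (r : V) (a b : ι → V) (E : Finset ι) (w : ι → ℝ) (e : ι) (heE : e ∈ E)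
    (he : a e = r ∨ b e = r) (ho : oth r a b e ≠ r) (t : ℝ) :
    X0 r a b E (Function.update w e t) =
      Function.update (X0 r a b E w) (oth r a b e) (X0 r a b E w (oth r a b e) + (t - w e)) := by
  funext v
  have hm : e ∈ E.filter (fun i => a i = r ∨ b i = r) := by simp [heE, he]
  unfold X0
  rw [← Finset.add_sum_erase _ _ hm]
  have h1 : ∑ i ∈ (E.filter (fun i => a i = r ∨ b i = r)).erase e,
      (if oth r a b i = v ∧ v ≠ r then Function.update w e t i else 0) =
      ∑ i ∈ (E.filter (fun i => a i = r ∨ b i = r)).erase e,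
      (if oth r a b i = v ∧ v ≠ r then w i else 0) := by
    refine Finset.sum_congr rfl fun i hi => ?_
    rw [Function.update_of_ne (Finset.ne_of_mem_erase hi)]
  rw [h1, Function.update_self]
  by_cases hv : v = oth r a b e
  · subst hv
    rw [Function.update_self, ← Finset.add_sum_erase _ _ hm]
    simp [ho]; ring
  · rw [Function.update_of_ne hv, ← Finset.add_sum_erase (E.filter (fun i => a i = r ∨ b i = r))
      (fun i => if oth r a b i = v ∧ v ≠ r then w i else 0) hm]
    simp [Ne.symm hv]

lemma ofReal_update' (x : V → ℝ) (v : V) (t : ℝ) :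
    (fun u => ((Function.update x v t u : ℝ) : ℂ)) = Function.update (fun u => (x u : ℂ)) v (t : ℂ) :=
  (ofReal_update x v t).symm

lemma NX_one (r : V) (a b : ι → V) (E : Finset ι) (w : ι → ℝ) (e : ι) (heE : e ∈ E)
    (he : a e = r ∨ b e = r) (ho : oth r a b e ≠ r) :
    ((NX a b E w {e} : ℝ) : ℂ) =
      pd (oth r a b e) (Phi r (lst r a b E w)) (fun v => ((X0 r a b E w v : ℝ) : ℂ)) := by
  have h0 : ({e} : Finset ι) = insert e ∅ := rfl
  rw [h0, NX_step a b E w ∅ e (by simp)]
  push_cast
  rw [Z_eq r, Z_eq r, lst_update r a b E w e he, lst_update r a b E w e he,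
    X0_update r a b E w e heE he ho, X0_update r a b E w e heE he ho,
    ofReal_update', ofReal_update', (MA_Phi r _).line, (MA_Phi r _).line]
  push_cast
  ring

lemma NX_two (r : V) (a b : ι → V) (E : Finset ι) (w : ι → ℝ) (e f : ι) (hef : e ≠ f)
    (heE : e ∈ E) (hfE : f ∈ E)
    (he : a e = r ∨ b e = r) (hf : a f = r ∨ b f = r) (hoe : oth r a b e ≠ r)
    (hof : oth r a b f ≠ r) :
    ((NX a b E w {e, f} : ℝ) : ℂ) =
      pd (oth r a b e) (pd (oth r a b f) (Phi r (lst r a b E w)))
        (fun v => ((X0 r a b E w v : ℝ) : ℂ)) := by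
  have h0 : ({e, f} : Finset ι) = insert e {f} := rfl
  rw [h0, NX_step a b E w {f} e (by simpa using hef)]
  push_cast
  rw [NX_one r a b E _ f hfE hf hof, NX_one r a b E _ f hfE hf hof,
    lst_update r a b E w e he, lst_update r a b E w e he,
    X0_update r a b E w e heE he hoe, X0_update r a b E w e heE he hoe,
    ofReal_update', ofReal_update', ((MA_Phi r _).pd _).line, ((MA_Phi r _).pd _).line]
  push_cast
  ring

lemma NX_loop (a b : ι → V) (E : Finset ι) (w : ι → ℝ) (X : Finset ι) (e : ι) (he : e ∈ X)
    (hab : a e = b e) : NX a b E w X = 0 := by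
  classical
  unfold NX
  rw [Finset.sum_filter]
  refine Finset.sum_eq_zero fun F _ => ?_
  rw [if_neg]
  rintro ⟨h1, h2⟩
  exact h2.1 e (h1 he) hab

lemma oth_ne (r : V) (a b : ι → V) (e : ι) (he : a e = r ∨ b e = r) (hab : a e ≠ b e) :
    oth r a b e ≠ r := by
  unfold oth
  split_ifs with h
  · intro h2; exact hab (h.trans h2.symm)
  · exact h

/-- **The edges of a star are strongly Rayleigh in the weighted forest measure.**
All the weights of edges not at `r` are nonnegative, the weights of the edges at `r` are
arbitrary real numbers. -/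
theorem star_rayleigh (r : V) (a b : ι → V) (E : Finset ι) (w : ι → ℝ)
    (hw : ∀ i ∈ E, a i ≠ r → b i ≠ r → 0 ≤ w i) (e f : ι) (heE : e ∈ E) (hfE : f ∈ E)
    (hef : e ≠ f) (he : a e = r ∨ b e = r) (hf : a f = r ∨ b f = r) :
    NX a b E w {e, f} * NX a b E w ∅ ≤ NX a b E w {e} * NX a b E w {f} := by
  by_cases hle : a e = b e
  · rw [NX_loop a b E w {e, f} e (by simp) hle, NX_loop a b E w {e} e (by simp) hle]; simp
  by_cases hlf : a f = b f
  · rw [NX_loop a b E w {e, f} f (by simp) hlf, NX_loop a b E w {f} f (by simp) hlf]; simp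
  have hoe := oth_ne r a b e he hle
  have hof := oth_ne r a b f hf hlf
  have h0 := Z_eq r a b E w
  have h1 := NX_one r a b E w e heE he hoe
  have h2 := NX_one r a b E w f hfE hf hof
  have h3 := NX_two r a b E w e f hef heE hfE he hf hoe hof
  have hNN : NN (lst r a b E w) := by
    intro x hx
    unfold lst at hx
    rw [List.mem_map] at hx
    obtain ⟨i, hi, rfl⟩ := hx
    rw [Finset.mem_toList, Finset.mem_filter, not_or] at hi
    exact ⟨w i, hw i hi.1 hi.2.1 hi.2.2, rfl⟩
  have g0 := congrArg Complex.re h0
  have g1 := congrArg Complex.re h1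
  have g2 := congrArg Complex.re h2
  have g3 := congrArg Complex.re h3
  simp only [Complex.ofReal_re] at g0 g1 g2 g3
  rw [g0, g1, g2, g3]
  by_cases hAC : oth r a b e = oth r a b f
  · rw [hAC, pd_self]
    simpa using mul_self_nonneg _
  · have := rayleigh_of_stab (MA_Phi r (lst r a b E w)) (Stab_Phi r _ hNN) (cont_Phi r _)
      (RealOn_Phi r _ hNN) hAC (X0 r a b E w)
    linarith [this]

end H990SF
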