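import Mathlib
import Pool.Agent.H990R2.SF.Star

/-!
Joint stability in the vertex variables and in the weights of two extra edges.
-/

set_option linter.unusedSectionVars false
set_option linter.unusedSimpArgs false

namespace H990SF

open Finset Matrix

variable {U : Type*} [Fintype U] [DecidableEq U]

/-! ### order of the edges -/

lemma D_swap (r : U) (e f : U × U × ℂ) (E : List (U × U × ℂ)) :
    D r (e :: f :: E) = D r (f :: e :: E) := by
  funext z
  unfold D
  rw [Lap, Lap, Lap, Lap, add_left_comm]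

lemma op_op (r : U) (e f : U × U × ℂ) (g : (U → ℂ) → ℂ) :
    op r e (op r f g) = op r f (op r e g) := by
  by_cases he : e.1 = r ∨ e.2.1 = r
  · simp [op, he]
  · by_cases hf : f.1 = r ∨ f.2.1 = r
    · simp [op, hf]
    · unfold op
      simp only [he, hf, if_false]
      rw [pd_sub_smul, pd_sub_smul, pd_sub_smul, pd_sub_smul]
      have h : pd e.1 (pd e.2.1 (pd f.1 (pd f.2.1 g))) = pd f.1 (pd f.2.1 (pd e.1 (pd e.2.1 g))) := by
        rw [pd_comm e.2.1 f.1, pd_comm e.2.1 f.2.1, pd_comm e.1 f.1, pd_comm e.1 f.2.1]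
      rw [h]
      funext z
      simp only
      ring

lemma Phi_swap (r : U) (e f : U × U × ℂ) (E : List (U × U × ℂ)) :
    Phi r (e :: f :: E) = Phi r (f :: e :: E) := by
  unfold Phi
  rw [ops_cons, ops_cons, ops_cons, ops_cons, D_swap, op_op]

lemma D_cons_zero (r : U) (x y : U) (E : List (U × U × ℂ)) : D r ((x, y, 0) :: E) = D r E := by
  funext z
  simp [D, Lap]

/-! ### nonnegativity of `Phi` at the all-ones vector -/

lemma NN_rel (m : U → U) (E : List (U × U × ℂ)) (hE : NN E) : NN (rel m E) := by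
  intro e he
  unfold rel at he
  rw [List.mem_map] at he
  obtain ⟨e', he', rfl⟩ := he
  exact hE e' he'

lemma NN_tail (e : U × U × ℂ) (E : List (U × U × ℂ)) (hE : NN (e :: E)) : NN E :=
  fun x hx => hE x (List.mem_cons_of_mem _ hx)

lemma Phi_nonneg (r : U) : ∀ (n : ℕ) (E : List (U × U × ℂ)), E.length = n → NN E →
    ∃ t : ℝ, 0 ≤ t ∧ Phi r E 1 = t := by
  intro n
  induction n with
  | zero =>
    intro E hn _
    rw [List.length_eq_zero_iff] at hn
    subst hn
    exact ⟨1, zero_le_one, by rw [Phi_nil]; simp⟩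
  | succ n ih =>
    intro E hn hE
    cases E with
    | nil => simp at hn
    | cons e E =>
      obtain ⟨x, y, w⟩ := e
      have hn' : E.length = n := by simpa using hn
      have hE' := NN_tail _ _ hE
      obtain ⟨t, ht, htE⟩ := ih E hn' hE'
      obtain ⟨w', hw', hww⟩ := hE (x, y, w) List.mem_cons_self
      simp only at hww
      by_cases hxy : x = y
      · subst hxy
        exact ⟨t, ht, by rw [Phi_cons_same]; exact htE⟩
      · obtain ⟨t', ht', htE'⟩ := ih (rel (mgr r x y) E) (by simpa [rel] using hn')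
          (NN_rel _ _ hE')
        refine ⟨t + w' * t', add_nonneg ht (mul_nonneg hw' ht'), ?_⟩
        rw [Phi_cons r x y hxy, htE, htE', hww]
        push_cast
        ring

/-! ### the operators on functions of vertex variables and two extra variables -/

/-- `∏ (1 - w ∂ ∂)` acting on the vertex variables only. -/
def opsW (r : U) (E : List (U × U × ℂ)) (F : (U ⊕ Fin 2 → ℂ) → ℂ) : (U ⊕ Fin 2 → ℂ) → ℂ :=
  E.foldr (fun e F => if e.1 = r ∨ e.2.1 = r then F else
    fun q => F q - e.2.2 * pd (Sum.inl e.1) (pd (Sum.inl e.2.1) F) q) F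

lemma opsW_cons (r : U) (e : U × U × ℂ) (E : List (U × U × ℂ)) (F : (U ⊕ Fin 2 → ℂ) → ℂ) :
    opsW r (e :: E) F = if e.1 = r ∨ e.2.1 = r then opsW r E F else
    fun q => opsW r E F q - e.2.2 * pd (Sum.inl e.1) (pd (Sum.inl e.2.1) (opsW r E F)) q := rfl

lemma MA_opsW (r : U) (E : List (U × U × ℂ)) {F : (U ⊕ Fin 2 → ℂ) → ℂ} (hF : MA F) :
    MA (opsW r E F) := by
  induction E with
  | nil => exact hF
  | cons e E ih =>
    rw [opsW_cons]
    split_ifs
    · exact ih
    · exact ih.sub_smul ((ih.pd _).pd _) _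

lemma Stab_opsW (r : U) (E : List (U × U × ℂ)) (hE : NN E) {F : (U ⊕ Fin 2 → ℂ) → ℂ}
    (hF : MA F) (hs : Stab F) : Stab (opsW r E F) := by
  induction E with
  | nil => exact hs
  | cons e E ih =>
    have ih' := ih (NN_tail _ _ hE)
    obtain ⟨w, hw, hwe⟩ := hE e List.mem_cons_self
    rw [opsW_cons]
    split_ifs with h
    · exact ih'
    · by_cases hxy : e.1 = e.2.1
      · rw [hxy, pd_self]
        simpa using ih'
      · rw [hwe]
        exact Stab.op (MA_opsW r E hF) ih' (fun h => hxy (Sum.inl_injective h)) hw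

lemma RealOn_opsW (r : U) (E : List (U × U × ℂ)) (hE : NN E) {F : (U ⊕ Fin 2 → ℂ) → ℂ}
    (hs : RealOn F) : RealOn (opsW r E F) := by
  induction E with
  | nil => exact hs
  | cons e E ih =>
    have ih' := ih (NN_tail _ _ hE)
    obtain ⟨w, hw, hwe⟩ := hE e List.mem_cons_self
    rw [opsW_cons]
    split_ifs with h
    · exact ih'
    · rw [hwe]
      exact RealOn.sub_smul ih' ((ih'.pd _).pd _) w

lemma cont_opsW (r : U) (E : List (U × U × ℂ)) {F : (U ⊕ Fin 2 → ℂ) → ℂ}
    (hs : Continuous F) : Continuous (opsW r E F) := by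
  induction E with
  | nil => exact hs
  | cons e E ih =>
    rw [opsW_cons]
    split_ifs with h
    · exact ih
    · exact ih.sub (continuous_const.mul (cont_pd (cont_pd ih _) _))

lemma elim_update_inl (z : U → ℂ) (y : Fin 2 → ℂ) (i : U) (t : ℂ) :
    Function.update (Sum.elim z y) (Sum.inl i) t = Sum.elim (Function.update z i t) y := by
  funext k
  cases k with
  | inl j =>
    by_cases h : j = i
    · subst h; simp
    · simp [Function.update_of_ne h, Function.update_of_ne (fun hh => h (Sum.inl_injective hh))]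
  | inr j => simp

lemma elim_update_inr (z : U → ℂ) (y : Fin 2 → ℂ) (i : Fin 2) (t : ℂ) :
    Function.update (Sum.elim z y) (Sum.inr i) t = Sum.elim z (Function.update y i t) := by
  funext k
  cases k with
  | inl j => simp
  | inr j =>
    by_cases h : j = i
    · subst h; simp
    · simp [Function.update_of_ne h, Function.update_of_ne (fun hh => h (Sum.inr_injective hh))]

lemma pd_inl (i : U) (F : (U ⊕ Fin 2 → ℂ) → ℂ) (z : U → ℂ) (y : Fin 2 → ℂ) :
    pd (Sum.inl i) F (Sum.elim z y) = pd i (fun z => F (Sum.elim z y)) z := by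
  simp only [pd, elim_update_inl]

lemma opsW_elim (r : U) (E : List (U × U × ℂ)) (F : (U ⊕ Fin 2 → ℂ) → ℂ) (y : Fin 2 → ℂ) :
    ∀ z : U → ℂ, opsW r E F (Sum.elim z y) = ops r E (fun z => F (Sum.elim z y)) z := by
  induction E with
  | nil => intro z; rfl
  | cons e E ih =>
    intro z
    rw [opsW_cons, ops_cons]
    unfold op
    split_ifs with h
    · exact ih z
    · simp only
      rw [ih z, pd_inl]
      congr 2
      have h1 : (fun z => pd (Sum.inl e.2.1) (opsW r E F) (Sum.elim z y)) =
          pd e.2.1 (ops r E fun z => F (Sum.elim z y)) := by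
        funext z'
        rw [pd_inl]
        congr 1
        funext z''
        exact ih z''
      rw [h1]

/-- The determinant with two extra edges whose weights are variables. -/
def DW (r a b c d : U) (E : List (U × U × ℂ)) (q : U ⊕ Fin 2 → ℂ) : ℂ :=
  D r ((a, b, q (Sum.inr 0)) :: (c, d, q (Sum.inr 1)) :: E) (fun i => q (Sum.inl i))

lemma D_affine (r x y : U) (hxy : x ≠ y) (hx : x ≠ r) (hy : y ≠ r) (w : ℂ)
    (E : List (U × U × ℂ)) (z : U → ℂ) :
    D r ((x, y, w) :: E) z = D r ((x, y, 0) :: E) z +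
      w * (D r ((x, y, 1) :: E) z - D r ((x, y, 0) :: E) z) := by
  rw [D_cons_merge r x y hxy hx hy w, D_cons_merge r x y hxy hx hy 1,
    D_cons_merge r x y hxy hx hy 0]
  ring

variable {r a b c d : U}

lemma MA_DW (hab : a ≠ b) (har : a ≠ r) (hbr : b ≠ r) (hcd : c ≠ d) (hcr : c ≠ r) (hdr : d ≠ r)
    (E : List (U × U × ℂ)) : MA (DW r a b c d E) := by
  intro q i t
  cases i with
  | inl i =>
    have h1 : ∀ s : ℂ, DW r a b c d E (Function.update q (Sum.inl i) s) =
        D r ((a, b, q (Sum.inr 0)) :: (c, d, q (Sum.inr 1)) :: E)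
          (Function.update (fun i => q (Sum.inl i)) i s) := by
      intro s
      unfold DW
      have h2 : (fun j => Function.update q (Sum.inl i) s (Sum.inl j)) =
          Function.update (fun i => q (Sum.inl i)) i s := by
        funext j
        by_cases h : j = i
        · subst h; simp
        · simp [Function.update_of_ne h,
            Function.update_of_ne (fun hh => h (Sum.inl_injective hh))]
      rw [h2]
      simp
    rw [h1, h1, h1]
    exact MA_D r _ _ i t
  | inr j =>
    have h2 : ∀ s : ℂ, (fun i => Function.update q (Sum.inr j) s (Sum.inl i)) =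
        fun i => q (Sum.inl i) := by
      intro s; funext i; simp
    unfold DW
    rw [h2, h2, h2]
    fin_cases j
    · simp only [Fin.zero_eta, Fin.isValue, Function.update_self]
      have h3 : ∀ s : ℂ, Function.update q (Sum.inr (0 : Fin 2)) s (Sum.inr 1) = q (Sum.inr 1) := by
        intro s; rw [Function.update_of_ne]; simp
      rw [h3, h3, h3]
      exact D_affine r a b hab har hbr t _ _
    · simp only [Fin.mk_one, Fin.isValue, Function.update_self]
      have h3 : ∀ s : ℂ, Function.update q (Sum.inr (1 : Fin 2)) s (Sum.inr 0) = q (Sum.inr 0) := by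
        intro s; rw [Function.update_of_ne]; simp
      rw [h3, h3, h3, D_swap r _ (c, d, t), D_swap r _ (c, d, 0), D_swap r _ (c, d, 1)]
      exact D_affine r c d hcd hcr hdr t _ _

lemma form_rank_one (x y : U) (w : ℂ) (v : U → ℂ) :
    (star v ⬝ᵥ ((w • vecMulVec (nu r x y) (nu r x y)) *ᵥ v)).im =
      w.im * Complex.normSq (nu r x y ⬝ᵥ v) := by
  rw [Matrix.smul_mulVec, dotProduct_smul]
  have h1 : star v ⬝ᵥ (vecMulVec (nu r x y) (nu r x y) *ᵥ v) =
      (starRingEnd ℂ) (nu r x y ⬝ᵥ v) * (nu r x y ⬝ᵥ v) := by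
    rw [Matrix.vecMulVec_mulVec]
    simp only [dotProduct, map_sum, map_mul, nu_real, Pi.star_apply, Pi.smul_apply]
    rw [Finset.sum_mul]
    refine Finset.sum_congr rfl fun i _ => ?_
    simp [MulOpposite.smul_eq_mul_unop]
    ring
  rw [h1, mul_comm ((starRingEnd ℂ) _), Complex.mul_conj, smul_eq_mul, Complex.im_mul_ofReal]

lemma Stab_DW (E : List (U × U × ℂ)) (hE : NN E) : Stab (DW r a b c d E) := by
  intro q hq h0
  unfold DW D at h0
  obtain ⟨v, hv, hMv⟩ := Matrix.exists_mulVec_eq_zero_iff.2 h0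
  have h1 : (star v ⬝ᵥ ((Lap r ((a, b, q (Sum.inr 0)) :: (c, d, q (Sum.inr 1)) :: E) +
      diagonal (fun i => q (Sum.inl i))) *ᵥ v)).im = 0 := by
    rw [hMv]; simp
  rw [Lap, Lap, Matrix.add_mulVec, Matrix.add_mulVec, Matrix.add_mulVec, dotProduct_add,
    dotProduct_add, dotProduct_add, Complex.add_im, Complex.add_im, Complex.add_im,
    Lap_form r E hE, form_rank_one, form_rank_one] at h1
  have h2 : (star v ⬝ᵥ (diagonal (fun i => q (Sum.inl i)) *ᵥ v)).im =
      ∑ i, (q (Sum.inl i)).im * Complex.normSq (v i) := by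
    simp only [dotProduct, Matrix.mulVec_diagonal, Complex.im_sum]
    refine Finset.sum_congr rfl fun i _ => ?_
    simp only [Pi.star_apply, Complex.star_def]
    have : (starRingEnd ℂ) (v i) * (q (Sum.inl i) * v i) =
        q (Sum.inl i) * (v i * (starRingEnd ℂ) (v i)) := by ring
    rw [this, Complex.mul_conj, Complex.im_mul_ofReal]
  rw [h2] at h1
  obtain ⟨i, hi⟩ : ∃ i, v i ≠ 0 := by
    by_contra h
    push Not at h
    exact hv (funext h)
  have h3 : 0 < ∑ i, (q (Sum.inl i)).im * Complex.normSq (v i) :=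
    Finset.sum_pos' (fun j _ => mul_nonneg (hq _).le (Complex.normSq_nonneg _))
      ⟨i, Finset.mem_univ _, mul_pos (hq _) (Complex.normSq_pos.2 hi)⟩
  have h4 := mul_nonneg (hq (Sum.inr 0)).le (Complex.normSq_nonneg (nu r a b ⬝ᵥ v))
  have h5 := mul_nonneg (hq (Sum.inr 1)).le (Complex.normSq_nonneg (nu r c d ⬝ᵥ v))
  simp only [add_zero, zero_add] at h1
  linarith

lemma RealOn_DW (E : List (U × U × ℂ)) (hE : NN E) : RealOn (DW r a b c d E) := by
  intro x
  rw [← Complex.conj_eq_iff_im]
  unfold DW D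
  rw [RingHom.map_det]
  congr 1
  ext i j
  simp only [RingHom.mapMatrix_apply, Matrix.map_apply, Matrix.add_apply, map_add, Lap,
    Lap_real r E hE, Matrix.diagonal_apply, Matrix.smul_apply, Matrix.vecMulVec_apply,
    smul_eq_mul, map_mul, nu_real, Complex.conj_ofReal]
  congr 1
  split_ifs <;> simp

lemma cont_DW (E : List (U × U × ℂ)) : Continuous (DW r a b c d E) := by
  unfold DW D
  apply Continuous.matrix_det
  simp only [Lap]
  refine Continuous.add (Continuous.add ?_ (Continuous.add ?_ continuous_const)) ?_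
  · exact (continuous_apply _).smul continuous_const
  · exact (continuous_apply _).smul continuous_const
  · exact Continuous.matrix_diagonal (continuous_pi fun i => continuous_apply _)

/-! ### the value of the polynomial -/

lemma ops_two (hab : a ≠ b) (har : a ≠ r) (hbr : b ≠ r) (hcd : c ≠ d) (hcr : c ≠ r) (hdr : d ≠ r)
    (hm : mg a b c ≠ mg a b d) (E : List (U × U × ℂ)) (s t : ℂ) (z : U → ℂ) :
    ops r E (D r ((a, b, s) :: (c, d, t) :: E)) z =
      Phi r E z + t * Phi r (rel (mg c d) E) (S c d z) + s * Phi r (rel (mg a b) E) (S a b z)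
      + s * t * Phi r (rel (mg (mg a b c) (mg a b d)) (rel (mg a b) E))
          (S (mg a b c) (mg a b d) (S a b z)) := by
  have hm1 : mg a b c ≠ r := fun h => hcr ((mg_eq_root_iff r a b har hbr c).1 h)
  have hm2 : mg a b d ≠ r := fun h => hdr ((mg_eq_root_iff r a b har hbr d).1 h)
  have h1 : D r ((a, b, s) :: (c, d, t) :: E) = fun z =>
      (fun z => D r E z + t * D r (rel (mg c d) E) (S c d z)) z + s *
      (fun z => (fun z => D r (rel (mg a b) E) z + t *
        D r (rel (mg (mg a b c) (mg a b d)) (rel (mg a b) E))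
          (S (mg a b c) (mg a b d) z)) (S a b z)) z := by
    funext z
    rw [D_cons_merge r a b hab har hbr, D_cons_merge r c d hcd hcr hdr, rel_cons]
    simp only
    rw [D_cons_merge r _ _ hm hm1 hm2]
  have hMA : MA (fun z => D r (rel (mg a b) E) z + t *
        D r (rel (mg (mg a b c) (mg a b d)) (rel (mg a b) E))
          (S (mg a b c) (mg a b d) z)) := by
    have : (fun z => D r (rel (mg a b) E) z + t *
        D r (rel (mg (mg a b c) (mg a b d)) (rel (mg a b) E))
          (S (mg a b c) (mg a b d) z)) =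
        D r ((mg a b c, mg a b d, t) :: rel (mg a b) E) := by
      funext z
      rw [D_cons_merge r _ _ hm hm1 hm2]
    rw [this]; exact MA_D _ _
  rw [h1, ops_add_smul, ops_add_smul, ops_comp_S r c d hcd hcr hdr E (MA_D _ _),
    ops_comp_S r a b hab har hbr E hMA, ops_add_smul,
    ops_comp_S r _ _ hm hm1 hm2 (rel (mg a b) E) (MA_D _ _)]
  simp only [Phi]
  ring

/-- The negative correlation inequality of the joint polynomial at the all-ones vector. -/
theorem hat_rayleigh (hab : a ≠ b) (har : a ≠ r) (hbr : b ≠ r) (hcd : c ≠ d) (hcr : c ≠ r)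
    (hdr : d ≠ r) (hm : mg a b c ≠ mg a b d) (E : List (U × U × ℂ)) (hE : NN E) :
    (Phi r E 1).re * (Phi r (rel (mg (mg a b c) (mg a b d)) (rel (mg a b) E))
          (S (mg a b c) (mg a b d) (S a b 1))).re ≤
      (Phi r (rel (mg a b) E) (S a b 1)).re * (Phi r (rel (mg c d) E) (S c d 1)).re := by
  have hMA := MA_opsW r E (MA_DW hab har hbr hcd hcr hdr E)
  have hS := Stab_opsW r E hE (MA_DW hab har hbr hcd hcr hdr E)
    (Stab_DW (r := r) (a := a) (b := b) (c := c) (d := d) E hE)
  have hR := RealOn_opsW r E hE (RealOn_DW (r := r) (a := a) (b := b) (c := c) (d := d) E hE)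
  have hC := cont_opsW r E (cont_DW (r := r) (a := a) (b := b) (c := c) (d := d) E)
  have h := rayleigh_of_stab hMA hS hC hR (a := Sum.inr 0) (c := Sum.inr 1) (by simp)
    (Sum.elim (fun _ => 1) (fun _ => 0))
  have hX : (fun i => ((Sum.elim (fun _ => (1:ℝ)) (fun _ => (0:ℝ)) : U ⊕ Fin 2 → ℝ) i : ℂ)) =
      Sum.elim (1 : U → ℂ) (fun _ => 0) := by
    funext i
    cases i <;> simp
  rw [hX] at h
  have hval : ∀ y : Fin 2 → ℂ, opsW r E (DW r a b c d E) (Sum.elim 1 y) =
      Phi r E 1 + y 1 * Phi r (rel (mg c d) E) (S c d 1) +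
      y 0 * Phi r (rel (mg a b) E) (S a b 1)
      + y 0 * y 1 * Phi r (rel (mg (mg a b c) (mg a b d)) (rel (mg a b) E))
          (S (mg a b c) (mg a b d) (S a b 1)) := by
    intro y
    rw [opsW_elim]
    have : (fun z => DW r a b c d E (Sum.elim z y)) =
        D r ((a, b, y 0) :: (c, d, y 1) :: E) := by
      funext z; simp [DW]
    rw [this, ops_two hab har hbr hcd hcr hdr hm]
  simp only [pd, elim_update_inr, hval] at h
  simp only [Function.update_self, Fin.isValue, ne_eq, one_ne_zero, not_false_eq_true,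
    Function.update_of_ne, zero_ne_one] at h
  simp only [one_mul, zero_mul, add_zero, mul_one, mul_zero, add_sub_cancel_left, sub_zero] at h
  ring_nf at h ⊢
  linarith

end H990SF
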