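import Mathlib
import Pool.Agent.H990R2.SF.Hat

/-!
`3 P(e, f) ≤ 4 P(e) P(f)` for every two edges in every weighted random forest.
-/

set_option linter.unusedSectionVars false
set_option linter.unusedSimpArgs false

namespace H990SF

open Finset

/-! ### labelled forest sums with an arbitrary label type -/

section lab

variable {U V ι : Type*} [Fintype U] [DecidableEq U] [DecidableEq ι]

lemma rel_map' (m : U → U) (c : V → U) (a b : ι → V) (w : ι → ℂ) (l : List ι) :
    rel m (l.map fun i => (c (a i), c (b i), w i)) =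
      l.map fun i => ((m ∘ c) (a i), (m ∘ c) (b i), w i) := by
  simp [rel, Function.comp_def]

/-- `c` labels the connected components of the graph spanned by `P`. -/
def Ker (a b : ι → V) (P : Finset ι) (c : V → U) : Prop :=
  ∀ u v, c u = c v ↔ (gr a b P).Reachable u v

lemma Ker_insert (r : U) (a b : ι → V) (P : Finset ι) (c : V → U) (hc : Ker a b P c) (i : ι) :
    Ker a b (insert i P) (mgr r (c (a i)) (c (b i)) ∘ c) := by
  intro u v
  rw [Function.comp_apply, Function.comp_apply, mgr_eq_iff, gr_insert, reach_sup_edge,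
    hc, hc, hc, hc, hc]
  constructor
  · rintro (h | ⟨h1, h2⟩ | ⟨h1, h2⟩)
    · exact Or.inl h
    · exact Or.inr (Or.inl ⟨h1, h2.symm⟩)
    · exact Or.inr (Or.inr ⟨h1, h2.symm⟩)
  · rintro (h | ⟨h1, h2⟩ | ⟨h1, h2⟩)
    · exact Or.inl h
    · exact Or.inr (Or.inl ⟨h1, h2.symm⟩)
    · exact Or.inr (Or.inr ⟨h1, h2.symm⟩)

lemma Ker_insert' (a b : ι → V) (P : Finset ι) (c : V → U) (hc : Ker a b P c) (i : ι) :
    Ker a b (insert i P) (mg (c (a i)) (c (b i)) ∘ c) := by
  intro u v
  rw [Function.comp_apply, Function.comp_apply, mg_eq_iff, gr_insert, reach_sup_edge,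
    hc, hc, hc, hc, hc]
  constructor
  · rintro (h | ⟨h1, h2⟩ | ⟨h1, h2⟩)
    · exact Or.inl h
    · exact Or.inr (Or.inl ⟨h1, h2.symm⟩)
    · exact Or.inr (Or.inr ⟨h1, h2.symm⟩)
  · rintro (h | ⟨h1, h2⟩ | ⟨h1, h2⟩)
    · exact Or.inl h
    · exact Or.inr (Or.inl ⟨h1, h2.symm⟩)
    · exact Or.inr (Or.inr ⟨h1, h2.symm⟩)

lemma Ker_root (r x : U) (a b : ι → V) (P : Finset ι) (c : V → U) (hc : Ker a b P c)
    (hr : ∀ v, c v ≠ r) : Ker a b P (mg r x ∘ c) := by
  intro u v
  rw [Function.comp_apply, Function.comp_apply, mg_eq_iff, hc u v]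
  constructor
  · rintro (h | ⟨h, -⟩ | ⟨-, h⟩)
    · exact h
    · exact absurd h (hr _)
    · exact absurd h (hr _)
  · intro h; exact Or.inl h

open Classical in
theorem forest_sum_lab (r : U) (a b : ι → V) (w : ι → ℂ) (l : List ι) :
    ∀ (P : Finset ι) (c : V → U), l.Nodup → (∀ i ∈ l, i ∉ P) → IsF a b P →
      Ker a b P c →
      ∑ F ∈ l.toFinset.powerset, (if IsF a b (P ∪ F) then ∏ i ∈ F, w i else 0) =
        Phi r (l.map fun i => (c (a i), c (b i), w i)) 1 := by
  induction l with
  | nil =>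
    intro P c _ _ hP _
    simp [hP, Phi_nil]
  | cons i l ih =>
    intro P c hnd hdis hP hc
    rw [List.nodup_cons] at hnd
    have hil : i ∉ l.toFinset := by simpa using hnd.1
    have hiP : i ∉ P := hdis i List.mem_cons_self
    rw [List.toFinset_cons, Finset.sum_powerset_insert hil, List.map_cons]
    rw [ih P c hnd.2 (fun j hj => hdis j (List.mem_cons_of_mem _ hj)) hP hc]
    by_cases hcc : c (a i) = c (b i)
    · rw [hcc, Phi_cons_same]
      rw [Finset.sum_eq_zero, add_zero]
      intro F hF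
      rw [if_neg]
      intro hbad
      have h2 : IsF a b (insert i P) := IsF_mono a b (by
        intro j hj
        rcases Finset.mem_insert.1 hj with rfl | hj
        · simp
        · simp [hj]) hbad
      exact not_reach_of_IsF_insert a b hiP h2 ((hc _ _).1 hcc)
    · rw [Phi_cons r _ _ hcc, rel_map']
      congr 1
      have hnr : ¬ (gr a b P).Reachable (a i) (b i) := fun h => hcc ((hc _ _).2 h)
      rw [← ih (insert i P) (mgr r (c (a i)) (c (b i)) ∘ c) hnd.2 (by
        intro j hj
        rw [Finset.mem_insert, not_or]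
        exact ⟨fun h => hnd.1 (h ▸ hj), hdis j (List.mem_cons_of_mem _ hj)⟩)
        (IsF_insert a b hP hnr) (Ker_insert r a b P c hc i)]
      rw [Finset.mul_sum]
      refine Finset.sum_congr rfl fun F hF => ?_
      have hiF : i ∉ F := fun h => hil (Finset.mem_powerset.1 hF h)
      have e1 : P ∪ insert i F = insert i P ∪ F := by
        ext j; simp
      rw [e1, Finset.prod_insert hiF]
      split_ifs <;> simp

open Classical in
lemma NX_eq (a b : ι → V) (E : Finset ι) (w : ι → ℝ) (P : Finset ι) (hP : P ⊆ E) :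
    NX a b E w P =
      ∑ F ∈ (E \ P).powerset, (if IsF a b (P ∪ F) then ∏ i ∈ F, w i else 0) := by
  unfold NX
  rw [← Finset.sum_filter]
  refine Finset.sum_nbij' (fun F => F \ P) (fun F => P ∪ F) ?_ ?_ ?_ ?_ ?_
  · intro F hF
    rw [Finset.mem_filter, Finset.mem_powerset] at hF ⊢
    refine ⟨Finset.sdiff_subset_sdiff hF.1 (le_refl _), ?_⟩
    rw [Finset.union_sdiff_of_subset hF.2.1]
    exact hF.2.2
  · intro F hF
    rw [Finset.mem_filter, Finset.mem_powerset] at hF ⊢
    exact ⟨Finset.union_subset hP (hF.1.trans Finset.sdiff_subset), Finset.subset_union_left,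
      hF.2⟩
  · intro F hF
    rw [Finset.mem_filter, Finset.mem_powerset] at hF
    exact Finset.union_sdiff_of_subset hF.2.1
  · intro F hF
    rw [Finset.mem_filter, Finset.mem_powerset] at hF
    ext j
    simp only [Finset.mem_sdiff, Finset.mem_union]
    constructor
    · rintro ⟨h1 | h1, h2⟩
      · exact absurd h1 h2
      · exact h1
    · intro h
      exact ⟨Or.inr h, (Finset.mem_sdiff.1 (hF.1 h)).2⟩
  · intro F _; rfl

/-- labelled forest sums in terms of `NX` -/
lemma NX_lab (r : U) (a b : ι → V) (E : Finset ι) (w : ι → ℝ) (P : Finset ι) (hP : P ⊆ E)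
    (hF : IsF a b P) (c : V → U) (hc : Ker a b P c) (l : List ι) (hl : l.Nodup)
    (hlE : l.toFinset = E \ P) :
    ((NX a b E w P : ℝ) : ℂ) = Phi r (l.map fun i => (c (a i), c (b i), (w i : ℂ))) 1 := by
  classical
  rw [← forest_sum_lab r a b (fun i => (w i : ℂ)) l P c hl (by
    intro i hi
    have : i ∈ l.toFinset := List.mem_toFinset.2 hi
    rw [hlE] at this
    exact (Finset.mem_sdiff.1 this).2) hF hc, hlE, NX_eq a b E w P hP]
  push_cast
  refine Finset.sum_congr rfl fun F _ => ?_
  split_ifs <;> simp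

/-- The labelled list of edges. -/
def ll (a b : ι → V) (w : ι → ℝ) (c : V → U) (l : List ι) : List (U × U × ℂ) :=
  l.map fun i => (c (a i), c (b i), (w i : ℂ))

lemma ll_cons (a b : ι → V) (w : ι → ℝ) (c : V → U) (i : ι) (l : List ι) :
    ll a b w c (i :: l) = (c (a i), c (b i), (w i : ℂ)) :: ll a b w c l := rfl

lemma rel_ll (m : U → U) (a b : ι → V) (w : ι → ℝ) (c : V → U) (l : List ι) :
    rel m (ll a b w c l) = ll a b w (m ∘ c) l := by
  unfold ll
  exact rel_map' m c a b (fun i => (w i : ℂ)) l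

lemma Phi_loop (r : U) (a b : ι → V) (w : ι → ℝ) (c : V → U) (i : ι) (l : List ι)
    (h : c (a i) = c (b i)) : Phi r (ll a b w c (i :: l)) = Phi r (ll a b w c l) := by
  rw [ll_cons, h, Phi_cons_same]

lemma NN_ll (a b : ι → V) (w : ι → ℝ) (c : V → U) (l : List ι) (hw : ∀ i ∈ l, 0 ≤ w i) :
    NN (ll a b w c l) := by
  intro x hx
  unfold ll at hx
  rw [List.mem_map] at hx
  obtain ⟨i, hi, rfl⟩ := hx
  exact ⟨w i, hw i hi, rfl⟩

lemma Ker_mem (a b : ι → V) (P : Finset ι) (c : V → U) (hc : Ker a b P c) (i : ι) (hi : i ∈ P) :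
    c (a i) = c (b i) := by
  rw [hc]
  by_cases h : a i = b i
  · rw [h]
  · apply SimpleGraph.Adj.reachable
    unfold gr
    rw [SimpleGraph.fromEdgeSet_adj]
    exact ⟨⟨i, hi, rfl⟩, h⟩

end lab

lemma S_one {U : Type*} [DecidableEq U] (x y : U) (hxy : x ≠ y) (z : U → ℂ) (hx : z x = 1)
    (hy : z y = 1) : S x y z = tau x 1 z := by
  funext k
  unfold S tau
  by_cases hk : k = y
  · subst hk; simp [Ne.symm hxy, hy]
  · by_cases hkx : k = x
    · subst hkx; simp [hk, hx, hy]
    · simp [hk, hkx]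

section main

variable {V ι : Type*} [Fintype V] [DecidableEq V] [DecidableEq ι]

theorem four_thirds_disjoint (a b : ι → V) (E : Finset ι) (w : ι → ℝ)
    (hw : ∀ i ∈ E, 0 ≤ w i) (e f : ι) (heE : e ∈ E) (hfE : f ∈ E) (hef : e ≠ f)
    (he : a e ≠ b e) (hf : a f ≠ b f) (h1 : a f ≠ a e) (h2 : a f ≠ b e) (h3 : b f ≠ a e)
    (h4 : b f ≠ b e) :
    3 * (NX a b E w {e, f} * NX a b E w ∅) ≤ 4 * (NX a b E w {e} * NX a b E w {f}) := by
  classical
  set A : Option V := some (a e) with hA
  set B : Option V := some (b e) with hB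
  set C : Option V := some (a f) with hC
  set Dd : Option V := some (b f) with hDd
  have hAB : A ≠ B := by simp [hA, hB, he]
  have hCD : C ≠ Dd := by simp [hC, hDd, hf]
  have hCA : C ≠ A := by simp [hC, hA, h1]
  have hCB : C ≠ B := by simp [hC, hB, h2]
  have hDA : Dd ≠ A := by simp [hDd, hA, h3]
  have hDB : Dd ≠ B := by simp [hDd, hB, h4]
  have hAr : A ≠ none := by simp [hA]
  have hBr : B ≠ none := by simp [hB]
  have hCr : C ≠ none := by simp [hC]
  have hDr : Dd ≠ none := by simp [hDd]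
  have hmC : mg A B C = C := by simp [mg, hCB]
  have hmD : mg A B Dd = Dd := by simp [mg, hDB]
  set l0 : List ι := (E \ {e, f}).toList with hl0
  have hl0nd : l0.Nodup := Finset.nodup_toList _
  have he0 : e ∉ l0 := by simp [hl0]
  have hf0 : f ∉ l0 := by simp [hl0]
  have hnd2 : (e :: f :: l0).Nodup := by
    rw [List.nodup_cons, List.nodup_cons]
    exact ⟨by simp [hef, he0], hf0, hl0nd⟩
  have hl0F : l0.toFinset = E \ {e, f} := by simp [hl0]
  have hall : (e :: f :: l0).toFinset = E \ ∅ := by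
    rw [List.toFinset_cons, List.toFinset_cons, hl0F]
    ext j
    simp only [Finset.mem_insert, Finset.mem_sdiff, Finset.mem_singleton, Finset.notMem_empty,
      not_false_eq_true, and_true, not_or]
    constructor
    · rintro (rfl | rfl | ⟨h, -⟩)
      · exact heE
      · exact hfE
      · exact h
    · intro hj
      by_cases hje : j = e
      · exact Or.inl hje
      · by_cases hjf : j = f
        · exact Or.inr (Or.inl hjf)
        · exact Or.inr (Or.inr ⟨hj, hje, hjf⟩)
  have hfl : (f :: l0).toFinset = E \ {e} := by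
    rw [List.toFinset_cons, hl0F]
    ext j
    simp only [Finset.mem_insert, Finset.mem_sdiff, Finset.mem_singleton, not_or]
    constructor
    · rintro (rfl | ⟨h, h', -⟩)
      · exact ⟨hfE, Ne.symm hef⟩
      · exact ⟨h, h'⟩
    · rintro ⟨hj, hje⟩
      by_cases hjf : j = f
      · exact Or.inl hjf
      · exact Or.inr ⟨hj, hje, hjf⟩
  have hel : (e :: l0).toFinset = E \ {f} := by
    rw [List.toFinset_cons, hl0F]
    ext j
    simp only [Finset.mem_insert, Finset.mem_sdiff, Finset.mem_singleton, not_or]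
    constructor
    · rintro (rfl | ⟨h, -, h'⟩)
      · exact ⟨heE, hef⟩
      · exact ⟨h, h'⟩
    · rintro ⟨hj, hjf⟩
      by_cases hje : j = e
      · exact Or.inl hje
      · exact Or.inr ⟨hj, hje, hjf⟩
  have hgr0 : gr a b (∅ : Finset ι) = ⊥ := by simp [gr]
  have hIs0 : IsF a b (∅ : Finset ι) := by
    refine ⟨by simp, by simp, ?_⟩
    rw [hgr0]; exact SimpleGraph.isAcyclic_bot
  have hK0 : Ker a b (∅ : Finset ι) (some : V → Option V) := by
    intro u v
    rw [hgr0, SimpleGraph.reachable_bot]; simp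
  -- labels
  set c1 : V → Option V := mg A B ∘ some with hc1
  set c2 : V → Option V := mg C Dd ∘ some with hc2
  set c3 : V → Option V := mg C Dd ∘ c1 with hc3
  have hK1 : Ker a b {e} c1 := Ker_insert' a b ∅ some hK0 e
  have hK2 : Ker a b {f} c2 := Ker_insert' a b ∅ some hK0 f
  have hc1f : c1 (a f) = C := hmC
  have hc1f' : c1 (b f) = Dd := hmD
  have hK3 : Ker a b {e, f} c3 := by
    have := Ker_insert' a b {e} c1 hK1 f
    rw [hc1f, hc1f'] at this
    rwa [Finset.pair_comm]
  have hIs1 : IsF a b {e} := by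
    have := IsF_insert a b (i := e) hIs0 (by
      rw [hgr0, SimpleGraph.reachable_bot]; exact he)
    exact this
  have hIs2 : IsF a b {f} := by
    have := IsF_insert a b (i := f) hIs0 (by
      rw [hgr0, SimpleGraph.reachable_bot]; exact hf)
    exact this
  have hIs3 : IsF a b {e, f} := by
    rw [Finset.pair_comm]
    apply IsF_insert a b (i := f) hIs1
    rw [← hK1, hc1f, hc1f']
    exact hCD
  have hn1 : ∀ v, c1 v ≠ none := by
    intro v; simp only [hc1, Function.comp_apply, mg]; split_ifs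
    · exact hAr
    · simp
  have hn2 : ∀ v, c2 v ≠ none := by
    intro v; simp only [hc2, Function.comp_apply, mg]; split_ifs
    · exact hCr
    · simp
  have hn3 : ∀ v, c3 v ≠ none := by
    intro v; simp only [hc3, Function.comp_apply]
    unfold mg
    split_ifs
    · exact hCr
    · exact hn1 v
  set L : List (Option V × Option V × ℂ) := ll a b w some (e :: f :: l0) with hL
  have hwl : ∀ i ∈ e :: f :: l0, 0 ≤ w i := by
    intro i hi
    apply hw
    have : i ∈ (e :: f :: l0).toFinset := List.mem_toFinset.2 hi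
    rw [hall] at this
    simpa using this
  have hNN : NN L := NN_ll a b w some _ hwl
  -- the values
  have v0 : Phi none L 1 = ((NX a b E w ∅ : ℝ) : ℂ) :=
    (NX_lab none a b E w ∅ (by simp) hIs0 some hK0 _ hnd2 hall).symm
  have v1 : ∀ c : V → Option V, Ker a b {e} c →
      Phi none (ll a b w c (e :: f :: l0)) 1 = ((NX a b E w {e} : ℝ) : ℂ) := by
    intro c hc
    rw [Phi_loop none a b w c e _ (Ker_mem a b {e} c hc e (by simp))]
    exact (NX_lab none a b E w {e} (by simpa using heE) hIs1 c hc _ (by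
      rw [List.nodup_cons]; exact ⟨hf0, hl0nd⟩) hfl).symm
  have v2 : ∀ c : V → Option V, Ker a b {f} c →
      Phi none (ll a b w c (e :: f :: l0)) 1 = ((NX a b E w {f} : ℝ) : ℂ) := by
    intro c hc
    rw [ll_cons, ll_cons, Phi_swap, ← ll_cons, ← ll_cons,
      Phi_loop none a b w c f _ (Ker_mem a b {f} c hc f (by simp))]
    exact (NX_lab none a b E w {f} (by simpa using hfE) hIs2 c hc _ (by
      rw [List.nodup_cons]; exact ⟨he0, hl0nd⟩) hel).symm
  have v3 : ∀ c : V → Option V, Ker a b {e, f} c →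
      Phi none (ll a b w c (e :: f :: l0)) 1 = ((NX a b E w {e, f} : ℝ) : ℂ) := by
    intro c hc
    rw [Phi_loop none a b w c e _ (Ker_mem a b {e, f} c hc e (by simp)),
      Phi_loop none a b w c f _ (Ker_mem a b {e, f} c hc f (by simp))]
    exact (NX_lab none a b E w {e, f} (by
      intro x hx
      rcases Finset.mem_insert.1 hx with rfl | hx
      · exact heE
      · rw [Finset.mem_singleton] at hx; exact hx ▸ hfE) hIs3 c hc _ hl0nd hl0F).symm
  have hhat := hat_rayleigh (r := (none : Option V)) hAB hAr hBr hCD hCr hDr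
    (by rw [hmC, hmD]; exact hCD) L hNN
  rw [hmC, hmD, S_one A B hAB 1 rfl rfl, S_one C Dd hCD 1 rfl rfl,
    S_one C Dd hCD (tau A 1 1) (by simp [tau, hCA]) (by simp [tau, hDA]), v0] at hhat
  -- left factor
  have w1 : Phi none (rel (mg A B) L) (tau A 1 1) = 2 * ((NX a b E w {e} : ℝ) : ℂ) := by
    have h := congrFun (Phi_tau none A hAr 1 (rel (mg A B) L)) 1
    rw [← h, Phi_cons_root none A hAr, hL, rel_ll, rel_ll, v1 c1 hK1,
      v1 (mg none A ∘ c1) (Ker_root none A a b {e} c1 hK1 hn1)]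
    ring
  have w2 : Phi none (rel (mg C Dd) L) (tau C 1 1) = 2 * ((NX a b E w {f} : ℝ) : ℂ) := by
    have h := congrFun (Phi_tau none C hCr 1 (rel (mg C Dd) L)) 1
    rw [← h, Phi_cons_root none C hCr, hL, rel_ll, rel_ll, v2 c2 hK2,
      v2 (mg none C ∘ c2) (Ker_root none C a b {f} c2 hK2 hn2)]
    ring
  obtain ⟨k, hk, hkv⟩ := Phi_nonneg (none : Option V) _
    (ll a b w (mg none C ∘ (mg none A ∘ c3)) (e :: f :: l0)) rfl (NN_ll a b w _ _ hwl)
  have w3 : Phi none (rel (mg C Dd) (rel (mg A B) L)) (tau C 1 (tau A 1 1)) =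
      3 * ((NX a b E w {e, f} : ℝ) : ℂ) + k := by
    have h := congrFun (Phi_tau none C hCr 1 (rel (mg C Dd) (rel (mg A B) L))) (tau A 1 1)
    have h' := congrFun (Phi_tau none A hAr 1
      ((C, none, 1) :: rel (mg C Dd) (rel (mg A B) L))) 1
    have hrC : mg none A C = C := by simp [mg, hCA]
    have hrn : mg none A (none : Option V) = none := by simp [mg]
    rw [← h, ← h', Phi_cons_root none A hAr, rel_cons]
    simp only
    rw [hrC, hrn, Phi_cons_root none C hCr, Phi_cons_root none C hCr, hL, rel_ll, rel_ll, rel_ll,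
      rel_ll, rel_ll, v3 c3 hK3, v3 (mg none C ∘ c3) (Ker_root none C a b {e, f} c3 hK3 hn3),
      v3 (mg none A ∘ c3) (Ker_root none A a b {e, f} c3 hK3 hn3), hkv]
    ring
  rw [w1, w2, w3] at hhat
  have e1 : ((((NX a b E w ∅ : ℝ) : ℂ)).re) = NX a b E w ∅ := Complex.ofReal_re _
  have e2 : (3 * ((NX a b E w {e, f} : ℝ) : ℂ) + (k : ℂ)).re = 3 * NX a b E w {e, f} + k := by
    simp
  have e3 : (2 * ((NX a b E w {e} : ℝ) : ℂ)).re = 2 * NX a b E w {e} := by simp
  have e4 : (2 * ((NX a b E w {f} : ℝ) : ℂ)).re = 2 * NX a b E w {f} := by simp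
  rw [e1, e2, e3, e4] at hhat
  have h0 : 0 ≤ NX a b E w ∅ := by
    obtain ⟨t, ht, htv⟩ := Phi_nonneg (none : Option V) _ L rfl hNN
    rw [v0] at htv
    have : NX a b E w ∅ = t := by exact_mod_cast htv
    rw [this]; exact ht
  nlinarith [mul_nonneg h0 hk]

lemma NX_nonneg (a b : ι → V) (E : Finset ι) (w : ι → ℝ) (hw : ∀ i ∈ E, 0 ≤ w i)
    (X : Finset ι) : 0 ≤ NX a b E w X := by
  classical
  unfold NX
  apply Finset.sum_nonneg
  intro F hF
  rw [Finset.mem_filter, Finset.mem_powerset] at hF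
  apply Finset.prod_nonneg
  intro i hi
  exact hw i (hF.1 (Finset.mem_sdiff.1 hi).1)

/-- **`3 P(e, f) ≤ 4 P(e) P(f)` for any two edges of any weighted random forest.** -/
theorem four_thirds (a b : ι → V) (E : Finset ι) (w : ι → ℝ)
    (hw : ∀ i ∈ E, 0 ≤ w i) (e f : ι) (heE : e ∈ E) (hfE : f ∈ E) (hef : e ≠ f) :
    3 * (NX a b E w {e, f} * NX a b E w ∅) ≤ 4 * (NX a b E w {e} * NX a b E w {f}) := by
  have hpos := mul_nonneg (NX_nonneg a b E w hw {e}) (NX_nonneg a b E w hw {f})
  have hpos' := mul_nonneg (NX_nonneg a b E w hw {e, f}) (NX_nonneg a b E w hw ∅)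
  have star : ∀ r : V, (a e = r ∨ b e = r) → (a f = r ∨ b f = r) →
      3 * (NX a b E w {e, f} * NX a b E w ∅) ≤ 4 * (NX a b E w {e} * NX a b E w {f}) := by
    intro r h h'
    have := star_rayleigh r a b E w (fun i hi _ _ => hw i hi) e f heE hfE hef h h'
    linarith
  by_cases he : a e = b e
  · rw [NX_loop a b E w {e, f} e (by simp) he]
    linarith
  by_cases hf : a f = b f
  · rw [NX_loop a b E w {e, f} f (by simp) hf]
    linarith
  by_cases h1 : a f = a e
  · exact star (a e) (Or.inl rfl) (Or.inl h1)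
  by_cases h2 : a f = b e
  · exact star (b e) (Or.inr rfl) (Or.inl h2)
  by_cases h3 : b f = a e
  · exact star (a e) (Or.inl rfl) (Or.inr h3)
  by_cases h4 : b f = b e
  · exact star (b e) (Or.inr rfl) (Or.inr h4)
  exact four_thirds_disjoint a b E w hw e f heE hfE hef he hf h1 h2 h3 h4

end main

end H990SF
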