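import Mathlib
import Pool.Agent.H990R2.SF.Star

/-!
Simple graph form of the forest sums.
-/

set_option linter.unusedSectionVars false
set_option linter.unusedSimpArgs false

namespace H990SF

open Finset

variable {V : Type*} [Fintype V] [DecidableEq V]

noncomputable def ea (e : Sym2 V) : V := (Quot.out e).1
noncomputable def eb (e : Sym2 V) : V := (Quot.out e).2

lemma ea_eb (e : Sym2 V) : s(ea e, eb e) = e := Quot.out_eq e

lemma mem_iff_ea_eb (b : V) (e : Sym2 V) : b ∈ e ↔ ea e = b ∨ eb e = b := by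
  conv_lhs => rw [← ea_eb e]
  rw [Sym2.mem_iff]
  constructor <;> rintro (h | h) <;> simp [h]

lemma IsF_simple (F : Finset (Sym2 V)) (hF : ∀ e ∈ F, ¬ e.IsDiag) :
    IsF ea eb F ↔ (SimpleGraph.fromEdgeSet (F : Set (Sym2 V))).IsAcyclic := by
  have h1 : (fun e : Sym2 V => s(ea e, eb e)) = id := by
    funext e; exact ea_eb e
  unfold IsF gr
  rw [h1]
  simp only [Set.image_id]
  constructor
  · rintro ⟨-, -, h⟩; exact h
  · intro h
    refine ⟨?_, Function.injective_id.injOn, h⟩
    intro e he hab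
    apply hF e he
    rw [← ea_eb e, hab]
    simp

open Classical in
/-- The sum of `∏ g ∈ F \ X, p g` over the edge sets `F ⊇ X` of forests of `G`. -/
noncomputable def sumForest (G : SimpleGraph V) (p : Sym2 V → ℝ) (X : Finset (Sym2 V)) : ℝ :=
  ∑ F ∈ G.edgeFinset.powerset with
    X ⊆ F ∧ (SimpleGraph.fromEdgeSet (F : Set (Sym2 V))).IsAcyclic, ∏ g ∈ F \ X, p g

open Classical in
lemma sumForest_eq (G : SimpleGraph V) (p : Sym2 V → ℝ) (X : Finset (Sym2 V)) :
    sumForest G p X = NX ea eb G.edgeFinset p X := by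
  unfold sumForest NX
  apply Finset.sum_congr _ (fun _ _ => rfl)
  ext F
  rw [Finset.mem_filter, Finset.mem_filter, Finset.mem_powerset]
  constructor
  · rintro ⟨h1, h2, h3⟩
    refine ⟨h1, h2, (IsF_simple F ?_).2 h3⟩
    intro e he
    exact G.not_isDiag_of_mem_edgeSet (SimpleGraph.mem_edgeFinset.1 (h1 he))
  · rintro ⟨h1, h2, h3⟩
    refine ⟨h1, h2, (IsF_simple F ?_).1 h3⟩
    intro e he
    exact G.not_isDiag_of_mem_edgeSet (SimpleGraph.mem_edgeFinset.1 (h1 he))

theorem star_rayleigh_simple (G : SimpleGraph V) (p : Sym2 V → ℝ) (b : V)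
    (hp : ∀ g ∈ G.edgeSet, b ∉ g → 0 ≤ p g) (e f : Sym2 V) (he : e ∈ G.edgeSet)
    (hf : f ∈ G.edgeSet) (hef : e ≠ f) (hbe : b ∈ e) (hbf : b ∈ f) :
    sumForest G p {e, f} * sumForest G p ∅ ≤ sumForest G p {e} * sumForest G p {f} := by
  classical
  rw [sumForest_eq, sumForest_eq, sumForest_eq, sumForest_eq]
  apply star_rayleigh b ea eb G.edgeFinset p
  · intro g hg h1 h2
    refine hp g (SimpleGraph.mem_edgeFinset.1 hg) ?_
    rw [mem_iff_ea_eb]
    rintro (h | h)
    · exact h1 h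
    · exact h2 h
  · exact SimpleGraph.mem_edgeFinset.2 he
  · exact SimpleGraph.mem_edgeFinset.2 hf
  · exact hef
  · exact (mem_iff_ea_eb b e).1 hbe
  · exact (mem_iff_ea_eb b f).1 hbf

end H990SF
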