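import Mathlib
import Pool.Agent.H990R2.SF.FourThirds
import Pool.Agent.H990R2.SF.Simple

/-!
Multigraphs given by an endpoint map `ends : ι → Sym2 V`.
-/

set_option linter.unusedSectionVars false
set_option linter.unusedSimpArgs false

namespace H990SF

open Finset

variable {V ι : Type*} [Fintype V] [DecidableEq V] [DecidableEq ι]

noncomputable def fa (ends : ι → Sym2 V) (i : ι) : V := ea (ends i)
noncomputable def fb (ends : ι → Sym2 V) (i : ι) : V := eb (ends i)

lemma fa_fb (ends : ι → Sym2 V) (i : ι) : s(fa ends i, fb ends i) = ends i := ea_eb _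

lemma fa_ne_fb (ends : ι → Sym2 V) (i : ι) (h : ¬ (ends i).IsDiag) : fa ends i ≠ fb ends i := by
  intro h'
  apply h
  rw [← fa_fb ends i, h']
  simp

/-- `F` is a forest of the loopless multigraph `ends`: the endpoint map is injective on `F` (no two
parallel edges) and the simple graph spanned by `F` has no cycle. -/
def IsForest (ends : ι → Sym2 V) (F : Finset ι) : Prop :=
  Set.InjOn ends (F : Set ι) ∧ (SimpleGraph.fromEdgeSet (ends '' (F : Set ι))).IsAcyclic

lemma IsF_iff_isForest (ends : ι → Sym2 V) (hl : ∀ i, ¬ (ends i).IsDiag) (F : Finset ι) :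
    IsF (fa ends) (fb ends) F ↔ IsForest ends F := by
  have h1 : (fun i => s(fa ends i, fb ends i)) = ends := by
    funext i; exact fa_fb ends i
  unfold IsF gr IsForest
  rw [h1]
  constructor
  · rintro ⟨-, h, h'⟩; exact ⟨h, h'⟩
  · rintro ⟨h, h'⟩
    exact ⟨fun i _ => fa_ne_fb ends i (hl i), h, h'⟩

open Classical in
/-- The number of forests containing `X`. -/
noncomputable def numForest [Fintype ι] (ends : ι → Sym2 V) (X : Finset ι) : ℕ :=
  (Finset.univ.filter fun F : Finset ι => X ⊆ F ∧ IsForest ends F).card

open Classical in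
lemma numForest_eq [Fintype ι] (ends : ι → Sym2 V) (hl : ∀ i, ¬ (ends i).IsDiag)
    (X : Finset ι) :
    (numForest ends X : ℝ) = NX (fa ends) (fb ends) Finset.univ (fun _ => 1) X := by
  unfold numForest NX
  simp only [Finset.prod_const_one, Finset.sum_const, nsmul_eq_mul, mul_one]
  congr 2
  ext F
  simp [IsF_iff_isForest ends hl]

end H990SF
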