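import Mathlib
import Pool.Agent.H990R2.SF.FourThirds
import Pool.Agent.H990R2.SF.Multi

/-!
Independent sets of graphic matroids and spanning sets of their duals.
-/

set_option linter.unusedSectionVars false
set_option linter.unusedSimpArgs false

namespace H990SF

open Finset

lemma ite_iffM {p q : Prop} {dp : Decidable p} {dq : Decidable q} (h : p ↔ q) (x : ℝ) :
    (if p then x else 0) = if q then x else 0 := by
  by_cases hp : p
  · rw [if_pos hp, if_pos (h.1 hp)]
  · rw [if_neg hp, if_neg (fun k => hp (h.2 k))]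

section fam

variable {α : Type*} [Fintype α] [DecidableEq α]

open Classical in
noncomputable def at4 (Q : Finset α → Prop) (y : α → ℝ) (e f : α) (s t : Prop) : ℝ :=
  ∑ A : Finset α, if Q A ∧ (e ∈ A ↔ s) ∧ (f ∈ A ↔ t) then ∏ x ∈ A, y x else 0

def RForm (C : ℝ) (Q : Finset α → Prop) (y : α → ℝ) (e f : α) : Prop :=
  at4 Q y e f True True * at4 Q y e f False False ≤
    C * (at4 Q y e f True False * at4 Q y e f False True)

open Classical in
lemma at4_nonneg (Q : Finset α → Prop) (y : α → ℝ) (hy : ∀ x, 0 ≤ y x) (e f : α) (s t : Prop) :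
    0 ≤ at4 Q y e f s t := by
  unfold at4
  refine Finset.sum_nonneg fun A _ => ?_
  split_ifs
  · exact Finset.prod_nonneg fun x _ => hy x
  · exact le_refl _

open Classical in
lemma corr_of_RForm (C : ℝ) (hC : 1 ≤ C) (Q : Finset α → Prop) (y : α → ℝ) (hy : ∀ x, 0 ≤ y x)
    (e f : α) (h : RForm C Q y e f) :
    (∑ A : Finset α, if Q A ∧ e ∈ A ∧ f ∈ A then ∏ x ∈ A, y x else 0) *
      (∑ A : Finset α, if Q A then ∏ x ∈ A, y x else 0) ≤
    C * ((∑ A : Finset α, if Q A ∧ e ∈ A then ∏ x ∈ A, y x else 0) *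
      (∑ A : Finset α, if Q A ∧ f ∈ A then ∏ x ∈ A, y x else 0)) := by
  have h1 : (∑ A : Finset α, if Q A ∧ e ∈ A ∧ f ∈ A then ∏ x ∈ A, y x else 0) =
      at4 Q y e f True True := by
    unfold at4
    exact Finset.sum_congr rfl fun A _ => ite_iffM (by simp) _
  have h2 : (∑ A : Finset α, if Q A ∧ e ∈ A then ∏ x ∈ A, y x else 0) =
      at4 Q y e f True True + at4 Q y e f True False := by
    unfold at4
    rw [← Finset.sum_add_distrib]
    refine Finset.sum_congr rfl fun A _ => ?_
    by_cases hQ : Q A <;> by_cases he : e ∈ A <;> by_cases hf : f ∈ A <;> simp [hQ, he, hf]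
  have h3 : (∑ A : Finset α, if Q A ∧ f ∈ A then ∏ x ∈ A, y x else 0) =
      at4 Q y e f True True + at4 Q y e f False True := by
    unfold at4
    rw [← Finset.sum_add_distrib]
    refine Finset.sum_congr rfl fun A _ => ?_
    by_cases hQ : Q A <;> by_cases he : e ∈ A <;> by_cases hf : f ∈ A <;> simp [hQ, he, hf]
  have h4 : (∑ A : Finset α, if Q A then ∏ x ∈ A, y x else 0) =
      at4 Q y e f True True + at4 Q y e f True False + at4 Q y e f False True
        + at4 Q y e f False False := by
    unfold at4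
    rw [← Finset.sum_add_distrib, ← Finset.sum_add_distrib, ← Finset.sum_add_distrib]
    refine Finset.sum_congr rfl fun A _ => ?_
    by_cases hQ : Q A <;> by_cases he : e ∈ A <;> by_cases hf : f ∈ A <;> simp [hQ, he, hf]
  rw [h1, h2, h3, h4]
  unfold RForm at h
  have a1 := at4_nonneg Q y hy e f True True
  have a2 := at4_nonneg Q y hy e f True False
  have a3 := at4_nonneg Q y hy e f False True
  set p := at4 Q y e f True True
  set q := at4 Q y e f True False
  set r := at4 Q y e f False True
  set t := at4 Q y e f False False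
  have h5 : p * (p + q + r) ≤ C * (p * (p + q + r)) := by
    have : 0 ≤ p * (p + q + r) := mul_nonneg a1 (by linarith)
    nlinarith
  nlinarith

open Classical in
lemma at4_compl (Q Q' : Finset α → Prop) (hQ : ∀ A, Q' A ↔ Q Aᶜ) (z : α → ℝ)
    (hz : ∀ x, 0 < z x) (e f : α) (s t : Prop) :
    at4 Q' z e f s t = (∏ x, z x) * at4 Q (fun x => (z x)⁻¹) e f (¬ s) (¬ t) := by
  unfold at4
  rw [Finset.mul_sum]
  refine Finset.sum_equiv (Equiv.mk (fun A => Aᶜ) (fun A => Aᶜ) (fun A => compl_compl A)
    (fun A => compl_compl A)) (by simp) ?_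
  intro A _
  have hprod : ∏ x ∈ A, z x = (∏ x, z x) * ∏ x ∈ Aᶜ, (z x)⁻¹ := by
    rw [← Finset.prod_mul_prod_compl A z, mul_assoc, ← Finset.prod_mul_distrib]
    rw [Finset.prod_congr rfl (fun x _ => mul_inv_cancel₀ (hz x).ne'), Finset.prod_const_one,
      mul_one]
  have hc : (Q' A ∧ (e ∈ A ↔ s) ∧ (f ∈ A ↔ t)) ↔
      (Q Aᶜ ∧ (e ∈ Aᶜ ↔ ¬ s) ∧ (f ∈ Aᶜ ↔ ¬ t)) := by
    rw [hQ, Finset.mem_compl, Finset.mem_compl, not_iff_not, not_iff_not]
  by_cases h : Q' A ∧ (e ∈ A ↔ s) ∧ (f ∈ A ↔ t)
  · rw [if_pos h]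
    refine hprod.trans ?_
    refine congrArg (fun t => (∏ x, z x) * t) ?_
    exact (if_pos (hc.1 h)).symm
  · rw [if_neg h]
    symm
    exact (congrArg (fun t => (∏ x, z x) * t) (if_neg (fun k => h (hc.2 k)))).trans (mul_zero _)

lemma RForm_compl (C : ℝ) (Q Q' : Finset α → Prop) (hQ : ∀ A, Q' A ↔ Q Aᶜ) (z : α → ℝ)
    (hz : ∀ x, 0 < z x) (e f : α) (h : RForm C Q (fun x => (z x)⁻¹) e f) :
    RForm C Q' z e f := by
  unfold RForm at h ⊢
  rw [at4_compl Q Q' hQ z hz, at4_compl Q Q' hQ z hz, at4_compl Q Q' hQ z hz,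
    at4_compl Q Q' hQ z hz]
  simp only [not_true_eq_false, not_false_eq_true]
  have hp : 0 ≤ (∏ x, z x) * (∏ x, z x) :=
    mul_self_nonneg _
  nlinarith [mul_le_mul_of_nonneg_left h hp]

end fam

section graph

variable {V α : Type*} [Fintype V] [DecidableEq V] [Fintype α] [DecidableEq α]

open Classical in
lemma at4_NX (a b : α → V) (y : α → ℝ) (e f : α) (hef : e ≠ f) :
    at4 (IsF a b) y e f True True = y e * y f *
      NX a b univ (Function.update (Function.update y e 0) f 0) {e, f} ∧
    at4 (IsF a b) y e f True False = y e *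
      NX a b univ (Function.update (Function.update y e 0) f 0) {e} ∧
    at4 (IsF a b) y e f False True = y f *
      NX a b univ (Function.update (Function.update y e 0) f 0) {f} ∧
    at4 (IsF a b) y e f False False =
      NX a b univ (Function.update (Function.update y e 0) f 0) ∅ := by
  set w := Function.update (Function.update y e 0) f 0 with hw
  have we : w e = 0 := by rw [hw, Function.update_of_ne hef, Function.update_self]
  have wf : w f = 0 := by rw [hw, Function.update_self]
  have wo : ∀ x, x ≠ e → x ≠ f → w x = y x := by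
    intro x h1 h2; rw [hw, Function.update_of_ne h2, Function.update_of_ne h1]
  have hNX : ∀ X : Finset α, NX a b univ w X =
      ∑ F : Finset α, if X ⊆ F ∧ IsF a b F then ∏ i ∈ F \ X, w i else 0 := by
    intro X
    unfold NX
    rw [Finset.powerset_univ, Finset.sum_filter]
  have hpr : ∀ (F X : Finset α), e ∉ F \ X → f ∉ F \ X → ∏ i ∈ F \ X, w i = ∏ i ∈ F \ X, y i := by
    intro F X h1 h2
    refine Finset.prod_congr rfl fun i hi => wo i ?_ ?_
    · rintro rfl; exact h1 hi
    · rintro rfl; exact h2 hi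
  refine ⟨?_, ?_, ?_, ?_⟩
  · rw [hNX]; unfold at4
    rw [Finset.mul_sum]
    refine Finset.sum_congr rfl fun F _ => ?_
    by_cases h : IsF a b F ∧ e ∈ F ∧ f ∈ F
    · have hX : ({e, f} : Finset α) ⊆ F := by
        intro x hx
        rcases Finset.mem_insert.1 hx with rfl | hx
        · exact h.2.1
        · rw [Finset.mem_singleton] at hx; exact hx ▸ h.2.2
      rw [if_pos (by simpa using h), if_pos ⟨hX, h.1⟩, hpr F _ (by simp) (by simp),
        ← Finset.prod_sdiff hX, Finset.prod_pair hef]
      ring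
    · rw [if_neg (by simpa using h), if_neg, mul_zero]
      rintro ⟨h1, h2⟩
      exact h ⟨h2, h1 (by simp), h1 (by simp)⟩
  · rw [hNX]; unfold at4
    rw [Finset.mul_sum]
    refine Finset.sum_congr rfl fun F _ => ?_
    by_cases h : IsF a b F ∧ e ∈ F
    · have hX : ({e} : Finset α) ⊆ F := by simpa using h.2
      rw [if_pos (⟨hX, h.1⟩ : ({e} : Finset α) ⊆ F ∧ IsF a b F)]
      by_cases hf : f ∈ F
      · rw [if_neg (by simp [hf])]
        have : f ∈ F \ {e} := by simp [hf, Ne.symm hef]
        rw [Finset.prod_eq_zero this wf, mul_zero]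
      · rw [if_pos (by simp [h.1, h.2, hf]), hpr F _ (by simp) (by simp [hf]),
          ← Finset.prod_sdiff hX, Finset.prod_singleton]
        ring
    · rw [if_neg (fun k => h ⟨k.1, by simpa using k.2.1⟩), if_neg, mul_zero]
      rintro ⟨h1, h2⟩
      exact h ⟨h2, h1 (by simp)⟩
  · rw [hNX]; unfold at4
    rw [Finset.mul_sum]
    refine Finset.sum_congr rfl fun F _ => ?_
    by_cases h : IsF a b F ∧ f ∈ F
    · have hX : ({f} : Finset α) ⊆ F := by simpa using h.2
      rw [if_pos (⟨hX, h.1⟩ : ({f} : Finset α) ⊆ F ∧ IsF a b F)]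
      by_cases he : e ∈ F
      · rw [if_neg (by simp [he])]
        have : e ∈ F \ {f} := by simp [he, hef]
        rw [Finset.prod_eq_zero this we, mul_zero]
      · rw [if_pos (by simp [h.1, h.2, he]), hpr F _ (by simp [he]) (by simp),
          ← Finset.prod_sdiff hX, Finset.prod_singleton]
        ring
    · rw [if_neg (fun k => h ⟨k.1, by simpa using k.2.2⟩), if_neg, mul_zero]
      rintro ⟨h1, h2⟩
      exact h ⟨h2, h1 (by simp)⟩
  · rw [hNX]; unfold at4
    refine Finset.sum_congr rfl fun F _ => ?_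
    rw [Finset.sdiff_empty]
    by_cases h : IsF a b F
    · rw [if_pos (⟨by simp, h⟩ : (∅ : Finset α) ⊆ F ∧ IsF a b F)]
      by_cases he : e ∈ F
      · rw [if_neg (by simp [he]), Finset.prod_eq_zero he we]
      · by_cases hf : f ∈ F
        · rw [if_neg (by simp [hf]), Finset.prod_eq_zero hf wf]
        · rw [if_pos (by simp [h, he, hf])]
          have := hpr F ∅ (by simpa using he) (by simpa using hf)
          rw [Finset.sdiff_empty] at this
          exact this.symm
    · rw [if_neg (fun k => h k.1), if_neg (fun k => h k.2)]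

lemma RForm_four_thirds (a b : α → V) (y : α → ℝ) (hy : ∀ x, 0 ≤ y x) (e f : α) (hef : e ≠ f) :
    RForm (4 / 3) (IsF a b) y e f := by
  obtain ⟨h1, h2, h3, h4⟩ := at4_NX a b y e f hef
  unfold RForm
  rw [h1, h2, h3, h4]
  have hw : ∀ i ∈ (univ : Finset α), 0 ≤ Function.update (Function.update y e 0) f 0 i := by
    intro i _
    by_cases h : i = f
    · subst h; rw [Function.update_self]
    · rw [Function.update_of_ne h]
      by_cases h' : i = e
      · subst h'; rw [Function.update_self]
      · rw [Function.update_of_ne h']; exact hy i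
  have h := four_thirds a b univ _ hw e f (Finset.mem_univ _) (Finset.mem_univ _) hef
  have hp : 0 ≤ y e * y f := mul_nonneg (hy e) (hy f)
  nlinarith [mul_le_mul_of_nonneg_left h hp]

lemma RForm_star (a b : α → V) (y : α → ℝ) (hy : ∀ x, 0 ≤ y x) (e f : α) (hef : e ≠ f)
    (r : V) (he : a e = r ∨ b e = r) (hf : a f = r ∨ b f = r) :
    RForm 1 (IsF a b) y e f := by
  obtain ⟨h1, h2, h3, h4⟩ := at4_NX a b y e f hef
  unfold RForm
  rw [h1, h2, h3, h4]
  have hw : ∀ i ∈ (univ : Finset α), 0 ≤ Function.update (Function.update y e 0) f 0 i := by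
    intro i _
    by_cases h : i = f
    · subst h; rw [Function.update_self]
    · rw [Function.update_of_ne h]
      by_cases h' : i = e
      · subst h'; rw [Function.update_self]
      · rw [Function.update_of_ne h']; exact hy i
  have h := star_rayleigh r a b univ _ (fun i hi _ _ => hw i hi) e f (Finset.mem_univ _)
    (Finset.mem_univ _) hef he hf
  have hp : 0 ≤ y e * y f := mul_nonneg (hy e) (hy f)
  nlinarith [mul_le_mul_of_nonneg_left h hp]

/-- The edge sets of forests of a multigraph (loops and parallel edges allowed). -/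
def IsForestM (ends : α → Sym2 V) (F : Finset α) : Prop :=
  (∀ i ∈ F, ¬ (ends i).IsDiag) ∧ Set.InjOn ends (F : Set α) ∧
    (SimpleGraph.fromEdgeSet (ends '' (F : Set α))).IsAcyclic

lemma IsF_iff_M (ends : α → Sym2 V) (F : Finset α) :
    IsF (fa ends) (fb ends) F ↔ IsForestM ends F := by
  have h1 : (fun i => s(fa ends i, fb ends i)) = ends := by
    funext i; exact fa_fb ends i
  unfold IsF gr IsForestM
  rw [h1]
  refine and_congr_left fun _ => ?_
  refine forall_congr' fun i => forall_congr' fun _ => ?_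
  rw [← fa_fb ends i, Sym2.mk_isDiag_iff]

end graph

end H990SF
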