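import Mathlib
import Pool.Agent.H990R2.SF.Stab

/-!
A four-variable inequality for real stable multi-affine functions, by a Lieb-Sokal argument.
-/

set_option linter.unusedSectionVars false
set_option linter.unusedSimpArgs false

namespace H990SF

open Finset Complex

variable {U : Type*} [DecidableEq U]

/-- Compatible with complex conjugation. -/
def CO (f : (U → ℂ) → ℂ) : Prop :=
  ∀ z : U → ℂ, f (fun i => (starRingEnd ℂ) (z i)) = (starRingEnd ℂ) (f z)

lemma CO.realOn {f : (U → ℂ) → ℂ} (hf : CO f) : RealOn f := by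
  intro x
  rw [← Complex.conj_eq_iff_im, ← hf]
  simp

/-- `f(-z)`. -/
def ng (f : (U → ℂ) → ℂ) : (U → ℂ) → ℂ := fun z => f (-z)

lemma neg_update (z : U → ℂ) (i : U) (t : ℂ) :
    -(Function.update z i t) = Function.update (-z) i (-t) := by
  funext j
  by_cases h : j = i
  · subst h; simp
  · simp [h]

lemma Stab_ng {f : (U → ℂ) → ℂ} (hs : Stab f) (hc : CO f) : Stab (ng f) := by
  intro z hz h0
  refine hs (fun i => (starRingEnd ℂ) ((-z) i)) (by intro i; simpa using hz i) ?_
  rw [hc]
  unfold ng at h0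
  rw [h0]; simp

lemma MA_ng {f : (U → ℂ) → ℂ} (hf : MA f) : MA (ng f) := by
  intro z i t
  simp only [ng, neg_update]
  rw [hf (-z) i (-t), hf (-z) i (-0), hf (-z) i (-1)]; ring

lemma CO_ng {f : (U → ℂ) → ℂ} (hc : CO f) : CO (ng f) := by
  intro z
  have := hc (-z)
  simp only [ng]
  rw [← this]
  have e : (fun i => (starRingEnd ℂ) ((-z) i)) = -(fun i => (starRingEnd ℂ) (z i)) := by
    funext i; simp
  rw [e]

lemma cont_ng {f : (U → ℂ) → ℂ} (hc : Continuous f) : Continuous (ng f) :=
  hc.comp continuous_neg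

lemma pd_ng {f : (U → ℂ) → ℂ} (hf : MA f) (i : U) : pd i (ng f) = fun z => -(ng (pd i f) z) := by
  funext z
  simp only [ng, pd, neg_update]
  rw [hf (-z) i (-1), hf (-z) i (-0)]; ring

lemma pd_neg (i : U) (f : (U → ℂ) → ℂ) : pd i (fun z => -(f z)) = fun z => -(pd i f z) := by
  funext z; simp only [pd]; ring

/-- The reflection `w_i h(w_i → -1/w_i)`. -/
def Rf (i : U) (h : (U → ℂ) → ℂ) : (U → ℂ) → ℂ :=
  fun w => w i * h (Function.update w i 0) - pd i h w

/-- Specialisation of one variable to `0`. -/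
def Zf (i : U) (h : (U → ℂ) → ℂ) : (U → ℂ) → ℂ := fun w => h (Function.update w i 0)

lemma Stab_Rf {h : (U → ℂ) → ℂ} (hh : MA h) (hs : Stab h) (i : U) : Stab (Rf i h) := by
  intro w hw h0
  have hwi : w i ≠ 0 := by
    intro h; have := hw i; rw [h] at this; simp at this
  refine hs (Function.update w i (-(w i)⁻¹)) ?_ ?_
  · intro j
    by_cases hj : j = i
    · subst hj
      rw [Function.update_self, Complex.neg_im, Complex.inv_im]
      have := div_pos (hw j) (Complex.normSq_pos.2 hwi)
      rw [neg_div]; linarith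
    · rw [Function.update_of_ne hj]; exact hw j
  · rw [hh w i]
    unfold Rf pd at h0
    have h1 : w i * (h (Function.update w i 0) + -(w i)⁻¹ *
        (h (Function.update w i 1) - h (Function.update w i 0))) = 0 := by
      have h3 : w i * (w i)⁻¹ = 1 := mul_inv_cancel₀ hwi
      linear_combination h0 -
        (h (Function.update w i 1) - h (Function.update w i 0)) * h3
    rcases mul_eq_zero.1 h1 with h2 | h2
    · exact absurd h2 hwi
    · exact h2

lemma MA_Rf {h : (U → ℂ) → ℂ} (hh : MA h) (i : U) : MA (Rf i h) := by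
  intro w j t
  unfold Rf
  by_cases hj : j = i
  · subst hj
    simp only [Function.update_self, Function.update_idem, pd]
    ring
  · have hp := hh.pd i w j t
    rw [Function.update_of_ne (Ne.symm hj), Function.update_of_ne (Ne.symm hj),
      Function.update_of_ne (Ne.symm hj), Function.update_comm hj, Function.update_comm hj,
      Function.update_comm hj, hp, hh (Function.update w i 0) j t]
    ring

lemma CO_pd {h : (U → ℂ) → ℂ} (hh : CO h) (i : U) : CO (pd i h) := by
  intro z
  have e : ∀ t : ℝ, Function.update (fun i => (starRingEnd ℂ) (z i)) i (t : ℂ) =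
      fun j => (starRingEnd ℂ) (Function.update z i (t : ℂ) j) := by
    intro t; funext j
    by_cases hj : j = i
    · subst hj; simp
    · simp [hj]
  have e1 := e 1
  have e0 := e 0
  rw [Complex.ofReal_one] at e1
  rw [Complex.ofReal_zero] at e0
  simp only [pd]
  rw [e1, e0, hh, hh, map_sub]

lemma CO_Rf {h : (U → ℂ) → ℂ} (hh : CO h) (i : U) : CO (Rf i h) := by
  intro z
  have e0 : Function.update (fun i => (starRingEnd ℂ) (z i)) i 0 =
      fun j => (starRingEnd ℂ) (Function.update z i 0 j) := by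
    funext j
    by_cases hj : j = i
    · subst hj; simp
    · simp [hj]
  simp only [Rf]
  rw [e0, hh, CO_pd hh i, map_sub, map_mul]

lemma CO.sub_smul {f g : (U → ℂ) → ℂ} (hf : CO f) (hg : CO g) (w : ℝ) :
    CO (fun z => f z - w * g z) := by
  intro z
  simp only
  rw [hf, hg, map_sub, map_mul, Complex.conj_ofReal]

lemma cont_Rf {h : (U → ℂ) → ℂ} (hh : Continuous h) (i : U) : Continuous (Rf i h) := by
  unfold Rf
  exact ((continuous_apply i).mul (hh.comp (continuous_id.update i continuous_const))).sub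
    (cont_pd hh i)

lemma pd_Rf_self (i : U) (h : (U → ℂ) → ℂ) : pd i (Rf i h) = Zf i h := by
  funext w
  simp [pd, Rf, Zf]

lemma pd_Rf (i j : U) (hij : i ≠ j) (h : (U → ℂ) → ℂ) : pd j (Rf i h) = Rf i (pd j h) := by
  funext w
  simp only [pd, Rf]
  rw [Function.update_of_ne hij, Function.update_of_ne hij, Function.update_comm hij,
    Function.update_comm hij, Function.update_comm hij, Function.update_comm hij]
  ring

lemma pd_Zf (i j : U) (hij : i ≠ j) (h : (U → ℂ) → ℂ) : pd j (Zf i h) = Zf i (pd j h) := by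
  funext w
  simp only [pd, Zf]
  rw [Function.update_comm hij, Function.update_comm hij]

lemma Rf_zero (i : U) (h : (U → ℂ) → ℂ) : Rf i h 0 = -(pd i h 0) := by
  simp [Rf]

lemma Zf_zero (i : U) (h : (U → ℂ) → ℂ) : Zf i h 0 = h 0 := by
  have : Function.update (0 : U → ℂ) i 0 = 0 := by
    funext j
    by_cases hj : j = i
    · subst hj; simp
    · simp [hj]
  simp [Zf, this]

/-- The product of functions of separate variables. -/
def tens (f h : (U → ℂ) → ℂ) : (U ⊕ U → ℂ) → ℂ :=
  fun q => f (fun i => q (Sum.inl i)) * h (fun i => q (Sum.inr i))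

lemma upd_inl_inl (q : U ⊕ U → ℂ) (i : U) (t : ℂ) :
    (fun j => Function.update q (Sum.inl i) t (Sum.inl j)) =
      Function.update (fun j => q (Sum.inl j)) i t := by
  funext j
  by_cases h : j = i
  · subst h; simp
  · simp [Function.update_of_ne h, Function.update_of_ne (fun hh => h (Sum.inl_injective hh))]

lemma upd_inl_inr (q : U ⊕ U → ℂ) (i : U) (t : ℂ) :
    (fun j => Function.update q (Sum.inl i) t (Sum.inr j)) = fun j => q (Sum.inr j) := by
  funext j; simp

lemma upd_inr_inl (q : U ⊕ U → ℂ) (i : U) (t : ℂ) :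
    (fun j => Function.update q (Sum.inr i) t (Sum.inl j)) = fun j => q (Sum.inl j) := by
  funext j; simp

lemma upd_inr_inr (q : U ⊕ U → ℂ) (i : U) (t : ℂ) :
    (fun j => Function.update q (Sum.inr i) t (Sum.inr j)) =
      Function.update (fun j => q (Sum.inr j)) i t := by
  funext j
  by_cases h : j = i
  · subst h; simp
  · simp [Function.update_of_ne h, Function.update_of_ne (fun hh => h (Sum.inr_injective hh))]

lemma MA_tens {f h : (U → ℂ) → ℂ} (hf : MA f) (hh : MA h) : MA (tens f h) := by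
  intro q i t
  unfold tens
  cases i with
  | inl i =>
    simp only [upd_inl_inl, upd_inl_inr]
    rw [hf _ i t]; ring
  | inr i =>
    simp only [upd_inr_inl, upd_inr_inr]
    rw [hh _ i t]; ring

lemma Stab_tens {f h : (U → ℂ) → ℂ} (hf : Stab f) (hh : Stab h) : Stab (tens f h) := by
  intro q hq
  exact mul_ne_zero (hf _ fun i => hq _) (hh _ fun i => hq _)

lemma CO_tens {f h : (U → ℂ) → ℂ} (hf : CO f) (hh : CO h) : CO (tens f h) := by
  intro q
  have h1 := hf (fun i => q (Sum.inl i))
  have h2 := hh (fun i => q (Sum.inr i))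
  simp only [tens]
  rw [h1, h2, map_mul]

lemma cont_tens {f h : (U → ℂ) → ℂ} (hf : Continuous f) (hh : Continuous h) :
    Continuous (tens f h) := by
  unfold tens
  exact (hf.comp (continuous_pi fun i => continuous_apply _)).mul
    (hh.comp (continuous_pi fun i => continuous_apply _))

lemma pd_tens_inl (i : U) (f h : (U → ℂ) → ℂ) : pd (Sum.inl i) (tens f h) = tens (pd i f) h := by
  funext q
  simp only [pd, tens, upd_inl_inl, upd_inl_inr]; ring

lemma pd_tens_inr (i : U) (f h : (U → ℂ) → ℂ) : pd (Sum.inr i) (tens f h) = tens f (pd i h) := by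
  funext q
  simp only [pd, tens, upd_inr_inl, upd_inr_inr]; ring

/-- The Lieb-Sokal operator in the variable `i` of both copies. -/
def TT (i : U) (Q : (U ⊕ U → ℂ) → ℂ) : (U ⊕ U → ℂ) → ℂ :=
  fun q => Rf (Sum.inr i) Q q -
    ((1 : ℝ) : ℂ) * pd (Sum.inl i) (pd (Sum.inr i) (Rf (Sum.inr i) Q)) q

lemma MA_TT (i : U) {Q : (U ⊕ U → ℂ) → ℂ} (hQ : MA Q) : MA (TT i Q) :=
  (MA_Rf hQ _).sub_smul (((MA_Rf hQ _).pd _).pd _) _

lemma Stab_TT (i : U) {Q : (U ⊕ U → ℂ) → ℂ} (hQ : MA Q) (hs : Stab Q) : Stab (TT i Q) :=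
  Stab.op (MA_Rf hQ _) (Stab_Rf hQ hs _) (by simp) zero_le_one

lemma CO_TT (i : U) {Q : (U ⊕ U → ℂ) → ℂ} (hQ : CO Q) : CO (TT i Q) :=
  (CO_Rf hQ _).sub_smul (CO_pd (CO_pd (CO_Rf hQ _) _) _) _

lemma cont_TT (i : U) {Q : (U ⊕ U → ℂ) → ℂ} (hQ : Continuous Q) : Continuous (TT i Q) :=
  (cont_Rf hQ _).sub (continuous_const.mul (cont_pd (cont_pd (cont_Rf hQ _) _) _))

lemma Rf_tens (i : U) (f h : (U → ℂ) → ℂ) : Rf (Sum.inr i) (tens f h) = tens f (Rf i h) := by
  funext q
  unfold Rf
  rw [pd_tens_inr]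
  simp only [tens, upd_inr_inl, upd_inr_inr]
  ring

lemma TT_tens (i : U) (f h : (U → ℂ) → ℂ) :
    TT i (tens f h) = fun q => tens f (Rf i h) q - tens (pd i f) (Zf i h) q := by
  funext q
  unfold TT
  rw [Rf_tens, pd_tens_inr, pd_tens_inl, pd_Rf_self]
  simp

lemma TT_sub (i : U) (A B : (U ⊕ U → ℂ) → ℂ) :
    TT i (fun q => A q - B q) = fun q => TT i A q - TT i B q := by
  funext q
  simp only [TT, Rf, pd]
  ring

lemma tens_elim (f h : (U → ℂ) → ℂ) (z : U → ℂ) : tens f h (Sum.elim z 0) = f z * h 0 := by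
  unfold tens
  congr 1

end H990SF
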