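import Mathlib
import Pool.Agent.H990R2.SF.LS

/-!
The four-variable inequality for real stable multi-affine functions.
-/

set_option linter.unusedSectionVars false
set_option linter.unusedSimpArgs false

namespace H990SF

open Finset Complex

variable {U : Type*} [DecidableEq U]

lemma ng_zero (f : (U → ℂ) → ℂ) : ng f 0 = f 0 := by simp [ng]

lemma ng1 {f : (U → ℂ) → ℂ} (hf : MA f) (a : U) : pd a (ng f) 0 = -(pd a f 0) := by
  rw [pd_ng hf]; beta_reduce; rw [ng_zero]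

lemma ng2 {f : (U → ℂ) → ℂ} (hf : MA f) (a b : U) : pd a (pd b (ng f)) 0 = pd a (pd b f) 0 := by
  rw [pd_ng hf, pd_neg]; beta_reduce; rw [ng1 (hf.pd b), neg_neg]

lemma ng3 {f : (U → ℂ) → ℂ} (hf : MA f) (a b c : U) :
    pd a (pd b (pd c (ng f))) 0 = -(pd a (pd b (pd c f)) 0) := by
  rw [pd_ng hf, pd_neg, pd_neg]; beta_reduce; rw [ng2 (hf.pd c)]

lemma ng4 {f : (U → ℂ) → ℂ} (hf : MA f) (a b c d : U) :
    pd a (pd b (pd c (pd d (ng f)))) 0 = pd a (pd b (pd c (pd d f))) 0 := by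
  rw [pd_ng hf, pd_neg, pd_neg, pd_neg]; beta_reduce; rw [ng3 (hf.pd d), neg_neg]

/-- The combination of the derivatives of `f`. -/
def PP (f : (U → ℂ) → ℂ) (p q r t : U) : (U → ℂ) → ℂ := fun z =>
  (pd p (pd q (pd r (pd t f))) 0) * f z
  - (pd q (pd r (pd t f)) 0) * pd p f z
  - (pd p (pd r (pd t f)) 0) * pd q f z
  - (pd p (pd q (pd t f)) 0) * pd r f z
  - (pd p (pd q (pd r f)) 0) * pd t f z
  + (pd r (pd t f) 0) * pd p (pd q f) z
  + (pd q (pd t f) 0) * pd p (pd r f) z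
  + (pd q (pd r f) 0) * pd p (pd t f) z
  + (pd p (pd t f) 0) * pd q (pd r f) z
  + (pd p (pd r f) 0) * pd q (pd t f) z
  + (pd p (pd q f) 0) * pd r (pd t f) z
  - (pd t f 0) * pd p (pd q (pd r f)) z
  - (pd r f 0) * pd p (pd q (pd t f)) z
  - (pd q f 0) * pd p (pd r (pd t f)) z
  - (pd p f 0) * pd q (pd r (pd t f)) z
  + (f 0) * pd p (pd q (pd r (pd t f))) z

theorem TT4_eq {f : (U → ℂ) → ℂ} (hf : MA f) {p q r t : U} (hpq : p ≠ q) (hpr : p ≠ r)
    (hpt : p ≠ t) (hqr : q ≠ r) (hqt : q ≠ t) (hrt : r ≠ t) (z : U → ℂ) :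
    TT p (TT q (TT r (TT t (tens f (ng f))))) (Sum.elim z 0) = PP f p q r t z := by
  have c1 : ∀ X : (U → ℂ) → ℂ, pd q (pd p X) = pd p (pd q X) := fun X => pd_comm _ _ _
  have c2 : ∀ X : (U → ℂ) → ℂ, pd r (pd p X) = pd p (pd r X) := fun X => pd_comm _ _ _
  have c3 : ∀ X : (U → ℂ) → ℂ, pd t (pd p X) = pd p (pd t X) := fun X => pd_comm _ _ _
  have c4 : ∀ X : (U → ℂ) → ℂ, pd r (pd q X) = pd q (pd r X) := fun X => pd_comm _ _ _
  have c5 : ∀ X : (U → ℂ) → ℂ, pd t (pd q X) = pd q (pd t X) := fun X => pd_comm _ _ _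
  have c6 : ∀ X : (U → ℂ) → ℂ, pd t (pd r X) = pd r (pd t X) := fun X => pd_comm _ _ _
  simp only [TT_tens, TT_sub, tens_elim]
  simp only [Rf_zero, Zf_zero, pd_Rf _ _ hpq, pd_Rf _ _ hpr, pd_Rf _ _ hpt, pd_Rf _ _ hqr,
    pd_Rf _ _ hqt, pd_Rf _ _ hrt, pd_Rf _ _ hpq.symm, pd_Rf _ _ hpr.symm, pd_Rf _ _ hpt.symm,
    pd_Rf _ _ hqr.symm, pd_Rf _ _ hqt.symm, pd_Rf _ _ hrt.symm,
    pd_Zf _ _ hpq, pd_Zf _ _ hpr, pd_Zf _ _ hpt, pd_Zf _ _ hqr,
    pd_Zf _ _ hqt, pd_Zf _ _ hrt, pd_Zf _ _ hpq.symm, pd_Zf _ _ hpr.symm, pd_Zf _ _ hpt.symm,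
    pd_Zf _ _ hqr.symm, pd_Zf _ _ hqt.symm, pd_Zf _ _ hrt.symm]
  simp only [c1, c2, c3, c4, c5, c6]
  simp only [ng_zero, ng1 hf, ng2 hf, ng3 hf, ng4 hf]
  unfold PP
  ring

lemma pd_lin16 (i : U) (g1 g2 g3 g4 g5 g6 g7 g8 g9 g10 g11 g12 g13 g14 g15 g16 : (U → ℂ) → ℂ)
    (c1 c2 c3 c4 c5 c6 c7 c8 c9 c10 c11 c12 c13 c14 c15 c16 : ℂ) :
    pd i (fun z => c1 * g1 z - c2 * g2 z - c3 * g3 z - c4 * g4 z - c5 * g5 z + c6 * g6 z
      + c7 * g7 z + c8 * g8 z + c9 * g9 z + c10 * g10 z + c11 * g11 z - c12 * g12 z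
      - c13 * g13 z - c14 * g14 z - c15 * g15 z + c16 * g16 z) =
    fun z => c1 * pd i g1 z - c2 * pd i g2 z - c3 * pd i g3 z - c4 * pd i g4 z - c5 * pd i g5 z
      + c6 * pd i g6 z + c7 * pd i g7 z + c8 * pd i g8 z + c9 * pd i g9 z + c10 * pd i g10 z
      + c11 * pd i g11 z - c12 * pd i g12 z - c13 * pd i g13 z - c14 * pd i g14 z
      - c15 * pd i g15 z + c16 * pd i g16 z := by
  funext z; simp only [pd]; ring

lemma pd_elim (i : U) (F : (U ⊕ U → ℂ) → ℂ) (z y : U → ℂ) :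
    pd (Sum.inl i) F (Sum.elim z y) = pd i (fun z => F (Sum.elim z y)) z := by
  have e : ∀ t : ℂ, Function.update (Sum.elim z y) (Sum.inl i) t =
      Sum.elim (Function.update z i t) y := by
    intro t; funext k
    cases k with
    | inl j =>
      by_cases h : j = i
      · subst h; simp
      · simp [Function.update_of_ne h, Function.update_of_ne (fun hh => h (Sum.inl_injective hh))]
    | inr j => simp
  simp only [pd, e]

/-- The Rayleigh inequality for the function `PP`. -/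
theorem PP_rayleigh {f : (U → ℂ) → ℂ} (hf : MA f) (hs : Stab f) (hc : Continuous f) (hco : CO f)
    {p q r t : U} (hpq : p ≠ q) (hpr : p ≠ r)
    (hpt : p ≠ t) (hqr : q ≠ r) (hqt : q ≠ t) (hrt : r ≠ t) {u v : U} (huv : u ≠ v)
    (x : U → ℝ) :
    0 ≤ (pd u (PP f p q r t) (fun i => (x i : ℂ))).re * (pd v (PP f p q r t) (fun i => (x i : ℂ))).re
      - (PP f p q r t (fun i => (x i : ℂ))).re *
        (pd u (pd v (PP f p q r t)) (fun i => (x i : ℂ))).re := by
  have m0 := MA_tens hf (MA_ng hf)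
  have s0 := Stab_tens hs (Stab_ng hs hco)
  have o0 := CO_tens hco (CO_ng hco)
  have k0 := cont_tens hc (cont_ng hc)
  have h := rayleigh_of_stab (MA_TT p (MA_TT q (MA_TT r (MA_TT t m0))))
    (Stab_TT p (MA_TT q (MA_TT r (MA_TT t m0))) (Stab_TT q (MA_TT r (MA_TT t m0))
      (Stab_TT r (MA_TT t m0) (Stab_TT t m0 s0))))
    (cont_TT p (cont_TT q (cont_TT r (cont_TT t k0))))
    (CO_TT p (CO_TT q (CO_TT r (CO_TT t o0)))).realOn (a := Sum.inl u) (c := Sum.inl v)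
    (fun h => huv (Sum.inl_injective h)) (Sum.elim x 0)
  have hX : (fun i => ((Sum.elim x (0 : U → ℝ) : U ⊕ U → ℝ) i : ℂ)) =
      Sum.elim (fun i => (x i : ℂ)) 0 := by
    funext i
    cases i <;> simp
  rw [hX] at h
  have e : (fun z => TT p (TT q (TT r (TT t (tens f (ng f))))) (Sum.elim z 0)) =
      PP f p q r t := by
    funext z; exact TT4_eq hf hpq hpr hpt hqr hqt hrt z
  have e1 : ∀ (v : U) (z : U → ℂ), pd (Sum.inl v) (TT p (TT q (TT r (TT t (tens f (ng f))))))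
      (Sum.elim z 0) = pd v (PP f p q r t) z := by
    intro v z; rw [pd_elim, e]
  rw [e1, e1, pd_elim, TT4_eq hf hpq hpr hpt hqr hqt hrt] at h
  have e2 : (fun z => pd (Sum.inl v) (TT p (TT q (TT r (TT t (tens f (ng f))))))
      (Sum.elim z 0)) = pd v (PP f p q r t) := by
    funext z; exact e1 v z
  rw [e2] at h
  exact h

/-- the values of a multi-affine function at a point with two nonzero coordinates -/
lemma eval_two {g : (U → ℂ) → ℂ} (hg : MA g) {r t : U} (hrt : r ≠ t) (a b : ℂ) :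
    g (Function.update (Function.update 0 r a) t b) =
      g 0 + a * pd r g 0 + b * pd t g 0 + a * b * pd r (pd t g) 0 := by
  have h1 := hg.line (Function.update 0 r a) t b
  have h2 := hg.line 0 r a
  have h3 := (hg.pd t).line 0 r a
  rw [h1, h2, h3, Function.update_of_ne (Ne.symm hrt)]
  simp only [Pi.zero_apply, sub_zero]
  ring

/-- **The four-variable inequality.** -/
theorem H_nonneg {f : (U → ℂ) → ℂ} (hf : MA f) (hs : Stab f) (hc : Continuous f) (hco : CO f)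
    {p q r t : U} (hpq : p ≠ q) (hpr : p ≠ r)
    (hpt : p ≠ t) (hqr : q ≠ r) (hqt : q ≠ t) (hrt : r ≠ t)
    (a0 a1 a2 a3 a4 a12 a13 a14 a23 a24 a34 a123 a124 a134 a234 a1234 : ℝ)
    (h0 : f 0 = a0) (h1 : pd p f 0 = a1) (h2 : pd q f 0 = a2) (h3 : pd r f 0 = a3)
    (h4 : pd t f 0 = a4) (h12 : pd p (pd q f) 0 = a12) (h13 : pd p (pd r f) 0 = a13)
    (h14 : pd p (pd t f) 0 = a14) (h23 : pd q (pd r f) 0 = a23) (h24 : pd q (pd t f) 0 = a24)
    (h34 : pd r (pd t f) 0 = a34) (h123 : pd p (pd q (pd r f)) 0 = a123)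
    (h124 : pd p (pd q (pd t f)) 0 = a124) (h134 : pd p (pd r (pd t f)) 0 = a134)
    (h234 : pd q (pd r (pd t f)) 0 = a234) (h1234 : pd p (pd q (pd r (pd t f))) 0 = a1234)
    (hK : a1234 ≠ 0)
    (n12 : a12 * a1234 ≤ a123 * a124) (n13 : a13 * a1234 ≤ a123 * a134)
    (n14 : a14 * a1234 ≤ a124 * a134) (n23 : a23 * a1234 ≤ a123 * a234)
    (n24 : a24 * a1234 ≤ a124 * a234) (n34 : a34 * a1234 ≤ a134 * a234) :
    0 ≤ a0 * a1234 - (a1 * a234 + a2 * a134 + a3 * a124 + a4 * a123)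
      + (a12 * a34 + a13 * a24 + a14 * a23) := by
  have c1 : ∀ X : (U → ℂ) → ℂ, pd q (pd p X) = pd p (pd q X) := fun X => pd_comm _ _ _
  have c2 : ∀ X : (U → ℂ) → ℂ, pd r (pd p X) = pd p (pd r X) := fun X => pd_comm _ _ _
  have c3 : ∀ X : (U → ℂ) → ℂ, pd t (pd p X) = pd p (pd t X) := fun X => pd_comm _ _ _
  have c4 : ∀ X : (U → ℂ) → ℂ, pd r (pd q X) = pd q (pd r X) := fun X => pd_comm _ _ _
  have c5 : ∀ X : (U → ℂ) → ℂ, pd t (pd q X) = pd q (pd t X) := fun X => pd_comm _ _ _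
  have c6 : ∀ X : (U → ℂ) → ℂ, pd t (pd r X) = pd r (pd t X) := fun X => pd_comm _ _ _
  set H := a0 * a1234 - (a1 * a234 + a2 * a134 + a3 * a124 + a4 * a123)
      + (a12 * a34 + a13 * a24 + a14 * a23) with hH
  have z0 : (fun i : U => (((0 : U → ℝ) i : ℝ) : ℂ)) = 0 := by funext i; simp
  have hz : ∀ i : U, pd i (0 : (U → ℂ) → ℂ) = 0 := by intro i; funext z; simp [pd]
  -- value at 0
  have v : PP f p q r t 0 = ((2 * H : ℝ) : ℂ) := by
    unfold PP
    rw [h0, h1, h2, h3, h4, h12, h13, h14, h23, h24, h34, h123, h124, h134, h234, h1234, hH]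
    push_cast; ring
  have key : ∀ u v : U, u ≠ v → ∀ c : ℝ, pd u (PP f p q r t) 0 = 0 →
      pd u (pd v (PP f p q r t)) 0 = ((2 * c : ℝ) : ℂ) → 0 ≤ -(H * c) := by
    intro u w huw c e1 e3
    have := PP_rayleigh hf hs hc hco hpq hpr hpt hqr hqt hrt huw 0
    rw [z0, e1, e3, v, Complex.ofReal_re, Complex.ofReal_re, Complex.zero_re, zero_mul] at this
    nlinarith [this]
  have dp : pd p (PP f p q r t) 0 = 0 := by
    unfold PP
    rw [pd_lin16]
    simp only [pd_self, c1, c2, c3, c4, c5, c6, hz, Pi.zero_apply]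
    rw [h0, h1, h2, h3, h4, h12, h13, h14, h23, h24, h34, h123, h124, h134, h234, h1234]
    ring
  have dq : pd q (PP f p q r t) 0 = 0 := by
    unfold PP
    rw [pd_lin16]
    simp only [pd_self, c1, c2, c3, c4, c5, c6, hz, Pi.zero_apply]
    rw [h0, h1, h2, h3, h4, h12, h13, h14, h23, h24, h34, h123, h124, h134, h234, h1234]
    ring
  have dr : pd r (PP f p q r t) 0 = 0 := by
    unfold PP
    rw [pd_lin16]
    simp only [pd_self, c1, c2, c3, c4, c5, c6, hz, Pi.zero_apply]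
    rw [h0, h1, h2, h3, h4, h12, h13, h14, h23, h24, h34, h123, h124, h134, h234, h1234]
    ring
  have dd12 : pd p (pd q (PP f p q r t)) 0 =
      ((2 * (a12 * a1234 - a123 * a124) : ℝ) : ℂ) := by
    unfold PP
    rw [pd_lin16, pd_lin16]
    simp only [pd_self, c1, c2, c3, c4, c5, c6, hz, Pi.zero_apply]
    rw [h0, h1, h2, h3, h4, h12, h13, h14, h23, h24, h34, h123, h124, h134, h234, h1234]
    push_cast; ring
  have dd13 : pd p (pd r (PP f p q r t)) 0 =
      ((2 * (a13 * a1234 - a123 * a134) : ℝ) : ℂ) := by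
    unfold PP
    rw [pd_lin16, pd_lin16]
    simp only [pd_self, c1, c2, c3, c4, c5, c6, hz, Pi.zero_apply]
    rw [h0, h1, h2, h3, h4, h12, h13, h14, h23, h24, h34, h123, h124, h134, h234, h1234]
    push_cast; ring
  have dd14 : pd p (pd t (PP f p q r t)) 0 =
      ((2 * (a14 * a1234 - a124 * a134) : ℝ) : ℂ) := by
    unfold PP
    rw [pd_lin16, pd_lin16]
    simp only [pd_self, c1, c2, c3, c4, c5, c6, hz, Pi.zero_apply]
    rw [h0, h1, h2, h3, h4, h12, h13, h14, h23, h24, h34, h123, h124, h134, h234, h1234]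
    push_cast; ring
  have dd23 : pd q (pd r (PP f p q r t)) 0 =
      ((2 * (a23 * a1234 - a123 * a234) : ℝ) : ℂ) := by
    unfold PP
    rw [pd_lin16, pd_lin16]
    simp only [pd_self, c1, c2, c3, c4, c5, c6, hz, Pi.zero_apply]
    rw [h0, h1, h2, h3, h4, h12, h13, h14, h23, h24, h34, h123, h124, h134, h234, h1234]
    push_cast; ring
  have dd24 : pd q (pd t (PP f p q r t)) 0 =
      ((2 * (a24 * a1234 - a124 * a234) : ℝ) : ℂ) := by
    unfold PP
    rw [pd_lin16, pd_lin16]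
    simp only [pd_self, c1, c2, c3, c4, c5, c6, hz, Pi.zero_apply]
    rw [h0, h1, h2, h3, h4, h12, h13, h14, h23, h24, h34, h123, h124, h134, h234, h1234]
    push_cast; ring
  have dd34 : pd r (pd t (PP f p q r t)) 0 =
      ((2 * (a34 * a1234 - a134 * a234) : ℝ) : ℂ) := by
    unfold PP
    rw [pd_lin16, pd_lin16]
    simp only [pd_self, c1, c2, c3, c4, c5, c6, hz, Pi.zero_apply]
    rw [h0, h1, h2, h3, h4, h12, h13, h14, h23, h24, h34, h123, h124, h134, h234, h1234]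
    push_cast; ring
  by_contra hneg
  push Not at hneg
  have k12 := key p q hpq _ dp dd12
  have k13 := key p r hpr _ dp dd13
  have k14 := key p t hpt _ dp dd14
  have k23 := key q r hqr _ dq dd23
  have k24 := key q t hqt _ dq dd24
  have k34 := key r t hrt _ dr dd34
  have zero_of : ∀ c : ℝ, c ≤ 0 → 0 ≤ -(H * c) → c = 0 := by
    intro c hc hk
    by_contra hne
    have hc' : c < 0 := lt_of_le_of_ne hc hne
    nlinarith [mul_pos_of_neg_of_neg hneg hc']
  have e12 := zero_of _ (by linarith) k12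
  have e13 := zero_of _ (by linarith) k13
  have e14 := zero_of _ (by linarith) k14
  have e23 := zero_of _ (by linarith) k23
  have e24 := zero_of _ (by linarith) k24
  have e34 := zero_of _ (by linarith) k34
  -- the second point
  set x : U → ℝ := Function.update (Function.update 0 r 1) t (-1) with hx
  have hX : (fun i => (x i : ℂ)) =
      Function.update (Function.update (0 : U → ℂ) r 1) t (-1) := by
    rw [hx]
    have e1 := ofReal_update (Function.update (0 : U → ℝ) r 1) t (-1)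
    have e2 := ofReal_update (0 : U → ℝ) r 1
    rw [← e1, ← e2, z0]
    simp
  have R := PP_rayleigh hf hs hc hco hpq hpr hpt hqr hqt hrt hpq x
  rw [hX] at R
  have ev : ∀ g : (U → ℂ) → ℂ, MA g → g (Function.update (Function.update 0 r 1) t (-1)) =
      g 0 + 1 * pd r g 0 + (-1) * pd t g 0 + 1 * (-1) * pd r (pd t g) 0 :=
    fun g hg => eval_two hg hrt 1 (-1)
  have V : PP f p q r t (Function.update (Function.update 0 r 1) t (-1)) =
      ((2 * H - 2 * (a34 * a1234 - a134 * a234) : ℝ) : ℂ) := by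
    unfold PP
    rw [ev _ hf, ev _ (hf.pd p), ev _ (hf.pd q), ev _ (hf.pd r), ev _ (hf.pd t),
      ev _ ((hf.pd q).pd p), ev _ ((hf.pd r).pd p), ev _ ((hf.pd t).pd p), ev _ ((hf.pd r).pd q),
      ev _ ((hf.pd t).pd q), ev _ ((hf.pd t).pd r), ev _ (((hf.pd r).pd q).pd p),
      ev _ (((hf.pd t).pd q).pd p), ev _ (((hf.pd t).pd r).pd p), ev _ (((hf.pd t).pd r).pd q),
      ev _ ((((hf.pd t).pd r).pd q).pd p)]
    simp only [pd_self, c1, c2, c3, c4, c5, c6, hz, Pi.zero_apply]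
    rw [h0, h1, h2, h3, h4, h12, h13, h14, h23, h24, h34, h123, h124, h134, h234, h1234, hH]
    push_cast; ring
  have Dp : pd p (PP f p q r t) (Function.update (Function.update 0 r 1) t (-1)) =
      ((2 * (a13 * a1234 - a123 * a134) - 2 * (a14 * a1234 - a124 * a134) : ℝ) : ℂ) := by
    unfold PP
    rw [pd_lin16]
    simp only [pd_self, c1, c2, c3, c4, c5, c6, hz, Pi.zero_apply]
    rw [ev _ (hf.pd p), 
      ev _ ((hf.pd q).pd p), ev _ ((hf.pd r).pd p), ev _ ((hf.pd t).pd p), 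
      ev _ (((hf.pd r).pd q).pd p),
      ev _ (((hf.pd t).pd q).pd p), ev _ (((hf.pd t).pd r).pd p), 
      ev _ ((((hf.pd t).pd r).pd q).pd p)]
    simp only [pd_self, c1, c2, c3, c4, c5, c6, hz, Pi.zero_apply]
    rw [h0, h1, h2, h3, h4, h12, h13, h14, h23, h24, h34, h123, h124, h134, h234, h1234]
    push_cast; ring
  have Dpq : pd p (pd q (PP f p q r t)) (Function.update (Function.update 0 r 1) t (-1)) =
      ((2 * (a12 * a1234 - a123 * a124) - a1234 ^ 2 : ℝ) : ℂ) := by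
    unfold PP
    rw [pd_lin16, pd_lin16]
    simp only [pd_self, c1, c2, c3, c4, c5, c6, hz, Pi.zero_apply]
    rw [ev _ ((hf.pd q).pd p), ev _ (((hf.pd r).pd q).pd p),
      ev _ (((hf.pd t).pd q).pd p), ev _ ((((hf.pd t).pd r).pd q).pd p)]
    simp only [pd_self, c1, c2, c3, c4, c5, c6, hz, Pi.zero_apply]
    rw [h0, h1, h2, h3, h4, h12, h13, h14, h23, h24, h34, h123, h124, h134, h234, h1234]
    push_cast; ring
  rw [V, Dp, Dpq, Complex.ofReal_re, Complex.ofReal_re, Complex.ofReal_re, e13, e14, e12, e34]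
    at R
  have hK2 : 0 < a1234 ^ 2 := by positivity
  nlinarith [mul_pos_of_neg_of_neg hneg (neg_neg_of_pos hK2), R]

end H990SF
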