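import Mathlib
import Pool.Agent.H990R2.SF.LS2
import Pool.Agent.H990R2.SF.FourThirds

/-!
The four-point inequality for weighted forests.
-/

set_option linter.unusedSectionVars false
set_option linter.unusedSimpArgs false

namespace H990SF

open Finset Complex

section phi

variable {U : Type*} [Fintype U] [DecidableEq U]

lemma CO_D (r : U) (E : List (U × U × ℂ)) (hE : NN E) : CO (D r E) := by
  intro z
  unfold D
  rw [RingHom.map_det]
  congr 1
  ext i j
  simp only [RingHom.mapMatrix_apply, Matrix.map_apply, Matrix.add_apply, map_add,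
    Lap_real r E hE, Matrix.diagonal_apply]
  congr 1
  split_ifs <;> simp

lemma CO_ops (r : U) (E : List (U × U × ℂ)) (hE : NN E) {f : (U → ℂ) → ℂ}
    (hs : CO f) : CO (ops r E f) := by
  induction E with
  | nil => exact hs
  | cons e E ih =>
    have ih' := ih (NN_tail _ _ hE)
    obtain ⟨w, hw, hwe⟩ := hE e List.mem_cons_self
    rw [ops_cons]
    unfold op
    split_ifs with h
    · exact ih'
    · rw [hwe]
      exact CO.sub_smul ih' (CO_pd (CO_pd ih' _) _) w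

lemma CO_Phi (r : U) (E : List (U × U × ℂ)) (hE : NN E) : CO (Phi r E) :=
  CO_ops r E hE (CO_D r E hE)

lemma pd_Phi (r v : U) (hv : v ≠ r) (E : List (U × U × ℂ)) :
    pd v (Phi r E) = fun z => Phi r (rel (mg r v) E) (S0 v z) := by
  unfold Phi
  rw [← ops_pd]
  have h : pd v (D r E) = fun z => D r (rel (mg r v) E) (S0 v z) := by
    funext z; exact pd_D_root r v hv E z
  rw [h, ops_comp_S0]

lemma S0_one (v : U) : S0 v (1 : U → ℂ) = 1 := by
  funext i; unfold S0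
  by_cases hi : i = v
  · subst hi; simp
  · simp [hi]

lemma pd_Phi1 (r p : U) (hp : p ≠ r) (E : List (U × U × ℂ)) :
    pd p (Phi r E) 1 = Phi r (rel (mg r p) E) 1 := by
  rw [pd_Phi r p hp]; beta_reduce; rw [S0_one]

lemma pd_Phi2 (r p q : U) (hp : p ≠ r) (hq : q ≠ r) (hpq : p ≠ q) (E : List (U × U × ℂ)) :
    pd p (pd q (Phi r E)) 1 = Phi r (rel (mg r p) (rel (mg r q) E)) 1 := by
  rw [pd_Phi r q hq, pd_comp_S0 q p hpq]; beta_reduce; rw [S0_one, pd_Phi1 r p hp]

lemma pd_Phi3 (r p q s : U) (hp : p ≠ r) (hq : q ≠ r) (hs : s ≠ r) (hpq : p ≠ q)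
    (hps : p ≠ s) (hqs : q ≠ s) (E : List (U × U × ℂ)) :
    pd p (pd q (pd s (Phi r E))) 1 =
      Phi r (rel (mg r p) (rel (mg r q) (rel (mg r s) E))) 1 := by
  rw [pd_Phi r s hs, pd_comp_S0 s q hqs, pd_comp_S0 s p hps]; beta_reduce
  rw [S0_one, pd_Phi2 r p q hp hq hpq]

lemma pd_Phi4 (r p q s t : U) (hp : p ≠ r) (hq : q ≠ r) (hs : s ≠ r) (ht : t ≠ r) (hpq : p ≠ q)
    (hps : p ≠ s) (hpt : p ≠ t) (hqs : q ≠ s) (hqt : q ≠ t) (hst : s ≠ t)
    (E : List (U × U × ℂ)) :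
    pd p (pd q (pd s (pd t (Phi r E)))) 1 =
      Phi r (rel (mg r p) (rel (mg r q) (rel (mg r s) (rel (mg r t) E)))) 1 := by
  rw [pd_Phi r t ht, pd_comp_S0 t s hst, pd_comp_S0 t q hqt, pd_comp_S0 t p hpt]; beta_reduce
  rw [S0_one, pd_Phi3 r p q s hp hq hs hpq hps hqs]

/-- Rayleigh for the second derivatives. -/
lemma rayleigh2 (r p q s t : U) (hp : p ≠ r) (hq : q ≠ r) (hst : s ≠ t) (hpq : p ≠ q)
    (hps : p ≠ s) (hpt : p ≠ t) (hqs : q ≠ s) (hqt : q ≠ t)
    (E : List (U × U × ℂ)) (hE : NN E) :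
    (pd p (pd q (Phi r E)) 1).re * (pd p (pd q (pd s (pd t (Phi r E)))) 1).re ≤
      (pd p (pd q (pd s (Phi r E))) 1).re * (pd p (pd q (pd t (Phi r E))) 1).re := by
  set E2 := rel (mg r p) (rel (mg r q) E) with hE2
  have hNN : NN E2 := NN_rel _ _ (NN_rel _ _ hE)
  have h := rayleigh_of_stab (MA_Phi r E2) (Stab_Phi r E2 hNN) (cont_Phi r E2)
    (RealOn_Phi r E2 hNN) hst (fun _ => 1)
  have h1 : (fun i : U => (((fun _ => 1 : U → ℝ) i : ℝ) : ℂ)) = 1 := by funext i; simp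
  rw [h1] at h
  have e0 : pd p (pd q (Phi r E)) = fun z => Phi r E2 (S0 p (S0 q z)) := by
    rw [pd_Phi r q hq, pd_comp_S0 q p hpq, pd_Phi r p hp]
  have e1 : pd p (pd q (Phi r E)) 1 = Phi r E2 1 := by
    rw [e0]; beta_reduce; rw [S0_one, S0_one]
  have es : ∀ v : U, v ≠ p → v ≠ q → ∀ G : (U → ℂ) → ℂ,
      pd v (fun z => G (S0 p (S0 q z))) = fun z => pd v G (S0 p (S0 q z)) := by
    intro v hvp hvq G
    have : pd v (fun z => (fun y => G (S0 p y)) (S0 q z)) =
        fun z => pd v (fun y => G (S0 p y)) (S0 q z) :=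
      pd_comp_S0 (h := fun y => G (S0 p y)) q v hvq
    rw [this, pd_comp_S0 p v hvp]
  have e2 : pd p (pd q (pd s (Phi r E))) 1 = pd s (Phi r E2) 1 := by
    rw [pd_comm q s, pd_comm p s, e0, es s (Ne.symm hps) (Ne.symm hqs)]
    beta_reduce; rw [S0_one, S0_one]
  have e3 : pd p (pd q (pd t (Phi r E))) 1 = pd t (Phi r E2) 1 := by
    rw [pd_comm q t, pd_comm p t, e0, es t (Ne.symm hpt) (Ne.symm hqt)]
    beta_reduce; rw [S0_one, S0_one]
  have e4 : pd p (pd q (pd s (pd t (Phi r E)))) 1 = pd s (pd t (Phi r E2)) 1 := by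
    rw [pd_comm q s, pd_comm p s, pd_comm q t, pd_comm p t, e0,
      es t (Ne.symm hpt) (Ne.symm hqt), es s (Ne.symm hps) (Ne.symm hqs)]
    beta_reduce; rw [S0_one, S0_one]
  rw [e1, e2, e3, e4]
  linarith

end phi

section tr

variable {U : Type*} [DecidableEq U]

/-- translation by the all-ones vector -/
def tr (f : (U → ℂ) → ℂ) : (U → ℂ) → ℂ := fun z => f (z + 1)

lemma upd_add_one (z : U → ℂ) (i : U) (t : ℂ) :
    Function.update z i t + 1 = Function.update (z + 1) i (t + 1) := by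
  funext j
  by_cases h : j = i
  · subst h; simp
  · simp [h]

lemma MA_tr {f : (U → ℂ) → ℂ} (hf : MA f) : MA (tr f) := by
  intro z i t
  simp only [tr, upd_add_one]
  rw [hf (z + 1) i (t + 1), hf (z + 1) i (0 + 1), hf (z + 1) i (1 + 1)]; ring

lemma Stab_tr {f : (U → ℂ) → ℂ} (hs : Stab f) : Stab (tr f) := by
  intro z hz
  exact hs _ (by intro i; simpa using hz i)

lemma CO_tr {f : (U → ℂ) → ℂ} (hs : CO f) : CO (tr f) := by
  intro z
  have := hs (z + 1)
  simp only [tr]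
  rw [← this]
  congr 1
  funext i; simp

lemma cont_tr {f : (U → ℂ) → ℂ} (hs : Continuous f) : Continuous (tr f) :=
  hs.comp (continuous_id.add continuous_const)

lemma pd_tr {f : (U → ℂ) → ℂ} (hf : MA f) (i : U) : pd i (tr f) = tr (pd i f) := by
  funext z
  simp only [tr, pd, upd_add_one]
  rw [hf (z + 1) i (0 + 1), hf (z + 1) i (1 + 1)]; ring

lemma tr_zero (f : (U → ℂ) → ℂ) : tr f 0 = f 1 := by simp [tr]

end tr

end H990SF
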