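import Mathlib
import Pool.Agent.H990R2.SF.Four

/-!
Forest sums with virtual edges.
-/

set_option linter.unusedSectionVars false
set_option linter.unusedSimpArgs false

namespace H990SF

open Finset

section base

variable {V ι : Type*} [Fintype V] [DecidableEq V] [DecidableEq ι]

/-- endpoints in the graph extended by virtual edges -/
def xa (a : ι → V) : ι ⊕ (V × V) → V := Sum.elim a Prod.fst
def xb (b : ι → V) : ι ⊕ (V × V) → V := Sum.elim b Prod.snd

/-- `F ∪ P` is a forest, `P` a set of virtual edges -/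
def FX (a b : ι → V) (F : Finset ι) (P : Finset (V × V)) : Prop :=
  IsF (xa a) (xb b) (Finset.disjSum F P)

lemma disjSum_insert_right (F : Finset ι) (P : Finset (V × V)) (k : V × V) :
    Finset.disjSum F (insert k P) = insert (Sum.inr k) (Finset.disjSum F P) := by
  ext x
  cases x <;> simp [Finset.inl_mem_disjSum, Finset.inr_mem_disjSum]

lemma gr_empty (a b : ι → V) (F : Finset ι) : gr (xa a) (xb b) (Finset.disjSum F ∅) = gr a b F := by
  unfold gr
  congr 1
  ext x
  simp only [Set.mem_image, Finset.mem_coe]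
  constructor
  · rintro ⟨i, hi, rfl⟩
    cases i with
    | inl i => exact ⟨i, by simpa using hi, rfl⟩
    | inr i => simp at hi
  · rintro ⟨i, hi, rfl⟩
    exact ⟨Sum.inl i, by simpa using hi, rfl⟩

lemma FX_empty (a b : ι → V) (F : Finset ι) : FX a b F ∅ ↔ IsF a b F := by
  unfold FX IsF
  rw [gr_empty]
  refine and_congr ?_ (and_congr_left fun _ => ?_)
  · constructor
    · intro h i hi; exact h (Sum.inl i) (by simpa using hi)
    · intro h i hi
      cases i with
      | inl i => exact h i (by simpa using hi)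
      | inr i => simp at hi
  · constructor
    · intro h i hi j hj hij
      have hi' : Sum.inl i ∈ ((Finset.disjSum F (∅ : Finset (V × V)) : Finset (ι ⊕ (V × V))) :
          Set (ι ⊕ (V × V))) := by simpa using hi
      have hj' : Sum.inl j ∈ ((Finset.disjSum F (∅ : Finset (V × V)) : Finset (ι ⊕ (V × V))) :
          Set (ι ⊕ (V × V))) := by simpa using hj
      exact Sum.inl_injective (h hi' hj' hij)
    · intro h i hi j hj hij
      cases i with
      | inl i =>
        cases j with
        | inl j => exact congrArg Sum.inl (h (by simpa using hi) (by simpa using hj) hij)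
        | inr j => simp at hj
      | inr i => simp at hi

lemma FX_insert (a b : ι → V) (F : Finset ι) (P : Finset (V × V)) (x y : V) (h : (x, y) ∉ P) :
    FX a b F (insert (x, y) P) ↔
      FX a b F P ∧ ¬ (gr (xa a) (xb b) (Finset.disjSum F P)).Reachable x y := by
  unfold FX
  rw [disjSum_insert_right]
  constructor
  · intro h1
    refine ⟨IsF_mono _ _ (Finset.subset_insert _ _) h1, ?_⟩
    exact not_reach_of_IsF_insert (xa a) (xb b) (i := Sum.inr (x, y)) (by simpa using h) h1
  · rintro ⟨h1, h2⟩
    exact IsF_insert (xa a) (xb b) (i := Sum.inr (x, y)) h1 h2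

lemma gr_insert' (a b : ι → V) (F : Finset ι) (P : Finset (V × V)) (x y : V) :
    gr (xa a) (xb b) (Finset.disjSum F (insert (x, y) P)) =
      gr (xa a) (xb b) (Finset.disjSum F P) ⊔ SimpleGraph.edge x y := by
  rw [disjSum_insert_right, gr_insert]
  rfl

open Classical in
/-- The weighted sum over the forests `F ⊆ E` such that `F ∪ P` is a forest. -/
noncomputable def GS (a b : ι → V) (E : Finset ι) (w : ι → ℝ) (P : Finset (V × V)) : ℝ :=
  ∑ F ∈ E.powerset, if FX a b F P then ∏ i ∈ F, w i else 0

/-- `c` labels the components of the virtual forest `P`. -/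
def Good (a b : ι → V) (P : Finset (V × V)) (c : V → Option V) : Prop :=
  FX a b ∅ P ∧ Ker (xa a) (xb b) (Finset.disjSum ∅ P) c

lemma Good_empty (a b : ι → V) : Good a b ∅ some := by
  have hgr0 : gr a b (∅ : Finset ι) = ⊥ := by simp [gr]
  refine ⟨?_, ?_⟩
  · rw [FX_empty]
    refine ⟨by simp, by simp, ?_⟩
    rw [hgr0]; exact SimpleGraph.isAcyclic_bot
  · intro u v
    rw [gr_empty, hgr0, SimpleGraph.reachable_bot]; simp

lemma Good_root (a b : ι → V) (P : Finset (V × V)) (c : V → Option V) (h : Good a b P c)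
    (hr : ∀ v, c v ≠ none) (x : Option V) : Good a b P (mg none x ∘ c) :=
  ⟨h.1, Ker_root none x _ _ _ c h.2 hr⟩

lemma Good_step (a b : ι → V) (P : Finset (V × V)) (c : V → Option V) (h : Good a b P c)
    (x y : V) (hx : c x = some x) (hy : c y = none) :
    Good a b (insert (x, y) P) (mg none (some x) ∘ c) := by
  have hnr : ¬ (gr (xa a) (xb b) (Finset.disjSum ∅ P)).Reachable x y := by
    rw [← h.2, hx, hy]; simp
  have hnP : (x, y) ∉ P := by
    intro hP
    have := Ker_mem (xa a) (xb b) (Finset.disjSum ∅ P) c h.2 (Sum.inr (x, y)) (by simpa using hP)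
    have h2 : c x = c y := this
    rw [hx, hy] at h2
    simp at h2
  refine ⟨(FX_insert a b ∅ P x y hnP).2 ⟨h.1, hnr⟩, ?_⟩
  intro u v
  rw [Function.comp_apply, Function.comp_apply, mg_eq_iff, gr_insert', reach_sup_edge,
    ← h.2, ← h.2, ← h.2, ← h.2, ← h.2, hx, hy]
  constructor
  · rintro (h | ⟨h1, h2⟩ | ⟨h1, h2⟩)
    · exact Or.inl h
    · exact Or.inr (Or.inr ⟨h1, h2.symm⟩)
    · exact Or.inr (Or.inl ⟨h1, h2.symm⟩)
  · rintro (h | ⟨h1, h2⟩ | ⟨h1, h2⟩)
    · exact Or.inl h
    · exact Or.inr (Or.inr ⟨h1, h2.symm⟩)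
    · exact Or.inr (Or.inl ⟨h1, h2.symm⟩)

lemma GS_lab (a b : ι → V) (E : Finset ι) (w : ι → ℝ) (P : Finset (V × V)) (c : V → Option V)
    (h : Good a b P c) :
    Phi none (ll a b w c E.toList) 1 = ((GS a b E w P : ℝ) : ℂ) := by
  classical
  have hnd : (E.toList.map (Sum.inl : ι → ι ⊕ (V × V))).Nodup :=
    (Finset.nodup_toList E).map Sum.inl_injective
  have hdis : ∀ i ∈ E.toList.map (Sum.inl : ι → ι ⊕ (V × V)), i ∉ Finset.disjSum ∅ P := by
    intro i hi
    rw [List.mem_map] at hi
    obtain ⟨j, -, rfl⟩ := hi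
    simp
  have hm := forest_sum_lab (none : Option V) (xa a) (xb b)
    (Sum.elim (fun i => (w i : ℂ)) (fun _ => 0)) (E.toList.map Sum.inl) (Finset.disjSum ∅ P) c
    hnd hdis h.1 h.2
  have e1 : (E.toList.map (Sum.inl : ι → ι ⊕ (V × V))).map (fun i => (c (xa a i), c (xb b i),
      (Sum.elim (fun i => (w i : ℂ)) (fun _ => 0) : ι ⊕ (V × V) → ℂ) i)) =
      ll a b w c E.toList := by
    unfold ll
    rw [List.map_map]
    rfl
  rw [e1] at hm
  rw [← hm]
  unfold GS
  push_cast
  symm
  refine Finset.sum_nbij' (fun F => Finset.disjSum F ∅) (fun F' => F'.toLeft) ?_ ?_ ?_ ?_ ?_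
  · intro F hF
    rw [Finset.mem_powerset] at hF ⊢
    intro x hx
    rw [List.mem_toFinset, List.mem_map]
    cases x with
    | inl i => exact ⟨i, by simpa using hF (by simpa using hx), rfl⟩
    | inr i => simp at hx
  · intro F hF
    rw [Finset.mem_powerset] at hF ⊢
    intro x hx
    have := hF (Finset.mem_toLeft.1 hx)
    rw [List.mem_toFinset, List.mem_map] at this
    obtain ⟨j, hj, hjx⟩ := this
    rw [Sum.inl.injEq] at hjx
    rw [← hjx]; simpa using hj
  · intro F _
    ext x; simp
  · intro F hF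
    rw [Finset.mem_powerset] at hF
    ext x
    cases x with
    | inl i => simp
    | inr i =>
      simp only [Finset.inr_mem_disjSum, Finset.notMem_empty, false_iff]
      intro hx
      have := hF hx
      rw [List.mem_toFinset, List.mem_map] at this
      obtain ⟨j, -, hj⟩ := this
      simp at hj
  · intro F _
    have e2 : Finset.disjSum (∅ : Finset ι) P ∪ Finset.disjSum F ∅ = Finset.disjSum F P := by
      ext x; cases x <;> simp
    have e3 : ∏ i ∈ Finset.disjSum F (∅ : Finset (V × V)),
        (Sum.elim (fun i => (w i : ℂ)) (fun _ => 0) : ι ⊕ (V × V) → ℂ) i =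
        ∏ i ∈ F, (w i : ℂ) := by
      rw [Finset.prod_disjSum]; simp
    simp only [e2, e3]
    unfold FX
    split_ifs <;> simp

end base

end H990SF
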