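import Mathlib
import Pool.Agent.H990R2.SF.Lab

/-!
The four-point inequality for weighted forests: the sum over the three perfect matchings of four
vertices of the negative correlation differences is nonnegative.
-/

set_option linter.unusedSectionVars false
set_option linter.unusedSimpArgs false

namespace H990SF

open Finset

section logic

lemma logic_four {V : Type*} (R : V → V → Prop) (hR : Equivalence R) (x : ℝ) (p q r t : V)
    [∀ P : Prop, Decidable P] :
    (if ¬ R r t ∧ ¬ (R p q ∨ R p r ∧ R t q ∨ R p t ∧ R r q) then x else 0)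
    + (if ¬ R q t ∧ ¬ (R p r ∨ R p q ∧ R t r ∨ R p t ∧ R q r) then x else 0)
    + (if ¬ R q r ∧ ¬ (R p t ∨ R p q ∧ R r t ∨ R p r ∧ R q t) then x else 0) =
    (if ¬ R r t ∧ ¬ (R q t ∨ R q r ∨ R q t ∧ R r t) then x else 0)
    + (if ¬ R r t ∧ ¬ (R p t ∨ R p r ∨ R p t ∧ R r t) then x else 0)
    + (if ¬ R q t ∧ ¬ (R p t ∨ R p q ∨ R p t ∧ R q t) then x else 0)
    + (if ¬ R q r ∧ ¬ (R p r ∨ R p q ∨ R p r ∧ R q r) then x else 0)
    - (if ¬ R r t ∧ ¬ R q t ∧ ¬ R q r ∧ ¬ R p t ∧ ¬ R p r ∧ ¬ R p q then x else 0) := by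
  have e1 : R t q ↔ R q t := ⟨hR.symm, hR.symm⟩
  have e2 : R r q ↔ R q r := ⟨hR.symm, hR.symm⟩
  have e3 : R t r ↔ R r t := ⟨hR.symm, hR.symm⟩
  have t1 : R p q → R q r → R p r := hR.trans
  have t2 : R p q → R p r → R q r := fun h1 h2 => hR.trans (hR.symm h1) h2
  have t3 : R p r → R q r → R p q := fun h1 h2 => hR.trans h1 (hR.symm h2)
  have t4 : R p q → R q t → R p t := hR.trans
  have t5 : R p q → R p t → R q t := fun h1 h2 => hR.trans (hR.symm h1) h2
  have t6 : R p t → R q t → R p q := fun h1 h2 => hR.trans h1 (hR.symm h2)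
  have t7 : R p r → R r t → R p t := hR.trans
  have t8 : R p r → R p t → R r t := fun h1 h2 => hR.trans (hR.symm h1) h2
  have t9 : R p t → R r t → R p r := fun h1 h2 => hR.trans h1 (hR.symm h2)
  have t10 : R q r → R r t → R q t := hR.trans
  have t11 : R q r → R q t → R r t := fun h1 h2 => hR.trans (hR.symm h1) h2
  have t12 : R q t → R r t → R q r := fun h1 h2 => hR.trans h1 (hR.symm h2)
  rw [e1, e2, e3]
  generalize R p q = A at *
  generalize R p r = B at *
  generalize R p t = C at *
  generalize R q r = D at *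
  generalize R q t = E at *
  generalize R r t = F at *
  by_cases hA : A <;> by_cases hB : B <;> by_cases hC : C <;> by_cases hD : D <;>
    by_cases hE : E <;> by_cases hF : F <;> simp_all

end logic

section main

variable {V ι : Type*} [Fintype V] [DecidableEq V] [DecidableEq ι]

lemma GS_nonneg (a b : ι → V) (E : Finset ι) (w : ι → ℝ) (hw : ∀ i ∈ E, 0 ≤ w i)
    (P : Finset (V × V)) : 0 ≤ GS a b E w P := by
  classical
  unfold GS
  refine Finset.sum_nonneg fun F hF => ?_
  rw [Finset.mem_powerset] at hF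
  split_ifs
  · exact Finset.prod_nonneg fun i hi => hw i (hF hi)
  · exact le_refl _

lemma GS_pos (a b : ι → V) (E : Finset ι) (w : ι → ℝ) (hw : ∀ i ∈ E, 0 ≤ w i)
    (P : Finset (V × V)) (hP : FX a b ∅ P) : 0 < GS a b E w P := by
  classical
  unfold GS
  refine lt_of_lt_of_le zero_lt_one ?_
  have h := Finset.single_le_sum (s := E.powerset)
    (f := fun F => if FX a b F P then ∏ i ∈ F, w i else 0) (fun F hF => by
      rw [Finset.mem_powerset] at hF
      split_ifs
      · exact Finset.prod_nonneg fun i hi => hw i (hF hi)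
      · exact le_refl _) (Finset.empty_mem_powerset E)
  simpa [hP] using h

variable (a b : ι → V) (E : Finset ι) (w : ι → ℝ) (hw : ∀ i ∈ E, 0 ≤ w i)
  {p q r t : V} (hpq : p ≠ q) (hpr : p ≠ r) (hpt : p ≠ t) (hqr : q ≠ r) (hqt : q ≠ t)
  (hrt : r ≠ t)

include hw hpq hpr hpt hqr hqt hrt

theorem four_GS :
    0 ≤ GS a b E w ∅ * GS a b E w (insert (p, t) (insert (q, t) (insert (r, t) ∅)))
      - (GS a b E w ∅ * GS a b E w (insert (q, t) (insert (r, t) ∅))
        + GS a b E w ∅ * GS a b E w (insert (p, t) (insert (r, t) ∅))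
        + GS a b E w ∅ * GS a b E w (insert (p, t) (insert (q, t) ∅))
        + GS a b E w ∅ * GS a b E w (insert (p, r) (insert (q, r) ∅)))
      + (GS a b E w (insert (p, q) ∅) * GS a b E w (insert (r, t) ∅)
        + GS a b E w (insert (p, r) ∅) * GS a b E w (insert (q, t) ∅)
        + GS a b E w (insert (p, t) ∅) * GS a b E w (insert (q, r) ∅)) := by
  set L : List (Option V × Option V × ℂ) := ll a b w some E.toList with hL
  have hNN : NN L := NN_ll a b w some _ (fun i hi => hw i (by simpa using hi))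
  have sn : ∀ v : V, (some v : Option V) ≠ none := by intro v; simp
  have si : ∀ {u v : V}, u ≠ v → (some u : Option V) ≠ some v := by
    intro u v h; simpa using h
  -- labels
  have g0 : Good a b ∅ (some : V → Option V) := Good_empty a b
  have g1 : ∀ x : V, Good a b ∅ (mg none (some x) ∘ some) := fun x =>
    Good_root a b ∅ some g0 (fun v => by simp) _
  have g2 : ∀ x y : V, x ≠ y →
      Good a b (insert (x, y) ∅) (mg none (some x) ∘ (mg none (some y) ∘ some)) := by
    intro x y hxy
    exact Good_step a b ∅ _ (g1 y) x y (by simp [mg, hxy]) (by simp [mg])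
  have g3 : ∀ x y z : V, x ≠ y → x ≠ z → y ≠ z →
      Good a b (insert (x, z) (insert (y, z) ∅))
        (mg none (some x) ∘ (mg none (some y) ∘ (mg none (some z) ∘ some))) := by
    intro x y z hxy hxz hyz
    exact Good_step a b _ _ (g2 y z hyz) x z (by simp [mg, hxy, hxz]) (by simp [mg])
  have g4 : Good a b (insert (p, t) (insert (q, t) (insert (r, t) ∅)))
        (mg none (some p) ∘ (mg none (some q) ∘ (mg none (some r) ∘ (mg none (some t) ∘ some)))) :=
    Good_step a b _ _ (g3 q r t hqr hqt hrt) p t (by simp [mg, hpq, hpr, hpt]) (by simp [mg])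
  -- values
  have v0 : Phi none L 1 = ((GS a b E w ∅ : ℝ) : ℂ) := GS_lab a b E w ∅ some g0
  have v1 : ∀ x : V, pd (some x) (Phi none L) 1 = ((GS a b E w ∅ : ℝ) : ℂ) := by
    intro x
    rw [pd_Phi1 none _ (sn x), hL, rel_ll]
    exact GS_lab a b E w ∅ _ (g1 x)
  have v2 : ∀ x y : V, x ≠ y → pd (some x) (pd (some y) (Phi none L)) 1 =
      ((GS a b E w (insert (x, y) ∅) : ℝ) : ℂ) := by
    intro x y hxy
    rw [pd_Phi2 none _ _ (sn x) (sn y) (si hxy), hL, rel_ll, rel_ll]
    exact GS_lab a b E w _ _ (g2 x y hxy)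
  have v3 : ∀ x y z : V, x ≠ y → x ≠ z → y ≠ z →
      pd (some x) (pd (some y) (pd (some z) (Phi none L))) 1 =
      ((GS a b E w (insert (x, z) (insert (y, z) ∅)) : ℝ) : ℂ) := by
    intro x y z hxy hxz hyz
    rw [pd_Phi3 none _ _ _ (sn x) (sn y) (sn z) (si hxy) (si hxz) (si hyz), hL, rel_ll, rel_ll,
      rel_ll]
    exact GS_lab a b E w _ _ (g3 x y z hxy hxz hyz)
  have v4 : pd (some p) (pd (some q) (pd (some r) (pd (some t) (Phi none L)))) 1 =
      ((GS a b E w (insert (p, t) (insert (q, t) (insert (r, t) ∅))) : ℝ) : ℂ) := by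
    rw [pd_Phi4 none _ _ _ _ (sn p) (sn q) (sn r) (sn t) (si hpq) (si hpr) (si hpt) (si hqr)
      (si hqt) (si hrt), hL, rel_ll, rel_ll, rel_ll, rel_ll]
    exact GS_lab a b E w _ _ g4
  have m := MA_Phi (none : Option V) L
  have w1 : ∀ x : V, pd (some x) (tr (Phi none L)) 0 = pd (some x) (Phi none L) 1 := by
    intro x; rw [pd_tr m, tr_zero]
  have w2 : ∀ x y : V, pd (some x) (pd (some y) (tr (Phi none L))) 0 =
      pd (some x) (pd (some y) (Phi none L)) 1 := by
    intro x y; rw [pd_tr m, pd_tr (m.pd _), tr_zero]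
  have w3 : ∀ x y z : V, pd (some x) (pd (some y) (pd (some z) (tr (Phi none L)))) 0 =
      pd (some x) (pd (some y) (pd (some z) (Phi none L))) 1 := by
    intro x y z; rw [pd_tr m, pd_tr (m.pd _), pd_tr ((m.pd _).pd _), tr_zero]
  have w4 : ∀ x y z u : V,
      pd (some x) (pd (some y) (pd (some z) (pd (some u) (tr (Phi none L))))) 0 =
      pd (some x) (pd (some y) (pd (some z) (pd (some u) (Phi none L)))) 1 := by
    intro x y z u
    rw [pd_tr m, pd_tr (m.pd _), pd_tr ((m.pd _).pd _), pd_tr (((m.pd _).pd _).pd _), tr_zero]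
  have ray : ∀ x y z u : V, x ≠ y → x ≠ z → x ≠ u → y ≠ z → y ≠ u → z ≠ u →
      (pd (some x) (pd (some y) (Phi none L)) 1).re *
        (pd (some x) (pd (some y) (pd (some z) (pd (some u) (Phi none L)))) 1).re ≤
      (pd (some x) (pd (some y) (pd (some z) (Phi none L))) 1).re *
        (pd (some x) (pd (some y) (pd (some u) (Phi none L))) 1).re := by
    intro x y z u hxy hxz hxu hyz hyu hzu
    exact rayleigh2 none _ _ _ _ (sn x) (sn y) (si hzu) (si hxy) (si hxz) (si hxu) (si hyz)
      (si hyu) L hNN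
  have c1 : ∀ X : (Option V → ℂ) → ℂ,
      pd (some q) (pd (some p) X) = pd (some p) (pd (some q) X) := fun X => pd_comm _ _ _
  have c2 : ∀ X : (Option V → ℂ) → ℂ,
      pd (some r) (pd (some p) X) = pd (some p) (pd (some r) X) := fun X => pd_comm _ _ _
  have c3 : ∀ X : (Option V → ℂ) → ℂ,
      pd (some t) (pd (some p) X) = pd (some p) (pd (some t) X) := fun X => pd_comm _ _ _
  have c4 : ∀ X : (Option V → ℂ) → ℂ,
      pd (some r) (pd (some q) X) = pd (some q) (pd (some r) X) := fun X => pd_comm _ _ _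
  have c5 : ∀ X : (Option V → ℂ) → ℂ,
      pd (some t) (pd (some q) X) = pd (some q) (pd (some t) X) := fun X => pd_comm _ _ _
  have c6 : ∀ X : (Option V → ℂ) → ℂ,
      pd (some t) (pd (some r) X) = pd (some r) (pd (some t) X) := fun X => pd_comm _ _ _
  have H := H_nonneg (f := tr (Phi none L)) (p := some p) (q := some q) (r := some r)
    (t := some t) (MA_tr m) (Stab_tr (Stab_Phi none L hNN)) (cont_tr (cont_Phi none L))
    (CO_tr (CO_Phi none L hNN)) (si hpq) (si hpr) (si hpt) (si hqr) (si hqt) (si hrt)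
    _ _ _ _ _ _ _ _ _ _ _ _ _ _ _ _
    ((tr_zero _).trans v0) ((w1 p).trans (v1 p)) ((w1 q).trans (v1 q)) ((w1 r).trans (v1 r))
    ((w1 t).trans (v1 t)) ((w2 p q).trans (v2 p q hpq)) ((w2 p r).trans (v2 p r hpr))
    ((w2 p t).trans (v2 p t hpt)) ((w2 q r).trans (v2 q r hqr)) ((w2 q t).trans (v2 q t hqt))
    ((w2 r t).trans (v2 r t hrt)) ((w3 p q r).trans (v3 p q r hpq hpr hqr))
    ((w3 p q t).trans (v3 p q t hpq hpt hqt)) ((w3 p r t).trans (v3 p r t hpr hpt hrt))
    ((w3 q r t).trans (v3 q r t hqr hqt hrt)) ((w4 p q r t).trans v4)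
    (GS_pos a b E w hw _ g4.1).ne'
    (by
      have := ray p q r t hpq hpr hpt hqr hqt hrt
      rw [v2 p q hpq, v4, v3 p q r hpq hpr hqr, v3 p q t hpq hpt hqt] at this
      simpa using this)
    (by
      have := ray p r q t hpr hpq hpt (Ne.symm hqr) hrt hqt
      simp only [c1, c2, c3, c4, c5, c6] at this
      rw [v2 p r hpr, v4, v3 p q r hpq hpr hqr, v3 p r t hpr hpt hrt] at this
      simpa using this)
    (by
      have := ray p t q r hpt hpq hpr (Ne.symm hqt) (Ne.symm hrt) hqr
      simp only [c1, c2, c3, c4, c5, c6] at this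
      rw [v2 p t hpt, v4, v3 p q t hpq hpt hqt, v3 p r t hpr hpt hrt] at this
      simpa using this)
    (by
      have := ray q r p t hqr (Ne.symm hpq) hqt (Ne.symm hpr) hrt hpt
      simp only [c1, c2, c3, c4, c5, c6] at this
      rw [v2 q r hqr, v4, v3 p q r hpq hpr hqr, v3 q r t hqr hqt hrt] at this
      simpa using this)
    (by
      have := ray q t p r hqt (Ne.symm hpq) hqr (Ne.symm hpt) (Ne.symm hrt) hpr
      simp only [c1, c2, c3, c4, c5, c6] at this
      rw [v2 q t hqt, v4, v3 p q t hpq hpt hqt, v3 q r t hqr hqt hrt] at this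
      simpa using this)
    (by
      have := ray r t p q hrt (Ne.symm hpr) (Ne.symm hqr) (Ne.symm hpt) (Ne.symm hqt) hpq
      simp only [c1, c2, c3, c4, c5, c6] at this
      rw [v2 r t hrt, v4, v3 p r t hpr hpt hrt, v3 q r t hqr hqt hrt] at this
      simpa using this)
  exact H

omit hw

omit hpr hpt hqr hqt hrt hpq in
lemma FX_one (F : Finset ι) (x y : V) :
    FX a b F (insert (x, y) ∅) ↔ IsF a b F ∧ ¬ (gr a b F).Reachable x y := by
  rw [FX_insert _ _ _ _ _ _ (by simp), FX_empty, gr_empty]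

omit hpr hpt hqr hqt hrt hpq in
lemma FX_two (F : Finset ι) (x y z u : V) (h : (x, y) ≠ (z, u)) :
    FX a b F (insert (x, y) (insert (z, u) ∅)) ↔ IsF a b F ∧ ¬ (gr a b F).Reachable z u ∧
      ¬ ((gr a b F).Reachable x y ∨ (gr a b F).Reachable x z ∧ (gr a b F).Reachable u y ∨
        (gr a b F).Reachable x u ∧ (gr a b F).Reachable z y) := by
  rw [FX_insert _ _ _ _ _ _ (by simpa using h), FX_one, gr_insert', gr_empty, reach_sup_edge,
    and_assoc]

omit hpr hpt hqr hqt hrt hpq in
lemma FX_two' (F : Finset ι) (x y z : V) (h : x ≠ y) :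
    FX a b F (insert (x, z) (insert (y, z) ∅)) ↔ IsF a b F ∧ ¬ (gr a b F).Reachable y z ∧
      ¬ ((gr a b F).Reachable x z ∨ (gr a b F).Reachable x y ∨
        (gr a b F).Reachable x z ∧ (gr a b F).Reachable y z) := by
  rw [FX_two a b F x z y z (by simpa using h)]
  have : (gr a b F).Reachable z z := SimpleGraph.Reachable.refl _
  simp only [this, and_true]

lemma FX_three (F : Finset ι) :
    FX a b F (insert (p, t) (insert (q, t) (insert (r, t) ∅))) ↔ IsF a b F ∧
      (¬ (gr a b F).Reachable r t ∧ ¬ (gr a b F).Reachable q t ∧ ¬ (gr a b F).Reachable q r ∧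
        ¬ (gr a b F).Reachable p t ∧ ¬ (gr a b F).Reachable p r ∧
        ¬ (gr a b F).Reachable p q) := by
  rw [FX_insert _ _ _ _ _ _ (by simp [hpq, hpr]), FX_two' a b F q r t hqr, gr_insert',
    gr_insert', gr_empty]
  simp only [reach_sup_edge]
  set R := (gr a b F).Reachable with hR
  have rf : ∀ v, R v v := fun v => SimpleGraph.Reachable.refl _
  have sy : ∀ u v, R u v → R v u := fun u v h => SimpleGraph.Reachable.symm h
  have tr : ∀ u v w, R u v → R v w → R u w := fun u v w h h' => SimpleGraph.Reachable.trans h h'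
  constructor
  · rintro ⟨⟨h1, h2, h3⟩, h4⟩
    exact ⟨h1, h2, fun h => h3 (Or.inl h), fun h => h3 (Or.inr (Or.inl h)),
      fun h => h4 (Or.inl (Or.inl h)), fun h => h4 (Or.inl (Or.inr (Or.inl ⟨h, rf t⟩))),
      fun h => h4 (Or.inr (Or.inl ⟨Or.inl h, Or.inl (rf t)⟩))⟩
  · rintro ⟨h1, h2, h3, h4, h5, h6, h7⟩
    refine ⟨⟨h1, h2, ?_⟩, ?_⟩
    · rintro (h | h | h)
      · exact h3 h
      · exact h4 h
      · exact h3 h.1
    · have a1 : ¬ R t r := fun h => h2 (sy _ _ h)
      have a2 : ¬ R t q := fun h => h3 (sy _ _ h)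
      tauto

theorem GS_identity :
    GS a b E w (insert (p, q) (insert (r, t) ∅)) + GS a b E w (insert (p, r) (insert (q, t) ∅))
      + GS a b E w (insert (p, t) (insert (q, r) ∅)) =
    GS a b E w (insert (q, t) (insert (r, t) ∅)) + GS a b E w (insert (p, t) (insert (r, t) ∅))
      + GS a b E w (insert (p, t) (insert (q, t) ∅))
      + GS a b E w (insert (p, r) (insert (q, r) ∅))
      - GS a b E w (insert (p, t) (insert (q, t) (insert (r, t) ∅))) := by
  classical
  unfold GS
  rw [← Finset.sum_add_distrib, ← Finset.sum_add_distrib, ← Finset.sum_add_distrib,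
    ← Finset.sum_add_distrib, ← Finset.sum_add_distrib, ← Finset.sum_sub_distrib]
  refine Finset.sum_congr rfl fun F _ => ?_
  rw [FX_three a b hpq hpr hpt hqr hqt hrt F, FX_two' a b F q r t hqr, FX_two' a b F p r t hpr,
    FX_two' a b F p q t hpq, FX_two' a b F p q r hpq, FX_two a b F p q r t (by simp [hpr]),
    FX_two a b F p r q t (by simp [hpq]), FX_two a b F p t q r (by simp [hpq])]
  by_cases hF : IsF a b F
  · simp only [hF, true_and]
    have h := logic_four (gr a b F).Reachable ⟨fun v => SimpleGraph.Reachable.refl _,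
      fun h => SimpleGraph.Reachable.symm h,
      fun h h' => SimpleGraph.Reachable.trans h h'⟩ (∏ i ∈ F, w i) p q r t
    convert h
  · simp [hF]

include hw in
/-- **The four-point inequality.** -/
theorem four_point :
    (GS a b E w (insert (p, q) (insert (r, t) ∅)) + GS a b E w (insert (p, r) (insert (q, t) ∅))
      + GS a b E w (insert (p, t) (insert (q, r) ∅))) * GS a b E w ∅ ≤
      GS a b E w (insert (p, q) ∅) * GS a b E w (insert (r, t) ∅)
        + GS a b E w (insert (p, r) ∅) * GS a b E w (insert (q, t) ∅)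
        + GS a b E w (insert (p, t) ∅) * GS a b E w (insert (q, r) ∅) := by
  have h1 := four_GS a b E w hw hpq hpr hpt hqr hqt hrt
  have h2 := GS_identity a b E w hpq hpr hpt hqr hqt hrt
  rw [h2]
  linarith

end main

end H990SF
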