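import Mathlib
import Pool.Agent.H990R2.SF.FourPoint
import Pool.Agent.H990R2.SF.Multi

/-!
Invariance of the forest sums under automorphisms, and consequences of the four-point inequality.
-/

set_option linter.unusedSectionVars false
set_option linter.unusedSimpArgs false

namespace H990SF

open Finset

section equiv

lemma gr_adj {V ι : Type*} (a b : ι → V) (F : Finset ι) (u v : V) :
    (gr a b F).Adj u v ↔ (∃ i ∈ F, s(a i, b i) = s(u, v)) ∧ u ≠ v := by
  unfold gr; rw [SimpleGraph.fromEdgeSet_adj]; simp [Set.mem_image]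

variable {V ι V' ι' : Type*} (a b : ι → V) (a' b' : ι' → V') (σ : ι ≃ ι') (τ : V ≃ V')
  (h : ∀ i, s(a' (σ i), b' (σ i)) = Sym2.map τ s(a i, b i))

include h

lemma adj_equiv (F : Finset ι) (u v : V) :
    (gr a' b' (F.map σ.toEmbedding)).Adj (τ u) (τ v) ↔ (gr a b F).Adj u v := by
  rw [gr_adj, gr_adj]
  refine and_congr ?_ (by simp)
  constructor
  · rintro ⟨j, hj, hjuv⟩
    rw [Finset.mem_map] at hj
    obtain ⟨i, hi, rfl⟩ := hj
    refine ⟨i, hi, ?_⟩
    rw [Equiv.coe_toEmbedding, h] at hjuv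
    have : s(τ u, τ v) = Sym2.map τ s(u, v) := by simp
    rw [this] at hjuv
    exact Sym2.map.injective τ.injective hjuv
  · rintro ⟨i, hi, hiuv⟩
    refine ⟨σ i, by simp [hi], ?_⟩
    rw [h, hiuv]; simp

lemma acyclic_equiv (F : Finset ι) :
    (gr a b F).IsAcyclic ↔ (gr a' b' (F.map σ.toEmbedding)).IsAcyclic :=
  SimpleGraph.Iso.isAcyclic_iff (f := ⟨τ, by
    intro u v; exact adj_equiv a b a' b' σ τ h F u v⟩)

lemma IsF_equiv (F : Finset ι) : IsF a b F ↔ IsF a' b' (F.map σ.toEmbedding) := by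
  unfold IsF
  rw [acyclic_equiv a b a' b' σ τ h F]
  have hd : ∀ i, a' (σ i) = b' (σ i) ↔ a i = b i := by
    intro i
    have e1 : (s(a' (σ i), b' (σ i)) : Sym2 V').IsDiag ↔ (Sym2.map τ s(a i, b i)).IsDiag := by
      rw [h]
    simpa using e1
  refine and_congr ?_ (and_congr_left fun _ => ?_)
  · constructor
    · intro h1 j hj
      rw [Finset.mem_map] at hj
      obtain ⟨i, hi, rfl⟩ := hj
      rw [Equiv.coe_toEmbedding, Ne, hd]
      exact h1 i hi
    · intro h1 i hi
      have := h1 (σ i) (by simp [hi])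
      rwa [Ne, hd] at this
  · constructor
    · intro h1 j hj j' hj' hjj
      rw [Finset.mem_coe, Finset.mem_map] at hj hj'
      obtain ⟨i, hi, rfl⟩ := hj
      obtain ⟨i', hi', rfl⟩ := hj'
      simp only [Equiv.coe_toEmbedding, h] at hjj
      have := h1 (by exact_mod_cast hi) (by exact_mod_cast hi')
        (Sym2.map.injective τ.injective hjj)
      rw [this]
    · intro h1 i hi i' hi' hii
      have hm : σ i ∈ ((F.map σ.toEmbedding : Finset ι') : Set ι') := by simpa using hi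
      have hm' : σ i' ∈ ((F.map σ.toEmbedding : Finset ι') : Set ι') := by simpa using hi'
      have := h1 hm hm' (by
        simp only at hii
        simp only [h, hii])
      exact σ.injective this

end equiv

section aut

variable {V ι : Type*} [Fintype V] [DecidableEq V] [DecidableEq ι]

lemma FX_equiv (a b : ι → V) (σ : ι ≃ ι) (τ : V ≃ V)
    (h : ∀ i, s(a (σ i), b (σ i)) = Sym2.map τ s(a i, b i)) (F : Finset ι)
    (P : Finset (V × V)) :
    FX a b F P ↔ FX a b (F.map σ.toEmbedding) (P.map (Equiv.prodCongr τ τ).toEmbedding) := by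
  unfold FX
  have e : (Finset.disjSum F P).map (Equiv.sumCongr σ (Equiv.prodCongr τ τ)).toEmbedding =
      Finset.disjSum (F.map σ.toEmbedding) (P.map (Equiv.prodCongr τ τ).toEmbedding) := by
    ext x
    cases x with
    | inl i =>
      simp only [Finset.mem_map, Finset.inl_mem_disjSum, Equiv.coe_toEmbedding]
      constructor
      · rintro ⟨y, hy, hyx⟩
        cases y with
        | inl j => exact ⟨j, by simpa using hy, by simpa using hyx⟩
        | inr j => simp at hyx
      · rintro ⟨j, hj, rfl⟩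
        exact ⟨Sum.inl j, by simpa using hj, by simp⟩
    | inr i =>
      simp only [Finset.mem_map, Finset.inr_mem_disjSum, Equiv.coe_toEmbedding]
      constructor
      · rintro ⟨y, hy, hyx⟩
        cases y with
        | inl j => simp at hyx
        | inr j => exact ⟨j, by simpa using hy, by simpa using hyx⟩
      · rintro ⟨j, hj, rfl⟩
        exact ⟨Sum.inr j, by simpa using hj, by simp⟩
  rw [IsF_equiv (xa a) (xb b) (xa a) (xb b) (Equiv.sumCongr σ (Equiv.prodCongr τ τ)) τ (by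
    intro i
    cases i with
    | inl i => exact h i
    | inr i => simp [xa, xb]), e]

lemma GS_equiv (a b : ι → V) (E : Finset ι) (w : ι → ℝ) (σ : ι ≃ ι) (τ : V ≃ V)
    (h : ∀ i, s(a (σ i), b (σ i)) = Sym2.map τ s(a i, b i)) (hE : ∀ i, σ i ∈ E ↔ i ∈ E)
    (hw : ∀ i ∈ E, w (σ i) = w i) (P : Finset (V × V)) :
    GS a b E w P = GS a b E w (P.map (Equiv.prodCongr τ τ).toEmbedding) := by
  classical
  unfold GS
  refine Finset.sum_nbij' (fun F => F.map σ.toEmbedding) (fun F => F.map σ.symm.toEmbedding)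
    ?_ ?_ ?_ ?_ ?_
  · intro F hF
    rw [Finset.mem_powerset] at hF ⊢
    intro x hx
    rw [Finset.mem_map] at hx
    obtain ⟨y, hy, rfl⟩ := hx
    rw [Equiv.coe_toEmbedding, hE]
    exact hF hy
  · intro F hF
    rw [Finset.mem_powerset] at hF ⊢
    intro x hx
    rw [Finset.mem_map] at hx
    obtain ⟨y, hy, rfl⟩ := hx
    rw [Equiv.coe_toEmbedding, ← hE, Equiv.apply_symm_apply]
    exact hF hy
  · intro F _
    ext x; simp
  · intro F _
    ext x; simp
  · intro F hF
    rw [Finset.mem_powerset] at hF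
    rw [← FX_equiv a b σ τ h F P]
    congr 1
    rw [Finset.prod_map]
    refine Finset.prod_congr rfl fun i hi => ?_
    rw [Equiv.coe_toEmbedding, hw i (hF hi)]

lemma GS_comm (a b : ι → V) (E : Finset ι) (w : ι → ℝ) (x y : V) :
    GS a b E w (insert (x, y) ∅) = GS a b E w (insert (y, x) ∅) := by
  classical
  unfold GS
  refine Finset.sum_congr rfl fun F _ => ?_
  rw [FX_one, FX_one, SimpleGraph.reachable_comm]

/-- **Symmetric quadruples are negatively correlated.** -/
theorem sym_GS (a b : ι → V) (E : Finset ι) (w : ι → ℝ) (hw : ∀ i ∈ E, 0 ≤ w i) {p q r t : V}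
    (hpq : p ≠ q) (hpr : p ≠ r) (hpt : p ≠ t) (hqr : q ≠ r) (hqt : q ≠ t) (hrt : r ≠ t)
    (σ : ι ≃ ι) (τ : V ≃ V)
    (h : ∀ i, s(a (σ i), b (σ i)) = Sym2.map τ s(a i, b i)) (hE : ∀ i, σ i ∈ E ↔ i ∈ E)
    (hwσ : ∀ i ∈ E, w (σ i) = w i) (tp : τ p = p) (tq : τ q = r) (trr : τ r = t) (tt : τ t = q) :
    GS a b E w (insert (p, q) (insert (r, t) ∅)) * GS a b E w ∅ ≤
      GS a b E w (insert (p, q) ∅) * GS a b E w (insert (r, t) ∅) := by
  have H := four_point a b E w hw hpq hpr hpt hqr hqt hrt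
  have s := GS_equiv a b E w σ τ h hE hwσ
  have m2 : ∀ x y z u : V, (insert (x, y) (insert (z, u) ∅) : Finset (V × V)).map
      (Equiv.prodCongr τ τ).toEmbedding = insert (τ x, τ y) (insert (τ z, τ u) ∅) := by
    intro x y z u; simp
  have m1 : ∀ x y : V, (insert (x, y) ∅ : Finset (V × V)).map
      (Equiv.prodCongr τ τ).toEmbedding = insert (τ x, τ y) ∅ := by
    intro x y; simp
  -- pairs
  have A1 : GS a b E w (insert (p, q) ∅) = GS a b E w (insert (p, r) ∅) := by
    rw [s (insert (p, q) ∅), m1, tp, tq]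
  have A2 : GS a b E w (insert (p, r) ∅) = GS a b E w (insert (p, t) ∅) := by
    rw [s (insert (p, r) ∅), m1, tp, trr]
  have B1 : GS a b E w (insert (q, r) ∅) = GS a b E w (insert (r, t) ∅) := by
    rw [s (insert (q, r) ∅), m1, tq, trr]
  have B2 : GS a b E w (insert (r, t) ∅) = GS a b E w (insert (q, t) ∅) := by
    rw [s (insert (r, t) ∅), m1, trr, tt, GS_comm]
  -- matchings
  have J1 : GS a b E w (insert (p, r) (insert (q, t) ∅)) =
      GS a b E w (insert (p, q) (insert (r, t) ∅)) := by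
    have h1 := s (insert (p, t) (insert (q, r) ∅))
    rw [m2, tp, tt, tq, trr] at h1
    have h2 := s (insert (p, q) (insert (r, t) ∅))
    rw [m2, tp, tq, trr, tt] at h2
    rw [h2]
    classical
    unfold GS
    refine Finset.sum_congr rfl fun F _ => ?_
    rw [FX_two _ _ _ _ _ _ _ (by simp [hpq]), FX_two _ _ _ _ _ _ _ (by simp [hpt])]
    have e : (gr a b F).Reachable t q ↔ (gr a b F).Reachable q t := SimpleGraph.reachable_comm
    rw [e]
    congr 1
    apply propext
    refine and_congr_right fun _ => and_congr_right fun _ => not_congr ?_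
    refine or_congr_right ?_
    exact or_comm
  have J2 : GS a b E w (insert (p, t) (insert (q, r) ∅)) =
      GS a b E w (insert (p, q) (insert (r, t) ∅)) := by
    have h1 := s (insert (p, t) (insert (q, r) ∅))
    rw [m2, tp, tt, tq, trr] at h1
    exact h1
  rw [J1, J2, ← A2, ← A1, ← B2, B1] at H
  linarith

/-! ### edges instead of virtual edges -/

lemma ins_iff (a b : ι → V) (F : Finset ι) (e : ι) :
    (e ∉ F ∧ IsF a b (insert e F)) ↔ IsF a b F ∧ ¬ (gr a b F).Reachable (a e) (b e) := by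
  constructor
  · rintro ⟨h1, h2⟩
    exact ⟨IsF_mono a b (Finset.subset_insert _ _) h2, not_reach_of_IsF_insert a b h1 h2⟩
  · rintro ⟨h1, h2⟩
    refine ⟨?_, IsF_insert a b h1 h2⟩
    intro he
    apply h2
    by_cases hab : a e = b e
    · rw [hab]
    · apply SimpleGraph.Adj.reachable
      rw [gr_adj]
      exact ⟨⟨e, he, rfl⟩, hab⟩

lemma FX_ins1 (a b : ι → V) (F : Finset ι) (e : ι) :
    FX a b F (insert (a e, b e) ∅) ↔ e ∉ F ∧ IsF a b (insert e F) := by
  rw [FX_one, ins_iff]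

lemma FX_ins2 (a b : ι → V) (F : Finset ι) (e f : ι) (hne : (a e, b e) ≠ (a f, b f)) :
    FX a b F (insert (a e, b e) (insert (a f, b f) ∅)) ↔
      f ∉ F ∧ e ∉ insert f F ∧ IsF a b (insert e (insert f F)) := by
  rw [FX_insert _ _ _ _ _ _ (by simpa using hne), FX_ins1, gr_insert', gr_empty,
    ins_iff a b (insert f F) e, gr_insert, and_assoc]

lemma NX_GS1 (a b : ι → V) (E : Finset ι) (w : ι → ℝ) (e : ι) (he : e ∈ E) :
    NX a b E w {e} = GS a b E w (insert (a e, b e) ∅) := by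
  classical
  rw [NX_eq a b E w {e} (by simpa using he)]
  unfold GS
  have hsub : (E \ {e}).powerset ⊆ E.powerset := Finset.powerset_mono.2 Finset.sdiff_subset
  rw [← Finset.sum_subset hsub]
  · refine Finset.sum_congr rfl fun F hF => ?_
    rw [Finset.mem_powerset] at hF
    have heF : e ∉ F := fun h => by simpa using (Finset.mem_sdiff.1 (hF h)).2
    rw [FX_ins1]
    have : {e} ∪ F = insert e F := rfl
    rw [this]
    simp [heF]
  · intro F hF hF'
    rw [Finset.mem_powerset] at hF hF'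
    rw [if_neg]
    rw [FX_ins1]
    rintro ⟨h1, -⟩
    apply hF'
    intro x hx
    rw [Finset.mem_sdiff, Finset.mem_singleton]
    exact ⟨hF hx, fun h => h1 (h ▸ hx)⟩

lemma NX_GS2 (a b : ι → V) (E : Finset ι) (w : ι → ℝ) (e f : ι) (he : e ∈ E) (hf : f ∈ E)
    (hef : e ≠ f) (hne : (a e, b e) ≠ (a f, b f)) :
    NX a b E w {e, f} = GS a b E w (insert (a e, b e) (insert (a f, b f) ∅)) := by
  classical
  rw [NX_eq a b E w {e, f} (by
    intro x hx
    rcases Finset.mem_insert.1 hx with rfl | hx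
    · exact he
    · rw [Finset.mem_singleton] at hx; exact hx ▸ hf)]
  unfold GS
  have hsub : (E \ {e, f}).powerset ⊆ E.powerset := Finset.powerset_mono.2 Finset.sdiff_subset
  rw [← Finset.sum_subset hsub]
  · refine Finset.sum_congr rfl fun F hF => ?_
    rw [Finset.mem_powerset] at hF
    have heF : e ∉ F := fun h => by simpa using (Finset.mem_sdiff.1 (hF h)).2
    have hfF : f ∉ F := fun h => by simpa using (Finset.mem_sdiff.1 (hF h)).2
    rw [FX_ins2 a b F e f hne]
    have : {e, f} ∪ F = insert e (insert f F) := by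
      ext x; simp
    rw [this]
    simp [heF, hfF, hef]
  · intro F hF hF'
    rw [Finset.mem_powerset] at hF hF'
    rw [if_neg]
    rw [FX_ins2 a b F e f hne]
    rintro ⟨h1, h2, -⟩
    apply hF'
    intro x hx
    rw [Finset.mem_sdiff, Finset.mem_insert, Finset.mem_singleton]
    refine ⟨hF hx, ?_⟩
    rintro (h | h)
    · exact h2 (Finset.mem_insert_of_mem (h ▸ hx))
    · exact h1 (h ▸ hx)

lemma NX_GS0 (a b : ι → V) (E : Finset ι) (w : ι → ℝ) :
    NX a b E w ∅ = GS a b E w ∅ := by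
  classical
  rw [NX_empty]
  unfold GS
  refine Finset.sum_congr rfl fun F _ => ?_
  rw [FX_empty]

lemma GS_swap1 (a b : ι → V) (E : Finset ι) (w : ι → ℝ) (x y z u : V)
    (h : (x, y) ≠ (z, u)) (h' : (y, x) ≠ (z, u)) :
    GS a b E w (insert (x, y) (insert (z, u) ∅)) =
      GS a b E w (insert (y, x) (insert (z, u) ∅)) := by
  classical
  unfold GS
  refine Finset.sum_congr rfl fun F _ => ?_
  rw [FX_insert a b F (insert (z, u) ∅) x y (by simpa using h),
    FX_insert a b F (insert (z, u) ∅) y x (by simpa using h'),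
    SimpleGraph.reachable_comm (u := x) (v := y)]

lemma GS_swap2 (a b : ι → V) (E : Finset ι) (w : ι → ℝ) (x y z u : V)
    (h : (x, y) ≠ (z, u)) (h' : (x, y) ≠ (u, z)) :
    GS a b E w (insert (x, y) (insert (z, u) ∅)) =
      GS a b E w (insert (x, y) (insert (u, z) ∅)) := by
  classical
  unfold GS
  refine Finset.sum_congr rfl fun F _ => ?_
  rw [FX_insert a b F (insert (z, u) ∅) x y (by simpa using h),
    FX_insert a b F (insert (u, z) ∅) x y (by simpa using h'),
    gr_insert', gr_insert', FX_one, FX_one, SimpleGraph.edge_comm z u,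
    SimpleGraph.reachable_comm (u := z) (v := u)]

lemma NX_GS1' (a b : ι → V) (E : Finset ι) (w : ι → ℝ) (e : ι) (he : e ∈ E) (x y : V)
    (hxy : s(a e, b e) = s(x, y)) : NX a b E w {e} = GS a b E w (insert (x, y) ∅) := by
  rw [NX_GS1 a b E w e he]
  rcases Sym2.eq_iff.1 hxy with ⟨h1, h2⟩ | ⟨h1, h2⟩
  · rw [h1, h2]
  · rw [h1, h2, GS_comm]

lemma NX_GS2' (a b : ι → V) (E : Finset ι) (w : ι → ℝ) (e f : ι) (he : e ∈ E) (hf : f ∈ E)
    (hef : e ≠ f) (x y z u : V) (hxy : s(a e, b e) = s(x, y)) (hzu : s(a f, b f) = s(z, u))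
    (h1 : x ≠ z) (h2 : x ≠ u) (h3 : y ≠ z) (h4 : y ≠ u) :
    NX a b E w {e, f} = GS a b E w (insert (x, y) (insert (z, u) ∅)) := by
  rcases Sym2.eq_iff.1 hxy with ⟨e1, e2⟩ | ⟨e1, e2⟩ <;>
    rcases Sym2.eq_iff.1 hzu with ⟨e3, e4⟩ | ⟨e3, e4⟩
  · rw [NX_GS2 a b E w e f he hf hef (by rw [e1, e3]; simp [h1]), e1, e2, e3, e4]
  · rw [NX_GS2 a b E w e f he hf hef (by rw [e1, e3]; simp [h2]), e1, e2, e3, e4,
      GS_swap2 a b E w x y u z (by simp [h2]) (by simp [h1])]
  · rw [NX_GS2 a b E w e f he hf hef (by rw [e1, e3]; simp [h3]), e1, e2, e3, e4,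
      GS_swap1 a b E w y x z u (by simp [h3]) (by simp [h1])]
  · rw [NX_GS2 a b E w e f he hf hef (by rw [e1, e3]; simp [h4]), e1, e2, e3, e4,
      GS_swap1 a b E w y x u z (by simp [h4]) (by simp [h2]),
      GS_swap2 a b E w x y u z (by simp [h2]) (by simp [h1])]

/-- **Negative correlation for symmetric quadruples, in terms of edges.** -/
theorem sym_NX (a b : ι → V) (E : Finset ι) (w : ι → ℝ) (hw : ∀ i ∈ E, 0 ≤ w i) {p q r t : V}
    (hpq : p ≠ q) (hpr : p ≠ r) (hpt : p ≠ t) (hqr : q ≠ r) (hqt : q ≠ t) (hrt : r ≠ t)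
    (e f : ι) (he : e ∈ E) (hf : f ∈ E) (hep : s(a e, b e) = s(p, q))
    (hfp : s(a f, b f) = s(r, t)) (σ : ι ≃ ι) (τ : V ≃ V)
    (h : ∀ i, s(a (σ i), b (σ i)) = Sym2.map τ s(a i, b i)) (hE : ∀ i, σ i ∈ E ↔ i ∈ E)
    (hwσ : ∀ i ∈ E, w (σ i) = w i) (tp : τ p = p) (tq : τ q = r) (trr : τ r = t) (tt : τ t = q) :
    NX a b E w {e, f} * NX a b E w ∅ ≤ NX a b E w {e} * NX a b E w {f} := by
  have hef : e ≠ f := by
    intro hh
    rw [hh, hfp] at hep
    rcases Sym2.eq_iff.1 hep with ⟨e1, e2⟩ | ⟨e1, e2⟩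
    · exact hpr e1.symm
    · exact hqr e1.symm
  have := sym_GS a b E w hw hpq hpr hpt hqr hqt hrt σ τ h hE hwσ tp tq trr tt
  rw [NX_GS2' a b E w e f he hf hef p q r t hep hfp hpr hpt hqr hqt,
    NX_GS1' a b E w e he p q hep, NX_GS1' a b E w f hf r t hfp, NX_GS0]
  exact this

/-- The 3-cycle `q → r → t → q`. -/
def cyc (q r t : V) : V ≃ V := (Equiv.swap r t).trans (Equiv.swap q r)

lemma cyc_p {p q r t : V} (hpq : p ≠ q) (hpr : p ≠ r) (hpt : p ≠ t) : cyc q r t p = p := by
  simp only [cyc, Equiv.trans_apply]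
  rw [Equiv.swap_apply_of_ne_of_ne hpr hpt, Equiv.swap_apply_of_ne_of_ne hpq hpr]

lemma cyc_q {q r t : V} (hqr : q ≠ r) (hqt : q ≠ t) : cyc q r t q = r := by
  simp only [cyc, Equiv.trans_apply]
  rw [Equiv.swap_apply_of_ne_of_ne hqr hqt, Equiv.swap_apply_left]

lemma cyc_r {q r t : V} (hqt : q ≠ t) (hrt : r ≠ t) : cyc q r t r = t := by
  simp only [cyc, Equiv.trans_apply]
  rw [Equiv.swap_apply_left, Equiv.swap_apply_of_ne_of_ne (Ne.symm hqt) (Ne.symm hrt)]

lemma cyc_t {q r t : V} : cyc q r t t = q := by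
  simp only [cyc, Equiv.trans_apply]
  rw [Equiv.swap_apply_right, Equiv.swap_apply_right]

end aut

end H990SF
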