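import Mathlib
import Pool.Agent.H990R2.SF.Sym

/-!
Simple graph form of the four-point inequality.
-/

set_option linter.unusedSectionVars false
set_option linter.unusedSimpArgs false

namespace H990SF

open Finset

section gen

variable {V ι : Type*} [Fintype V] [DecidableEq V] [DecidableEq ι]

lemma GS_or1 (a b : ι → V) (E : Finset ι) (w : ι → ℝ) (x y x' y' : V)
    (h : s(x', y') = s(x, y)) : GS a b E w (insert (x', y') ∅) = GS a b E w (insert (x, y) ∅) := by
  rcases Sym2.eq_iff.1 h with ⟨h1, h2⟩ | ⟨h1, h2⟩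
  · rw [h1, h2]
  · rw [h1, h2, GS_comm]

lemma GS_or2 (a b : ι → V) (E : Finset ι) (w : ι → ℝ) (x y z u x' y' z' u' : V)
    (hxy : s(x', y') = s(x, y)) (hzu : s(z', u') = s(z, u))
    (h1 : x ≠ z) (h2 : x ≠ u) (h3 : y ≠ z) (h4 : y ≠ u) :
    GS a b E w (insert (x', y') (insert (z', u') ∅)) =
      GS a b E w (insert (x, y) (insert (z, u) ∅)) := by
  rcases Sym2.eq_iff.1 hxy with ⟨e1, e2⟩ | ⟨e1, e2⟩ <;>
    rcases Sym2.eq_iff.1 hzu with ⟨e3, e4⟩ | ⟨e3, e4⟩
  · rw [e1, e2, e3, e4]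
  · rw [e1, e2, e3, e4, GS_swap2 a b E w x y u z (by simp [h2]) (by simp [h1])]
  · rw [e1, e2, e3, e4, GS_swap1 a b E w y x z u (by simp [h3]) (by simp [h1])]
  · rw [e1, e2, e3, e4,
      GS_swap1 a b E w y x u z (by simp [h4]) (by simp [h2]),
      GS_swap2 a b E w x y u z (by simp [h2]) (by simp [h1])]

end gen

variable {V : Type*} [Fintype V] [DecidableEq V]

open Classical in
/-- The sum of `∏ g ∈ F, p g` over the edge sets `F` of `G`, disjoint from `P`, such that
`F ∪ P` is a forest. -/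
noncomputable def virtForest (G : SimpleGraph V) (p : Sym2 V → ℝ) (P : Finset (Sym2 V)) : ℝ :=
  ∑ F ∈ G.edgeFinset.powerset with
    Disjoint F P ∧ (SimpleGraph.fromEdgeSet ((F ∪ P : Finset (Sym2 V)) : Set (Sym2 V))).IsAcyclic,
    ∏ g ∈ F, p g

open Classical in
lemma virt_zero (G : SimpleGraph V) (p : Sym2 V → ℝ) :
    virtForest G p ∅ = GS ea eb G.edgeFinset p ∅ := by
  unfold virtForest GS
  rw [Finset.sum_filter]
  refine Finset.sum_congr rfl fun F hF => ?_
  rw [Finset.mem_powerset] at hF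
  have hd : ∀ e ∈ F, ¬ e.IsDiag := fun e he =>
    G.not_isDiag_of_mem_edgeSet (SimpleGraph.mem_edgeFinset.1 (hF he))
  rw [FX_empty, IsF_simple F hd]
  simp

open Classical in
lemma virt_one (G : SimpleGraph V) (p : Sym2 V → ℝ) (x y : V) (hxy : x ≠ y) :
    virtForest G p {s(x, y)} = GS ea eb G.edgeFinset p (insert (x, y) ∅) := by
  rw [← GS_or1 ea eb G.edgeFinset p x y _ _ (ea_eb s(x, y))]
  unfold virtForest GS
  rw [Finset.sum_filter]
  refine Finset.sum_congr rfl fun F hF => ?_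
  rw [Finset.mem_powerset] at hF
  have hd : ∀ e ∈ insert s(x, y) F, ¬ e.IsDiag := by
    intro e he
    rcases Finset.mem_insert.1 he with rfl | he
    · simpa using hxy
    · exact G.not_isDiag_of_mem_edgeSet (SimpleGraph.mem_edgeFinset.1 (hF he))
  rw [FX_ins1, IsF_simple _ hd]
  have e1 : F ∪ {s(x, y)} = insert s(x, y) F := by
    ext g; simp [or_comm]
  rw [e1]
  have hc : (Disjoint F {s(x, y)} ∧ (SimpleGraph.fromEdgeSet
      ((insert s(x, y) F : Finset (Sym2 V)) : Set (Sym2 V))).IsAcyclic) ↔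
      (s(x, y) ∉ F ∧ (SimpleGraph.fromEdgeSet
      ((insert s(x, y) F : Finset (Sym2 V)) : Set (Sym2 V))).IsAcyclic) :=
    and_congr_left fun _ => Finset.disjoint_singleton_right
  split_ifs with k k' k'
  · rfl
  · exact absurd (hc.1 k) k'
  · exact absurd (hc.2 k') k
  · rfl

open Classical in
lemma virt_two (G : SimpleGraph V) (p : Sym2 V → ℝ) (x y z u : V) (hxy : x ≠ y) (hzu : z ≠ u)
    (h1 : x ≠ z) (h2 : x ≠ u) (h3 : y ≠ z) (h4 : y ≠ u) :
    virtForest G p {s(x, y), s(z, u)} =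
      GS ea eb G.edgeFinset p (insert (x, y) (insert (z, u) ∅)) := by
  have hef : s(x, y) ≠ s(z, u) := by
    intro h
    rcases Sym2.eq_iff.1 h with ⟨e1, -⟩ | ⟨e1, -⟩
    · exact h1 e1
    · exact h2 e1
  have hne : (ea s(x, y), eb s(x, y)) ≠ (ea s(z, u), eb s(z, u)) := by
    intro h
    apply hef
    rw [← ea_eb s(x, y), ← ea_eb s(z, u)]
    rw [Prod.mk.injEq] at h
    rw [h.1, h.2]
  rw [← GS_or2 ea eb G.edgeFinset p x y z u _ _ _ _ (ea_eb s(x, y)) (ea_eb s(z, u)) h1 h2 h3 h4]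
  unfold virtForest GS
  rw [Finset.sum_filter]
  refine Finset.sum_congr rfl fun F hF => ?_
  rw [Finset.mem_powerset] at hF
  have hd : ∀ e ∈ insert s(x, y) (insert s(z, u) F), ¬ e.IsDiag := by
    intro e he
    rcases Finset.mem_insert.1 he with rfl | he
    · simpa using hxy
    · rcases Finset.mem_insert.1 he with rfl | he
      · simpa using hzu
      · exact G.not_isDiag_of_mem_edgeSet (SimpleGraph.mem_edgeFinset.1 (hF he))
  rw [FX_ins2 _ _ _ _ _ hne, IsF_simple _ hd]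
  have e1 : F ∪ {s(x, y), s(z, u)} = insert s(x, y) (insert s(z, u) F) := by
    ext g; simp
  have e2 : Disjoint F {s(x, y), s(z, u)} ↔ s(z, u) ∉ F ∧ s(x, y) ∉ insert s(z, u) F := by
    rw [Finset.disjoint_insert_right, Finset.disjoint_singleton_right, Finset.mem_insert, not_or]
    tauto
  rw [e1]
  have hc : (Disjoint F {s(x, y), s(z, u)} ∧ (SimpleGraph.fromEdgeSet
      ((insert s(x, y) (insert s(z, u) F) : Finset (Sym2 V)) : Set (Sym2 V))).IsAcyclic) ↔
      (s(z, u) ∉ F ∧ s(x, y) ∉ insert s(z, u) F ∧ (SimpleGraph.fromEdgeSet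
      ((insert s(x, y) (insert s(z, u) F) : Finset (Sym2 V)) : Set (Sym2 V))).IsAcyclic) := by
    constructor
    · rintro ⟨k1, k2⟩
      exact ⟨(e2.1 k1).1, (e2.1 k1).2, k2⟩
    · rintro ⟨k1, k2, k3⟩
      exact ⟨e2.2 ⟨k1, k2⟩, k3⟩
  split_ifs with k k' k'
  · rfl
  · exact absurd (hc.1 k) k'
  · exact absurd (hc.2 k') k
  · rfl

open Classical in
/-- **The four-point inequality for simple graphs.** -/
theorem four_point_simple (G : SimpleGraph V) (p : Sym2 V → ℝ) (hp : ∀ g ∈ G.edgeSet, 0 ≤ p g)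
    (a b c d : V) (hab : a ≠ b) (hac : a ≠ c) (had : a ≠ d) (hbc : b ≠ c) (hbd : b ≠ d)
    (hcd : c ≠ d) :
    (virtForest G p {s(a, b), s(c, d)} + virtForest G p {s(a, c), s(b, d)}
      + virtForest G p {s(a, d), s(b, c)}) * virtForest G p ∅ ≤
    virtForest G p {s(a, b)} * virtForest G p {s(c, d)}
      + virtForest G p {s(a, c)} * virtForest G p {s(b, d)}
      + virtForest G p {s(a, d)} * virtForest G p {s(b, c)} := by
  rw [virt_two G p a b c d hab hcd hac had hbc hbd,
    virt_two G p a c b d hac hbd hab had (Ne.symm hbc) hcd,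
    virt_two G p a d b c had hbc hab hac (Ne.symm hbd) (Ne.symm hcd), virt_zero,
    virt_one G p a b hab, virt_one G p c d hcd, virt_one G p a c hac, virt_one G p b d hbd,
    virt_one G p a d had, virt_one G p b c hbc]
  exact four_point ea eb G.edgeFinset p (fun g hg => hp g (SimpleGraph.mem_edgeFinset.1 hg))
    hab hac had hbc hbd hcd

/-- The map of `Sym2 V` induced by a permutation of `V`. -/
def symEquiv (τ : V ≃ V) : Sym2 V ≃ Sym2 V where
  toFun := Sym2.map τ
  invFun := Sym2.map τ.symm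
  left_inv := by intro e; rw [Sym2.map_map]; simp
  right_inv := by intro e; rw [Sym2.map_map]; simp

/-- **Symmetric quadruples in simple graphs.** -/
theorem sym_simple (G : SimpleGraph V) (p : Sym2 V → ℝ) (hp : ∀ g ∈ G.edgeSet, 0 ≤ p g)
    (τ : G ≃g G) (hτ : ∀ g ∈ G.edgeSet, p (Sym2.map τ g) = p g)
    (a b c d : V) (hab : a ≠ b) (hac : a ≠ c) (had : a ≠ d) (hbc : b ≠ c) (hbd : b ≠ d)
    (hcd : c ≠ d) (ta : τ a = a) (tb : τ b = c) (tc : τ c = d) (td : τ d = b)
    (he : G.Adj a b) (hf : G.Adj c d) :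
    sumForest G p {s(a, b), s(c, d)} * sumForest G p ∅ ≤
      sumForest G p {s(a, b)} * sumForest G p {s(c, d)} := by
  classical
  rw [sumForest_eq, sumForest_eq, sumForest_eq, sumForest_eq]
  refine sym_NX ea eb G.edgeFinset p (fun g hg => hp g (SimpleGraph.mem_edgeFinset.1 hg))
    hab hac had hbc hbd hcd s(a, b) s(c, d) (by simpa using he) (by simpa using hf)
    (ea_eb _) (ea_eb _) (symEquiv τ.toEquiv) τ.toEquiv ?_ ?_ ?_ ta tb tc td
  · intro g
    rw [ea_eb, ea_eb]; rfl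
  · intro g
    rw [SimpleGraph.mem_edgeFinset, SimpleGraph.mem_edgeFinset]
    induction g with
    | _ x y =>
      have : symEquiv τ.toEquiv s(x, y) = s(τ x, τ y) := by simp [symEquiv]
      rw [this, SimpleGraph.mem_edgeSet, SimpleGraph.mem_edgeSet, τ.map_adj_iff]
  · intro g hg
    exact hτ g (SimpleGraph.mem_edgeFinset.1 hg)

/-- **Complete graphs with constant weights.** -/
theorem complete_simple (c : ℝ) (hc : 0 ≤ c) (e f : Sym2 V) (he : ¬ e.IsDiag) (hf : ¬ f.IsDiag)
    (hef : e ≠ f) :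
    sumForest (⊤ : SimpleGraph V) (fun _ => c) {e, f} *
        sumForest (⊤ : SimpleGraph V) (fun _ => c) ∅ ≤
      sumForest (⊤ : SimpleGraph V) (fun _ => c) {e} *
        sumForest (⊤ : SimpleGraph V) (fun _ => c) {f} := by
  classical
  induction e with
  | _ p q =>
  induction f with
  | _ r t =>
  have hpq : p ≠ q := by simpa using he
  have hrt : r ≠ t := by simpa using hf
  have hE : s(p, q) ∈ (⊤ : SimpleGraph V).edgeSet := by simpa using hpq
  have hF : s(r, t) ∈ (⊤ : SimpleGraph V).edgeSet := by simpa using hrt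
  by_cases h1 : p = r
  · exact star_rayleigh_simple ⊤ (fun _ => c) p (fun _ _ _ => hc) _ _ hE hF hef (by simp)
      (by simp [h1])
  by_cases h2 : p = t
  · exact star_rayleigh_simple ⊤ (fun _ => c) p (fun _ _ _ => hc) _ _ hE hF hef (by simp)
      (by simp [h2])
  by_cases h3 : q = r
  · exact star_rayleigh_simple ⊤ (fun _ => c) q (fun _ _ _ => hc) _ _ hE hF hef (by simp)
      (by simp [h3])
  by_cases h4 : q = t
  · exact star_rayleigh_simple ⊤ (fun _ => c) q (fun _ _ _ => hc) _ _ hE hF hef (by simp)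
      (by simp [h4])
  exact sym_simple ⊤ (fun _ => c) (fun _ _ => hc)
    ⟨cyc q r t, by intro x y; simp⟩ (fun _ _ => rfl) p q r t hpq h1 h2 h3 h4 hrt
    (cyc_p hpq h1 h2) (cyc_q h3 h4) (cyc_r h4 hrt) cyc_t (by simpa using hpq) (by simpa using hrt)

end H990SF
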