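import Mathlib
import Pool.Agent.H990R2.SF.SymSimple

/-!
Derivative of the forest sums.
-/

set_option linter.unusedSectionVars false
set_option linter.unusedSimpArgs false

namespace H990SF

open Finset

lemma deriv_sum_prod {ι : Type*} [DecidableEq ι] (E : Finset ι) (Q : Finset ι → Prop)
    [DecidablePred Q] (w : ℝ → ι → ℝ) (w' : ι → ℝ) (t : ℝ)
    (hw : ∀ i ∈ E, HasDerivAt (fun s => w s i) (w' i) t) :
    HasDerivAt (fun s => ∑ F ∈ E.powerset, if Q F then ∏ j ∈ F, w s j else 0)
      (∑ i ∈ E, w' i * ∑ F ∈ E.powerset, if i ∉ F ∧ Q (insert i F) then ∏ j ∈ F, w t j else 0)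
      t := by
  have h1 : HasDerivAt (fun s => ∑ F ∈ E.powerset, if Q F then ∏ j ∈ F, w s j else 0)
      (∑ F ∈ E.powerset, if Q F then ∑ i ∈ F, (∏ j ∈ F.erase i, w t j) • w' i else 0) t := by
    apply HasDerivAt.fun_sum
    intro F hF
    rw [Finset.mem_powerset] at hF
    by_cases hQ : Q F
    · simp only [hQ, if_true]
      exact HasDerivAt.fun_finsetProd fun i hi => hw i (hF hi)
    · simp only [hQ, if_false]
      exact hasDerivAt_const t (0 : ℝ)
  convert h1 using 1
  have h2 : ∀ F ∈ E.powerset, (if Q F then ∑ i ∈ F, (∏ j ∈ F.erase i, w t j) • w' i else 0) =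
      ∑ i ∈ E, if i ∈ F ∧ Q F then (∏ j ∈ F.erase i, w t j) * w' i else 0 := by
    intro F hF
    rw [Finset.mem_powerset] at hF
    by_cases hQ : Q F
    · simp only [hQ, if_true, and_true, smul_eq_mul]
      rw [← Finset.sum_filter]
      congr 1
      ext i
      simp only [Finset.mem_filter]
      exact ⟨fun h => ⟨hF h, h⟩, fun h => h.2⟩
    · simp [hQ]
  rw [Finset.sum_congr rfl h2, Finset.sum_comm]
  refine Finset.sum_congr rfl fun i hi => ?_
  rw [Finset.mul_sum]
  rw [← Finset.sum_filter_add_sum_filter_not E.powerset (fun F => i ∉ F)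
    (fun F => w' i * if i ∉ F ∧ Q (insert i F) then ∏ j ∈ F, w t j else 0),
    ← Finset.sum_filter_add_sum_filter_not E.powerset (fun F => i ∈ F)
    (fun F => if i ∈ F ∧ Q F then (∏ j ∈ F.erase i, w t j) * w' i else 0)]
  have z1 : ∑ F ∈ E.powerset with ¬ (i ∉ F),
      (w' i * if i ∉ F ∧ Q (insert i F) then ∏ j ∈ F, w t j else 0) = 0 := by
    refine Finset.sum_eq_zero fun F hF => ?_
    rw [Finset.mem_filter] at hF
    rw [if_neg (fun h => hF.2 h.1), mul_zero]
  have z2 : ∑ F ∈ E.powerset with ¬ (i ∈ F),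
      (if i ∈ F ∧ Q F then (∏ j ∈ F.erase i, w t j) * w' i else 0) = 0 := by
    refine Finset.sum_eq_zero fun F hF => ?_
    rw [Finset.mem_filter] at hF
    rw [if_neg (fun h => hF.2 h.1)]
  rw [z1, z2, add_zero, add_zero]
  refine Finset.sum_nbij' (fun F => insert i F) (fun F => F.erase i) ?_ ?_ ?_ ?_ ?_
  · intro F hF
    simp only [Finset.mem_filter, Finset.mem_powerset] at hF ⊢
    exact ⟨Finset.insert_subset hi hF.1, Finset.mem_insert_self _ _⟩
  · intro F hF
    simp only [Finset.mem_filter, Finset.mem_powerset] at hF ⊢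
    exact ⟨(Finset.erase_subset _ _).trans hF.1, Finset.notMem_erase _ _⟩
  · intro F hF
    simp only [Finset.mem_filter, Finset.mem_powerset] at hF
    exact Finset.erase_insert hF.2
  · intro F hF
    simp only [Finset.mem_filter, Finset.mem_powerset] at hF
    exact Finset.insert_erase hF.2
  · intro F hF
    simp only [Finset.mem_filter, Finset.mem_powerset] at hF
    have : i ∈ insert i F := Finset.mem_insert_self _ _
    by_cases hQ : Q (insert i F)
    · simp only [hQ, hF.2, this, not_false_eq_true, true_and, if_true, and_self]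
      rw [Finset.erase_insert hF.2, mul_comm]
    · simp [hQ]

lemma ite_iff {p q : Prop} {dp : Decidable p} {dq : Decidable q} (h : p ↔ q) (x : ℝ) :
    (if p then x else 0) = if q then x else 0 := by
  by_cases hp : p
  · rw [if_pos hp, if_pos (h.1 hp)]
  · rw [if_neg hp, if_neg (fun k => hp (h.2 k))]

section general

variable {V ι : Type*} [Fintype V] [DecidableEq V] [DecidableEq ι]

open Classical in
/-- The weighted sum over the forests `F` such that `F ∪ P` is a forest with `u`, `v` in
different components. -/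
noncomputable def GR (a b : ι → V) (E : Finset ι) (w : ι → ℝ) (P : Finset (V × V)) (u v : V) : ℝ :=
  ∑ F ∈ E.powerset,
    if FX a b F P ∧ ¬ (gr (xa a) (xb b) (Finset.disjSum F P)).Reachable u v then ∏ j ∈ F, w j
    else 0

lemma GS_insert_GR (a b : ι → V) (E : Finset ι) (w : ι → ℝ) (P : Finset (V × V)) (u v : V)
    (h : (u, v) ∉ P) : GS a b E w (insert (u, v) P) = GR a b E w P u v := by
  classical
  unfold GS GR
  exact Finset.sum_congr rfl fun F _ => ite_iff (FX_insert a b F P u v h) _

lemma GR_comm (a b : ι → V) (E : Finset ι) (w : ι → ℝ) (P : Finset (V × V)) (u v : V) :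
    GR a b E w P u v = GR a b E w P v u := by
  classical
  unfold GR
  exact Finset.sum_congr rfl fun F _ =>
    ite_iff (and_congr_right fun _ => not_congr SimpleGraph.reachable_comm) _

lemma GR_self (a b : ι → V) (E : Finset ι) (w : ι → ℝ) (P : Finset (V × V)) (u : V) :
    GR a b E w P u u = 0 := by
  classical
  unfold GR
  refine Finset.sum_eq_zero fun F _ => ?_
  rw [if_neg]
  rintro ⟨-, h⟩
  exact h (SimpleGraph.Reachable.refl _)

lemma reach_P (a b : ι → V) (F : Finset ι) (P : Finset (V × V)) (u v : V) (h : (u, v) ∈ P) :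
    (gr (xa a) (xb b) (Finset.disjSum F P)).Reachable u v := by
  by_cases huv : u = v
  · rw [huv]
  · apply SimpleGraph.Adj.reachable
    rw [gr_adj]
    exact ⟨⟨Sum.inr (u, v), by simpa using h, rfl⟩, huv⟩

lemma GR_P (a b : ι → V) (E : Finset ι) (w : ι → ℝ) (P : Finset (V × V)) (u v : V)
    (h : (u, v) ∈ P) : GR a b E w P u v = 0 := by
  classical
  unfold GR
  refine Finset.sum_eq_zero fun F _ => ?_
  rw [if_neg]
  rintro ⟨-, h'⟩
  exact h' (reach_P a b F P u v h)

lemma GR_P' (a b : ι → V) (E : Finset ι) (w : ι → ℝ) (P : Finset (V × V)) (u v z : V)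
    (h : (u, v) ∈ P) : GR a b E w P u z = GR a b E w P v z := by
  classical
  unfold GR
  refine Finset.sum_congr rfl fun F _ => ?_
  have h' := reach_P a b F P u v h
  have : (gr (xa a) (xb b) (Finset.disjSum F P)).Reachable u z ↔
      (gr (xa a) (xb b) (Finset.disjSum F P)).Reachable v z :=
    ⟨fun k => h'.symm.trans k, fun k => h'.trans k⟩
  exact ite_iff (and_congr_right fun _ => not_congr this) _

lemma FX_ins (a b : ι → V) (F : Finset ι) (P : Finset (V × V)) (e : ι) :
    (e ∉ F ∧ FX a b (insert e F) P) ↔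
      FX a b F P ∧ ¬ (gr (xa a) (xb b) (Finset.disjSum F P)).Reachable (a e) (b e) := by
  have h := ins_iff (xa a) (xb b) (Finset.disjSum F P) (Sum.inl e)
  have e1 : insert (Sum.inl e) (Finset.disjSum F P) = Finset.disjSum (insert e F) P := by
    ext x
    cases x <;> simp [Finset.inl_mem_disjSum, Finset.inr_mem_disjSum]
  rw [e1] at h
  have e2 : Sum.inl e ∉ Finset.disjSum F P ↔ e ∉ F := by simp
  rw [e2] at h
  exact h

/-- derivative of the forest sums -/
lemma GS_deriv (a b : ι → V) (E : Finset ι) (w : ℝ → ι → ℝ) (w' : ι → ℝ) (t : ℝ)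
    (hw : ∀ i ∈ E, HasDerivAt (fun s => w s i) (w' i) t) (P : Finset (V × V)) :
    HasDerivAt (fun s => GS a b E (w s) P)
      (∑ i ∈ E, w' i * GR a b E (w t) P (a i) (b i)) t := by
  classical
  have h := deriv_sum_prod E (fun F => FX a b F P) w w' t hw
  unfold GS
  convert h using 1
  refine Finset.sum_congr rfl fun i _ => ?_
  congr 1
  unfold GR
  exact Finset.sum_congr rfl fun F _ => ite_iff (FX_ins a b F P i).symm _

end general

end H990SF
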