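import Mathlib
import Pool.Agent.H990R2.SF.PWDeriv
import Pool.Agent.H990R2.SF.PWAbs

/-!
Complete graphs with product weights: merging and the derivative formula.
-/

set_option linter.unusedSectionVars false
set_option linter.unusedSimpArgs false

namespace H990SF

open Finset

section gsg

variable {V ι : Type*} [Fintype V] [DecidableEq V] [DecidableEq ι]

lemma GS_equiv2 (a b : ι → V) (E : Finset ι) (w w' : ι → ℝ) (σ : ι ≃ ι) (τ : V ≃ V)
    (h : ∀ i, s(a (σ i), b (σ i)) = Sym2.map τ s(a i, b i)) (hE : ∀ i, σ i ∈ E ↔ i ∈ E)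
    (hw : ∀ i ∈ E, w' (σ i) = w i) (P : Finset (V × V)) :
    GS a b E w P = GS a b E w' (P.map (Equiv.prodCongr τ τ).toEmbedding) := by
  classical
  unfold GS
  refine Finset.sum_nbij' (fun F => F.map σ.toEmbedding) (fun F => F.map σ.symm.toEmbedding)
    ?_ ?_ ?_ ?_ ?_
  · intro F hF
    rw [Finset.mem_powerset] at hF ⊢
    intro x hx
    rw [Finset.mem_map] at hx
    obtain ⟨y, hy, rfl⟩ := hx
    rw [Equiv.coe_toEmbedding, hE]
    exact hF hy
  · intro F hF
    rw [Finset.mem_powerset] at hF ⊢
    intro x hx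
    rw [Finset.mem_map] at hx
    obtain ⟨y, hy, rfl⟩ := hx
    rw [Equiv.coe_toEmbedding, ← hE, Equiv.apply_symm_apply]
    exact hF hy
  · intro F _
    ext x; simp
  · intro F _
    ext x; simp
  · intro F hF
    rw [Finset.mem_powerset] at hF
    rw [← FX_equiv a b σ τ h F P]
    congr 1
    rw [Finset.prod_map]
    refine Finset.prod_congr rfl fun i hi => ?_
    rw [Equiv.coe_toEmbedding, hw i (hF hi)]

/-- An isolated vertex can be attached. -/
lemma GS_isolated (a b : ι → V) (E : Finset ι) (w : ι → ℝ) (P : Finset (V × V)) (c d : V)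
    (hcd : c ≠ d) (hP : ∀ p ∈ P, p.1 ≠ d ∧ p.2 ≠ d)
    (hw : ∀ i ∈ E, (a i = d ∨ b i = d) → w i = 0) :
    GS a b E w (insert (c, d) P) = GS a b E w P := by
  classical
  have hn : (c, d) ∉ P := fun h => (hP _ h).2 rfl
  unfold GS
  refine Finset.sum_congr rfl fun F hF => ?_
  rw [Finset.mem_powerset] at hF
  by_cases hd : ∃ i ∈ F, a i = d ∨ b i = d
  · obtain ⟨i, hi, hid⟩ := hd
    have : ∏ j ∈ F, w j = 0 := Finset.prod_eq_zero hi (hw i (hF hi) hid)
    rw [this]; simp
  · push Not at hd
    refine ite_iff ?_ _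
    rw [FX_insert a b F P c d hn]
    refine ⟨fun h => h.1, fun h => ⟨h, ?_⟩⟩
    intro hr
    obtain ⟨p⟩ := hr.symm
    cases p with
    | nil => exact hcd rfl
    | cons hadj _ =>
      rw [gr_adj] at hadj
      obtain ⟨⟨i, hi, he⟩, -⟩ := hadj
      cases i with
      | inl i =>
        have hi' : i ∈ F := by simpa using hi
        have he' : s(a i, b i) = s(d, _) := he
        rcases Sym2.eq_iff.1 he' with ⟨h1, -⟩ | ⟨-, h1⟩
        · exact (hd i hi').1 h1
        · exact (hd i hi').2 h1
      | inr i =>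
        have hi' : i ∈ P := by simpa using hi
        have he' : s(i.1, i.2) = s(d, _) := he
        rcases Sym2.eq_iff.1 he' with ⟨h1, -⟩ | ⟨-, h1⟩
        · exact (hP i hi').1 h1
        · exact (hP i hi').2 h1

end gsg

variable {V : Type*} [Fintype V] [DecidableEq V]

/-- The product weights. -/
noncomputable def pw (x : V → ℝ) (e : Sym2 V) : ℝ := x (ea e) * x (eb e)

lemma pw_mk (x : V → ℝ) (u v : V) : pw x s(u, v) = x u * x v := by
  unfold pw
  rcases Sym2.eq_iff.1 (ea_eb s(u, v)) with ⟨h1, h2⟩ | ⟨h1, h2⟩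
  · rw [h1, h2]
  · rw [h1, h2, mul_comm]

open Classical in
/-- The forest sums of the complete graph with product weights. -/
noncomputable def MP (x : V → ℝ) (P : Finset (V × V)) : ℝ :=
  GS ea eb (⊤ : SimpleGraph V).edgeFinset (pw x) P

open Classical in
noncomputable def MR (x : V → ℝ) (P : Finset (V × V)) (u v : V) : ℝ :=
  GR ea eb (⊤ : SimpleGraph V).edgeFinset (pw x) P u v

/-- derivative of `pth` -/
noncomputable def dp (c d u : V) : ℝ := if u = c then 1 else if u = d then -1 else 0

lemma pth_deriv (x : V → ℝ) (c d : V) (hcd : c ≠ d) (g t : ℝ) (u : V) :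
    HasDerivAt (fun s => pth x c d g s u) (dp c d u) t := by
  unfold pth dp
  by_cases hu : u = d
  · subst hu
    have e : (fun s => Function.update (Function.update x c s) u (g - s) u) = fun s => g - s := by
      funext s; simp
    rw [e, if_neg (Ne.symm hcd), if_pos rfl]
    simpa using (hasDerivAt_id t).const_sub g
  · by_cases hc : u = c
    · subst hc
      have e : (fun s => Function.update (Function.update x u s) d (g - s) u) = fun s => s := by
        funext s; simp [Function.update_of_ne hu]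
      rw [e, if_pos rfl]
      exact hasDerivAt_id t
    · have e : (fun s => Function.update (Function.update x c s) d (g - s) u) = fun _ => x u := by
        funext s; rw [Function.update_of_ne hu, Function.update_of_ne hc]
      rw [e, if_neg hc, if_neg hu]
      exact hasDerivAt_const t _

lemma MP_deriv (hB2 : PW_B2 V) (x : V → ℝ) (c d : V) (hcd : c ≠ d) (g t : ℝ)
    (P : Finset (V × V)) :
    HasDerivAt (fun s => MP (pth x c d g s) P)
      ((∑ v ∈ univ \ {c, d}, x v * (MR (pth x c d g t) P c v - MR (pth x c d g t) P d v))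
        + (g - 2 * t) * MR (pth x c d g t) P c d) t := by
  classical
  have h := GS_deriv ea eb (⊤ : SimpleGraph V).edgeFinset (fun s => pw (pth x c d g s))
    (fun e => dp c d (ea e) * pth x c d g t (eb e) + pth x c d g t (ea e) * dp c d (eb e)) t
    (fun i _ => (pth_deriv x c d hcd g t (ea i)).mul (pth_deriv x c d hcd g t (eb i))) P
  have e0 : (fun s => MP (pth x c d g s) P) =
      fun s => GS ea eb (⊤ : SimpleGraph V).edgeFinset (pw (pth x c d g s)) P := by
    funext s; unfold MP; congr!
  rw [e0]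
  convert h using 1
  set y := pth x c d g t with hy
  have hyc : y c = t := by rw [hy]; unfold pth; rw [Function.update_of_ne hcd]; simp
  have hyd : y d = g - t := by rw [hy]; unfold pth; simp
  have hyv : ∀ v, v ≠ c → v ≠ d → y v = x v := by
    intro v h1 h2; rw [hy]; unfold pth; rw [Function.update_of_ne h2, Function.update_of_ne h1]
  have hMR : ∀ u v, GR ea eb (⊤ : SimpleGraph V).edgeFinset (pw y) P u v = MR y P u v := by
    intro u v; unfold MR; congr!
  have hf : ∀ u v : V, (dp c d (ea s(u, v)) * y (eb s(u, v)) +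
      y (ea s(u, v)) * dp c d (eb s(u, v))) *
      GR ea eb (⊤ : SimpleGraph V).edgeFinset (pw y) P (ea s(u, v)) (eb s(u, v)) =
      (dp c d u * y v + y u * dp c d v) * MR y P u v := by
    intro u v
    rw [← hMR u v]
    rcases Sym2.eq_iff.1 (ea_eb s(u, v)) with ⟨h1, h2⟩ | ⟨h1, h2⟩
    · rw [h1, h2]
    · rw [h1, h2, GR_comm ea eb _ (pw y) P v u]; ring
  have hdc : dp c d c = 1 := by simp [dp]
  have hdd : dp c d d = -1 := by simp [dp, Ne.symm hcd]
  have hdv : ∀ v, v ≠ c → v ≠ d → dp c d v = 0 := by intro v h1 h2; simp [dp, h1, h2]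
  have hR0 : ∀ u, MR y P u u = 0 := by intro u; rw [← hMR]; exact GR_self _ _ _ _ _ _
  have h2 : ∑ e ∈ (⊤ : SimpleGraph V).edgeFinset,
      (dp c d (ea e) * y (eb e) + y (ea e) * dp c d (eb e)) *
        GR ea eb (⊤ : SimpleGraph V).edgeFinset (pw y) P (ea e) (eb e) =
      ∑ e : Sym2 V, (dp c d (ea e) * y (eb e) + y (ea e) * dp c d (eb e)) *
        GR ea eb (⊤ : SimpleGraph V).edgeFinset (pw y) P (ea e) (eb e) := by
    apply Finset.sum_subset (Finset.subset_univ _)
    intro e _ he
    have hdiag : e.IsDiag := by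
      by_contra hne
      exact he (by rw [SimpleGraph.mem_edgeFinset]; simpa using hne)
    induction e with
    | _ u v =>
      rw [hf]
      have : u = v := by simpa using hdiag
      rw [this, hR0, mul_zero]
  rw [h2, hB2 c d (fun e => (dp c d (ea e) * y (eb e) + y (ea e) * dp c d (eb e)) *
        GR ea eb (⊤ : SimpleGraph V).edgeFinset (pw y) P (ea e) (eb e)) hcd]
  · rw [hf c d, hdc, hdd, hyc, hyd]
    congr 1
    · refine Finset.sum_congr rfl fun v hv => ?_
      simp only [Finset.mem_sdiff, Finset.mem_univ, true_and, Finset.mem_insert,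
        Finset.mem_singleton, not_or] at hv
      rw [hf c v, hf d v, hdc, hdd, hdv v hv.1 hv.2, hyv v hv.1 hv.2]
      ring
    · ring
  · intro e h1 h2
    induction e with
    | _ u v =>
      rw [hf]
      rw [Sym2.mem_iff, not_or] at h1 h2
      rw [hdv u (Ne.symm h1.1) (Ne.symm h2.1), hdv v (Ne.symm h1.2) (Ne.symm h2.2)]
      ring
  · show _ = (0 : ℝ)
    rw [hf, hR0, mul_zero]
  · show _ = (0 : ℝ)
    rw [hf, hR0, mul_zero]

end H990SF
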