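import Mathlib
import Pool.Agent.H990R2.SF.PWGraph

/-!
Complete graphs with product weights: the merging lemma and the abstract properties.
-/

set_option linter.unusedSectionVars false
set_option linter.unusedSimpArgs false

namespace H990SF

open Finset

variable {V : Type*} [Fintype V] [DecidableEq V]

lemma pth_self (x : V → ℝ) (c d : V) : pth x c d (x c + x d) (x c) = x := by
  unfold pth
  funext u
  by_cases hu : u = d
  · subst hu; simp
  · rw [Function.update_of_ne hu]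
    by_cases hc : u = c
    · subst hc; simp
    · rw [Function.update_of_ne hc]

lemma pth_end (x : V → ℝ) (c d : V) : pth x c d (x c + x d) (x c + x d) = mrg x c d := by
  unfold pth mrg
  rw [sub_self]

lemma mrg_d (x : V → ℝ) (c d : V) : mrg x c d d = 0 := by
  unfold mrg; simp

/-- **The merging lemma.** -/
lemma MP_merge (hB2 : PW_B2 V) (x : V → ℝ) (c d : V) (hcd : c ≠ d) (P : Finset (V × V))
    (hP : ∀ p ∈ P, p.1 ≠ d ∧ p.2 ≠ d) : MP x (insert (c, d) P) = MP (mrg x c d) P := by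
  classical
  have hmem : (c, d) ∈ insert (c, d) P := Finset.mem_insert_self _ _
  have hder : ∀ t, HasDerivAt (fun s => MP (pth x c d (x c + x d) s) (insert (c, d) P)) 0 t := by
    intro t
    have h := MP_deriv hB2 x c d hcd (x c + x d) t (insert (c, d) P)
    convert h using 1
    have e1 : ∀ v, MR (pth x c d (x c + x d) t) (insert (c, d) P) c v =
        MR (pth x c d (x c + x d) t) (insert (c, d) P) d v := by
      intro v; unfold MR; exact GR_P' _ _ _ _ _ _ _ _ hmem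
    have e2 : MR (pth x c d (x c + x d) t) (insert (c, d) P) c d = 0 := by
      unfold MR; exact GR_P _ _ _ _ _ _ _ hmem
    rw [e2]
    simp [e1]
  have hconst := is_const_of_deriv_eq_zero (fun t => (hder t).differentiableAt)
    (fun t => (hder t).deriv) (x c) (x c + x d)
  simp only [pth_self, pth_end] at hconst
  rw [hconst]
  unfold MP
  apply GS_isolated _ _ _ _ _ _ _ hcd hP
  intro e _ he
  unfold pw
  rcases he with he | he
  · rw [he, mrg_d, zero_mul]
  · rw [he, mrg_d, mul_zero]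

lemma MR_mrg (hB2 : PW_B2 V) (x : V → ℝ) (u v : V) (huv : u ≠ v) :
    MR x ∅ u v = MP (mrg x u v) ∅ := by
  classical
  rw [← MP_merge hB2 x u v huv ∅ (by simp)]
  unfold MP MR
  rw [GS_insert_GR _ _ _ _ _ _ _ (by simp)]

lemma MP_symm (σ : V ≃ V) (x : V → ℝ) : MP (x ∘ σ) ∅ = MP x ∅ := by
  classical
  unfold MP
  rw [GS_equiv2 ea eb (⊤ : SimpleGraph V).edgeFinset (pw (x ∘ σ)) (pw x) (symEquiv σ) σ ?_ ?_ ?_ ∅,
    Finset.map_empty]
  · intro e
    rw [ea_eb, ea_eb]; rfl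
  · intro e
    rw [SimpleGraph.mem_edgeFinset, SimpleGraph.mem_edgeFinset]
    induction e with
    | _ u v =>
      have : symEquiv σ s(u, v) = s(σ u, σ v) := by simp [symEquiv]
      rw [this]
      simp
  · intro e _
    induction e with
    | _ u v =>
      have : symEquiv σ s(u, v) = s(σ u, σ v) := by simp [symEquiv]
      rw [this, pw_mk, pw_mk]
      rfl

lemma NX_GS2_adj {ι : Type*} [DecidableEq ι] (a b : ι → V) (E : Finset ι) (w : ι → ℝ) (e f : ι)
    (he : e ∈ E) (hf : f ∈ E) (hef : e ≠ f) (x y z : V) (hxy : s(a e, b e) = s(x, y))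
    (hxz : s(a f, b f) = s(x, z)) (h1 : x ≠ y) (h2 : x ≠ z) (h3 : y ≠ z) :
    NX a b E w {e, f} = GS a b E w (insert (x, y) (insert (x, z) ∅)) := by
  rcases Sym2.eq_iff.1 hxy with ⟨e1, e2⟩ | ⟨e1, e2⟩ <;>
    rcases Sym2.eq_iff.1 hxz with ⟨e3, e4⟩ | ⟨e3, e4⟩
  · rw [NX_GS2 a b E w e f he hf hef (by rw [e1, e2, e3, e4]; simp [h3]), e1, e2, e3, e4]
  · rw [NX_GS2 a b E w e f he hf hef (by rw [e1, e2, e3, e4]; simp [h2]), e1, e2, e3, e4,
      GS_swap2 a b E w x y z x (by simp [h2]) (by simp [h3])]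
  · rw [NX_GS2 a b E w e f he hf hef (by rw [e1, e2, e3, e4]; simp [h1.symm]), e1, e2, e3, e4,
      GS_swap1 a b E w y x x z (by simp [h1.symm]) (by simp [h3])]
  · rw [NX_GS2 a b E w e f he hf hef (by rw [e1, e2, e3, e4]; simp [h3]), e1, e2, e3, e4,
      GS_swap1 a b E w y x z x (by simp [h3]) (by simp [h2]),
      GS_swap2 a b E w x y z x (by simp [h2]) (by simp [h3])]

lemma pw_nonneg (x : V → ℝ) (hx : ∀ v, 0 ≤ x v) (e : Sym2 V) : 0 ≤ pw x e :=
  mul_nonneg (hx _) (hx _)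

lemma MP_adj (hB2 : PW_B2 V) (x : V → ℝ) (hx : ∀ v, 0 ≤ x v) (a b c : V) (hab : a ≠ b)
    (hac : a ≠ c) (hbc : b ≠ c) :
    MP x ∅ * MP (mrg (mrg x a b) a c) ∅ ≤ MP (mrg x a b) ∅ * MP (mrg x a c) ∅ := by
  classical
  rw [← MP_merge hB2 (mrg x a b) a c hac ∅ (by simp),
    ← MP_merge hB2 x a b hab (insert (a, c) ∅) (by simp [hab, hbc.symm]),
    ← MP_merge hB2 x a b hab ∅ (by simp), ← MP_merge hB2 x a c hac ∅ (by simp)]
  have hE : s(a, b) ∈ (⊤ : SimpleGraph V).edgeFinset := by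
    rw [SimpleGraph.mem_edgeFinset]; simpa using hab
  have hF : s(a, c) ∈ (⊤ : SimpleGraph V).edgeFinset := by
    rw [SimpleGraph.mem_edgeFinset]; simpa using hac
  have hne : s(a, b) ≠ s(a, c) := by
    intro h
    rcases Sym2.eq_iff.1 h with ⟨-, h2⟩ | ⟨h1, -⟩
    · exact hbc h2
    · exact hac h1
  have h := star_rayleigh a ea eb (⊤ : SimpleGraph V).edgeFinset (pw x)
    (fun i _ _ _ => pw_nonneg x hx i) s(a, b) s(a, c) hE hF hne
    ((mem_iff_ea_eb a s(a, b)).1 (by simp)) ((mem_iff_ea_eb a s(a, c)).1 (by simp))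
  rw [NX_GS2_adj ea eb _ (pw x) s(a, b) s(a, c) hE hF hne a b c (ea_eb _) (ea_eb _) hab hac hbc,
    NX_GS1' ea eb _ (pw x) s(a, b) hE a b (ea_eb _),
    NX_GS1' ea eb _ (pw x) s(a, c) hF a c (ea_eb _), NX_GS0] at h
  have e : ∀ P, MP x P = GS ea eb (⊤ : SimpleGraph V).edgeFinset (pw x) P := by
    intro P; unfold MP; congr!
  rw [e, e, e, e, mul_comm]
  exact h

lemma MP_good (hB2 : PW_B2 V) : PWGood (fun x : V → ℝ => MP x ∅) := by
  refine ⟨fun σ x => MP_symm σ x, ?_, fun x hx a b c hab hac hbc => MP_adj hB2 x hx a b c hab hac hbc⟩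
  intro x c d hcd g t
  have h := MP_deriv hB2 x c d hcd g t ∅
  convert h using 1
  rw [MR_mrg hB2 _ c d hcd]
  congr 1
  refine Finset.sum_congr rfl fun v hv => ?_
  simp only [Finset.mem_sdiff, Finset.mem_univ, true_and, Finset.mem_insert,
    Finset.mem_singleton, not_or] at hv
  rw [MR_mrg hB2 _ c v (Ne.symm hv.1), MR_mrg hB2 _ d v (Ne.symm hv.2)]

lemma sumForest_any (G : SimpleGraph V) (p : Sym2 V → ℝ) (X : Finset (Sym2 V))
    (E : Finset (Sym2 V)) (h : ∀ e, e ∈ E ↔ e ∈ G.edgeSet) :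
    sumForest G p X = NX ea eb E p X := by
  classical
  refine (sumForest_eq G p X).trans ?_
  refine congrArg (fun E => NX ea eb E p X) ?_
  ext e
  rw [SimpleGraph.mem_edgeFinset, h]

/-- **Negative correlation for all pairs of edges of a complete graph with product weights.** -/
theorem product_weights (hA1 : PW_A1 V) (hA2 : PW_A2 V) (hB2 : PW_B2 V) (x : V → ℝ)
    (hx : ∀ v, 0 ≤ x v) (e f : Sym2 V) (he : ¬ e.IsDiag) (hf : ¬ f.IsDiag) (hef : e ≠ f) :
    sumForest (⊤ : SimpleGraph V) (pw x) {e, f} * sumForest (⊤ : SimpleGraph V) (pw x) ∅ ≤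
      sumForest (⊤ : SimpleGraph V) (pw x) {e} * sumForest (⊤ : SimpleGraph V) (pw x) {f} := by
  classical
  induction e with
  | _ p q =>
  induction f with
  | _ r t =>
  have hpq : p ≠ q := by simpa using he
  have hrt : r ≠ t := by simpa using hf
  have hE : s(p, q) ∈ (⊤ : SimpleGraph V).edgeSet := by simpa using hpq
  have hF : s(r, t) ∈ (⊤ : SimpleGraph V).edgeSet := by simpa using hrt
  by_cases h1 : p = r
  · exact star_rayleigh_simple ⊤ (pw x) p (fun _ _ _ => pw_nonneg x hx _) _ _ hE hF hef (by simp)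
      (by simp [h1])
  by_cases h2 : p = t
  · exact star_rayleigh_simple ⊤ (pw x) p (fun _ _ _ => pw_nonneg x hx _) _ _ hE hF hef (by simp)
      (by simp [h2])
  by_cases h3 : q = r
  · exact star_rayleigh_simple ⊤ (pw x) q (fun _ _ _ => pw_nonneg x hx _) _ _ hE hF hef (by simp)
      (by simp [h3])
  by_cases h4 : q = t
  · exact star_rayleigh_simple ⊤ (pw x) q (fun _ _ _ => pw_nonneg x hx _) _ _ hE hF hef (by simp)
      (by simp [h4])
  have hE' : s(p, q) ∈ (⊤ : SimpleGraph V).edgeFinset := SimpleGraph.mem_edgeFinset.2 hE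
  have hF' : s(r, t) ∈ (⊤ : SimpleGraph V).edgeFinset := SimpleGraph.mem_edgeFinset.2 hF
  have key : NX ea eb (⊤ : SimpleGraph V).edgeFinset (pw x) {s(p, q), s(r, t)} *
      NX ea eb (⊤ : SimpleGraph V).edgeFinset (pw x) ∅ ≤
      NX ea eb (⊤ : SimpleGraph V).edgeFinset (pw x) {s(p, q)} *
      NX ea eb (⊤ : SimpleGraph V).edgeFinset (pw x) {s(r, t)} := by
    rw [NX_GS2' ea eb _ (pw x) s(p, q) s(r, t) hE' hF' hef p q r t (ea_eb _) (ea_eb _) h1 h2 h3 h4,
      NX_GS1' ea eb _ (pw x) s(p, q) hE' p q (ea_eb _),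
      NX_GS1' ea eb _ (pw x) s(r, t) hF' r t (ea_eb _), NX_GS0]
    have e : ∀ P, GS ea eb (⊤ : SimpleGraph V).edgeFinset (pw x) P = MP x P := by
      intro P; unfold MP; congr!
    rw [e, e, e, e, MP_merge hB2 x p q hpq (insert (r, t) ∅) (by simp [Ne.symm h3, Ne.symm h4]),
      MP_merge hB2 (mrg x p q) r t hrt ∅ (by simp), MP_merge hB2 x p q hpq ∅ (by simp),
      MP_merge hB2 x r t hrt ∅ (by simp), mul_comm]
    exact hA2 hA1 _ (MP_good hB2) x hx p q r t hpq h1 h2 h3 h4 hrt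
  have hs : ∀ X, sumForest (⊤ : SimpleGraph V) (pw x) X =
      NX ea eb (⊤ : SimpleGraph V).edgeFinset (pw x) X :=
    fun X => sumForest_any ⊤ (pw x) X _ (fun e => SimpleGraph.mem_edgeFinset)
  rw [hs, hs, hs, hs]
  exact key

end H990SF
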