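import Mathlib
import Pool.Agent.H990R2.SF.PWGood

/-!
Complete graphs with product weights: contraction of arbitrary forests.
-/

set_option linter.unusedSectionVars false
set_option linter.unusedSimpArgs false

namespace H990SF

open Finset

variable {V : Type*} [Fintype V] [DecidableEq V]

/-- `u` and `v` are connected by virtual edges. -/
def RP (P : Finset (V × V)) (u v : V) : Prop :=
  (gr (xa (ea (V := V))) (xb eb) (Finset.disjSum ∅ P)).Reachable u v

lemma RP_refl (P : Finset (V × V)) (u : V) : RP P u u := SimpleGraph.Reachable.refl _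
lemma RP_symm {P : Finset (V × V)} {u v : V} (h : RP P u v) : RP P v u := SimpleGraph.Reachable.symm h
lemma RP_trans {P : Finset (V × V)} {u v w : V} (h : RP P u v) (h' : RP P v w) : RP P u w :=
  SimpleGraph.Reachable.trans h h'

lemma RP_insert (P : Finset (V × V)) (x y u v : V) :
    RP (insert (x, y) P) u v ↔ RP P u v ∨ (RP P u x ∧ RP P y v) ∨ (RP P u y ∧ RP P x v) := by
  unfold RP
  rw [gr_insert', reach_sup_edge]

lemma RP_empty (u v : V) : RP ∅ u v ↔ u = v := by
  unfold RP
  have hgr0 : gr ea eb (∅ : Finset (Sym2 V)) = ⊥ := by simp [gr]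
  rw [gr_empty, hgr0, SimpleGraph.reachable_bot]

lemma RP_F {P : Finset (V × V)} {u v : V} (h : RP P u v) (F : Finset (Sym2 V)) :
    (gr (xa ea) (xb eb) (Finset.disjSum F P)).Reachable u v := by
  refine SimpleGraph.Reachable.mono (gr_mono _ _ ?_) h
  intro i hi
  cases i with
  | inl i => simp at hi
  | inr i => simpa using hi

lemma RP_sub {P Q : Finset (V × V)} (hPQ : P ⊆ Q) {u v : V} (h : RP P u v) : RP Q u v := by
  refine SimpleGraph.Reachable.mono (gr_mono _ _ ?_) h
  intro i hi
  cases i with
  | inl i => simp at hi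
  | inr i =>
    have : i ∈ P := by simpa using hi
    simpa using hPQ this

lemma FX_mono (F F' : Finset (Sym2 V)) (P P' : Finset (V × V)) (hF : F' ⊆ F) (hP : P' ⊆ P)
    (h : FX ea eb F P) : FX ea eb F' P' := by
  refine IsF_mono _ _ ?_ h
  intro i hi
  cases i with
  | inl i =>
    have : i ∈ F' := by simpa using hi
    simpa using hF this
  | inr i =>
    have : i ∈ P' := by simpa using hi
    simpa using hP this

/-- **General merging.** -/
lemma MP_merge2 (hB2 : PW_B2 V) (x : V → ℝ) (c d : V) (hcd : c ≠ d) (P : Finset (V × V))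
    (hP : RP P c d) : MP x P = MP (mrg x c d) P := by
  classical
  have hder : ∀ t, HasDerivAt (fun s => MP (pth x c d (x c + x d) s) P) 0 t := by
    intro t
    have h := MP_deriv hB2 x c d hcd (x c + x d) t P
    convert h using 1
    have e1 : ∀ v, MR (pth x c d (x c + x d) t) P c v =
        MR (pth x c d (x c + x d) t) P d v := by
      intro v; unfold MR GR
      refine Finset.sum_congr rfl fun F _ => ite_iff (and_congr_right fun _ => not_congr ?_) _
      exact ⟨fun k => (RP_F hP F).symm.trans k, fun k => (RP_F hP F).trans k⟩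
    have e2 : MR (pth x c d (x c + x d) t) P c d = 0 := by
      unfold MR GR
      refine Finset.sum_eq_zero fun F _ => ?_
      rw [if_neg]
      rintro ⟨-, h'⟩
      exact h' (RP_F hP F)
    rw [e2]
    simp [e1]
  have hconst := is_const_of_deriv_eq_zero (fun t => (hder t).differentiableAt)
    (fun t => (hder t).deriv) (x c) (x c + x d)
  simp only [pth_self, pth_end] at hconst
  exact hconst

lemma reach_block (F : Finset (Sym2 V)) (P : Finset (V × V)) (v : V)
    (hF : ∀ e ∈ F, ¬ RP P v (ea e) ∧ ¬ RP P v (eb e)) (s z : V) (hs : RP P v s)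
    (h : (gr (xa ea) (xb eb) (Finset.disjSum F P)).Reachable s z) : RP P v z := by
  obtain ⟨p⟩ := h
  induction p with
  | nil => exact hs
  | @cons s t z hadj _ ih =>
    apply ih
    rw [gr_adj] at hadj
    obtain ⟨⟨i, hi, he⟩, hne⟩ := hadj
    cases i with
    | inl i =>
      have hi' : i ∈ F := by simpa using hi
      have he' : s(ea i, eb i) = s(s, t) := he
      exfalso
      rcases Sym2.eq_iff.1 he' with ⟨h1, -⟩ | ⟨-, h1⟩
      · exact (hF i hi').1 (h1 ▸ hs)
      · exact (hF i hi').2 (h1 ▸ hs)
    | inr i =>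
      refine RP_trans hs ?_
      apply SimpleGraph.Adj.reachable
      rw [gr_adj]
      exact ⟨⟨Sum.inr i, by simpa using hi, he⟩, hne⟩

/-- A block without weight can be attached. -/
lemma MP_attach (x : V → ℝ) (P : Finset (V × V)) (u v : V) (huv : ¬ RP P u v)
    (hx : (∀ z, RP P v z → x z = 0) ∨ (∀ z, RP P u z → x z = 0)) :
    MP x (insert (u, v) P) = MP x P := by
  classical
  have hn : (u, v) ∉ P := by
    intro h
    exact huv (reach_P ea eb ∅ P u v h)
  unfold MP GS
  refine Finset.sum_congr rfl fun F hF => ?_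
  by_cases hF0 : ∏ j ∈ F, pw x j = 0
  · rw [hF0]; simp
  · refine ite_iff ?_ _
    rw [FX_insert ea eb F P u v hn]
    refine ⟨fun h => h.1, fun h => ⟨h, ?_⟩⟩
    intro hr
    have hne : ∀ e ∈ F, x (ea e) ≠ 0 ∧ x (eb e) ≠ 0 := by
      intro e he
      have := (Finset.prod_ne_zero_iff.1 hF0) e he
      unfold pw at this
      exact ⟨left_ne_zero_of_mul this, right_ne_zero_of_mul this⟩
    rcases hx with hx | hx
    · exact huv (RP_symm (reach_block F P v (fun e he => ⟨fun h => (hne e he).1 (hx _ h),
        fun h => (hne e he).2 (hx _ h)⟩) v u (RP_refl P v) hr.symm))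
    · exact huv (reach_block F P u (fun e he => ⟨fun h => (hne e he).1 (hx _ h),
        fun h => (hne e he).2 (hx _ h)⟩) u v (RP_refl P u) hr)

/-- Concentrated weights. -/
lemma MP_conc (P : Finset (V × V)) : ∀ x : V → ℝ, FX ea eb ∅ P →
    (∀ z w, RP P z w → z ≠ w → x z = 0 ∨ x w = 0) → MP x P = MP x ∅ := by
  induction P using Finset.induction_on with
  | empty => intro x _ _; rfl
  | insert p P hp ih =>
    obtain ⟨u, v⟩ := p
    intro x hF hx
    obtain ⟨hF1, hF2⟩ := (FX_insert ea eb ∅ P u v hp).1 hF
    have hF3 : ¬ RP P u v := hF2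
    rw [← ih x hF1 (fun z w h => hx z w (RP_sub (Finset.subset_insert _ _) h))]
    apply MP_attach x P u v hF3
    by_cases h : ∀ z, RP P v z → x z = 0
    · exact Or.inl h
    · right
      push Not at h
      obtain ⟨w, hw, hw0⟩ := h
      intro z hz
      have hzw : z ≠ w := by
        rintro rfl
        exact hF3 (RP_trans hz (RP_symm hw))
      have := hx z w ((RP_insert P u v z w).2 (Or.inr (Or.inl ⟨RP_symm hz, hw⟩))) hzw
      rcases this with h | h
      · exact h
      · exact absurd h hw0

/-- A weight vector `y` concentrated on representatives `r` of the blocks of `P`. -/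
structure Rep (x : V → ℝ) (P : Finset (V × V)) (y : V → ℝ) (r : V → V) : Prop where
  nonneg : ∀ v, 0 ≤ y v
  cls : ∀ u v, r u = r v ↔ RP P u v
  idem : ∀ v, r (r v) = r v
  conc : ∀ v, y v ≠ 0 → r v = v
  val : ∀ Q, P ⊆ Q → MP x Q = MP y Q

lemma mrg_apply (x : V → ℝ) (c d u : V) :
    mrg x c d u = if u = d then 0 else if u = c then x c + x d else x u := by
  unfold mrg
  by_cases h : u = d
  · subst h; simp
  · rw [Function.update_of_ne h, if_neg h]
    by_cases h' : u = c
    · subst h'; simp
    · rw [Function.update_of_ne h', if_neg h']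

lemma Rep_step (hB2 : PW_B2 V) (x : V → ℝ) (P : Finset (V × V)) (y : V → ℝ) (r : V → V)
    (h : Rep x P y r) (u v : V) (huv : r u ≠ r v) :
    Rep x (insert (u, v) P) (mrg y (r u) (r v)) (fun z => if r z = r v then r u else r z) := by
  have hru : RP P u (r u) := (h.cls _ _).1 (h.idem u).symm
  have hrv : RP P v (r v) := (h.cls _ _).1 (h.idem v).symm
  refine ⟨?_, ?_, ?_, ?_, ?_⟩
  · intro z
    rw [mrg_apply]
    split_ifs
    · exact le_refl _
    · exact add_nonneg (h.nonneg _) (h.nonneg _)
    · exact h.nonneg _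
  · intro z w
    rw [RP_insert, ← h.cls, ← h.cls, ← h.cls, ← h.cls, ← h.cls]
    by_cases hz : r z = r v <;> by_cases hw : r w = r v
    · simp [hz, hw]
    · simp only [hz, hw, if_true, if_false]
      constructor
      · intro k; exact Or.inr (Or.inr ⟨trivial, k⟩)
      · rintro (k | ⟨k, -⟩ | ⟨-, k⟩)
        · exact absurd k.symm hw
        · exact absurd k.symm huv
        · exact k
    · simp only [hz, hw, if_true, if_false]
      constructor
      · intro k; exact Or.inr (Or.inl ⟨k, trivial⟩)
      · rintro (k | ⟨k, -⟩ | ⟨k, -⟩)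
        · exact k.elim
        · exact k
        · exact k.elim
    · simp only [hz, hw, if_false]
      constructor
      · intro k; exact Or.inl k
      · rintro (k | ⟨-, k⟩ | ⟨k, -⟩)
        · exact k
        · exact absurd k.symm hw
        · exact k.elim
  · intro z
    by_cases hz : r z = r v
    · simp only [hz, if_true, h.idem, huv, if_false]
    · simp only [hz, if_false, h.idem]
  · intro z hz
    rw [mrg_apply] at hz
    split_ifs at hz with h1 h2
    · exact absurd rfl hz
    · subst h2
      simp only [h.idem, huv, if_false]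
    · have := h.conc z hz
      simp only [this, h1, if_false]
  · intro Q hQ
    rw [h.val Q ((Finset.subset_insert _ _).trans hQ)]
    apply MP_merge2 hB2 y (r u) (r v) huv
    apply RP_sub hQ
    rw [RP_insert]
    exact Or.inr (Or.inl ⟨RP_symm hru, hrv⟩)

lemma exists_rep (hB2 : PW_B2 V) (x : V → ℝ) (hx : ∀ v, 0 ≤ x v) (P : Finset (V × V)) :
    FX ea eb ∅ P → ∃ (y : V → ℝ) (r : V → V), Rep x P y r := by
  induction P using Finset.induction_on with
  | empty =>
    intro _
    exact ⟨x, id, hx, fun u v => (RP_empty u v).symm, fun v => rfl, fun v _ => rfl,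
      fun Q _ => rfl⟩
  | insert p P hp ih =>
    obtain ⟨u, v⟩ := p
    intro hF
    obtain ⟨hF1, hF2⟩ := (FX_insert ea eb ∅ P u v hp).1 hF
    obtain ⟨y, r, h⟩ := ih hF1
    exact ⟨_, _, Rep_step hB2 x P y r h u v (fun k => hF2 ((h.cls u v).1 k))⟩

lemma Rep_val (x : V → ℝ) (P : Finset (V × V)) (y : V → ℝ) (r : V → V)
    (h : Rep x P y r) (hF : FX ea eb ∅ P) : MP x P = MP y ∅ := by
  rw [h.val P (le_refl _)]
  apply MP_conc P y hF
  intro z w hzw hne
  by_contra hcon
  push Not at hcon
  apply hne
  rw [← h.conc z hcon.1, ← h.conc w hcon.2]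
  exact (h.cls z w).2 hzw

end H990SF
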