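import Mathlib
import Pool.Agent.H990R2.SF.PWSub
import Pool.Agent.H382R2.PW.A1
import Pool.Agent.H623.PW.A2
import Pool.Agent.H579R3.PW.B2

/-!
Complete graphs with product weights: the local inequality for contractions.
-/

set_option linter.unusedSectionVars false
set_option linter.unusedSimpArgs false

namespace H990SF

open Finset

variable {V : Type*} [Fintype V] [DecidableEq V]

lemma good_swap (M : (V → ℝ) → ℝ) (hM : PWGood M) (x : V → ℝ) {c d : V} (hcd : c ≠ d) :
    M (mrg x c d) = M (mrg x d c) := by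
  rw [A2H.mrg_swap x hcd, hM.symm]

lemma mrg_three' (z : V → ℝ) {a b c : V} (hab : a ≠ b) (hac : a ≠ c) (hbc : b ≠ c) :
    mrg (mrg z b a) b c = (mrg (mrg z a b) a c) ∘ (Equiv.swap a b) := by
  funext v
  simp only [Function.comp]
  by_cases h1 : v = a
  · subst h1
    rw [Equiv.swap_apply_left]
    simp only [mrg_apply]
    simp [hab, hab.symm, hac, hac.symm, hbc, hbc.symm]
  · by_cases h2 : v = b
    · subst h2
      rw [Equiv.swap_apply_right]
      simp only [mrg_apply]
      simp [hab, hab.symm, hac, hac.symm, hbc, hbc.symm]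
      ring
    · rw [Equiv.swap_apply_of_ne_of_ne h1 h2]
      simp only [mrg_apply]
      simp [h1, h2]

lemma good_three (M : (V → ℝ) → ℝ) (hM : PWGood M) (z : V → ℝ) {a b c : V} (hab : a ≠ b)
    (hac : a ≠ c) (hbc : b ≠ c) :
    M (mrg (mrg z b a) b c) = M (mrg (mrg z a b) a c) := by
  rw [mrg_three' z hab hac hbc, hM.symm]

lemma good_cases (M : (V → ℝ) → ℝ) (hM : PWGood M) (y : V → ℝ) (hy : ∀ v, 0 ≤ y v)
    (p q s t s2 t2 : V) (hpq : p ≠ q) (hst : s ≠ t) (hs2 : s2 = if s = q then p else s)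
    (ht2 : t2 = if t = q then p else t) (h2 : s2 ≠ t2) :
    M (mrg (mrg y p q) s2 t2) * M y ≤ M (mrg y p q) * M (mrg y s t) := by
  by_cases hs : s = q
  · subst hs
    rw [if_pos rfl] at hs2
    rw [if_neg (Ne.symm hst)] at ht2
    subst hs2 ht2
    have h := hM.adj y hy s s2 t2 (Ne.symm hpq) hst h2
    rw [good_three M hM y hpq h2 hst, good_swap M hM y (Ne.symm hpq)] at h
    linarith
  · rw [if_neg hs] at hs2
    subst hs2
    by_cases ht : t = q
    · subst ht
      rw [if_pos rfl] at ht2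
      subst ht2
      have h := hM.adj y hy t t2 s2 (Ne.symm hpq) (Ne.symm hst) (Ne.symm h2)
      rw [good_three M hM y hpq (Ne.symm h2) (Ne.symm hst), good_swap M hM y (Ne.symm hpq),
        good_swap M hM _ (Ne.symm h2), good_swap M hM y (Ne.symm hst)] at h
      linarith
    · rw [if_neg ht] at ht2
      subst ht2
      by_cases hsp : s2 = p
      · subst hsp
        have h := hM.adj y hy s2 q t2 hpq hst (Ne.symm ht)
        linarith
      · by_cases htp : t2 = p
        · subst htp
          have h := hM.adj y hy t2 q s2 hpq (Ne.symm hst) (Ne.symm hs)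
          rw [good_swap M hM _ (Ne.symm hst), good_swap M hM y (Ne.symm hst)] at h
          linarith
        · have h := pw_A2 pw_A1 M hM y hy p q s2 t2 hpq (Ne.symm hsp) (Ne.symm htp) (Ne.symm hs)
            (Ne.symm ht) hst
          linarith

lemma MP_nonneg (x : V → ℝ) (hx : ∀ v, 0 ≤ x v) (P : Finset (V × V)) : 0 ≤ MP x P := by
  unfold MP
  exact GS_nonneg _ _ _ _ (fun i _ => pw_nonneg x hx i) _

lemma MP_zero (x : V → ℝ) (P : Finset (V × V)) (h : ¬ FX ea eb ∅ P) : MP x P = 0 := by
  classical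
  unfold MP GS
  refine Finset.sum_eq_zero fun F _ => ?_
  rw [if_neg]
  intro hF
  exact h (FX_mono F ∅ P P (Finset.empty_subset _) (le_refl _) hF)

lemma MP_anti (x : V → ℝ) (hx : ∀ v, 0 ≤ x v) (P Q : Finset (V × V)) (h : P ⊆ Q) :
    MP x Q ≤ MP x P := by
  classical
  unfold MP GS
  refine Finset.sum_le_sum fun F _ => ?_
  have hp : 0 ≤ ∏ i ∈ F, pw x i := Finset.prod_nonneg fun i _ => pw_nonneg x hx i
  by_cases h1 : FX ea eb F Q
  · rw [if_pos h1, if_pos (FX_mono F F Q P (le_refl _) h h1)]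
  · rw [if_neg h1]
    split_ifs
    · exact hp
    · exact le_refl _

/-- **The local inequality.** -/
theorem MP_local (x : V → ℝ) (hx : ∀ v, 0 ≤ x v) (P : Finset (V × V)) (a b c d : V)
    (hab : (a, b) ∉ P) (hcd : (c, d) ∉ insert (a, b) P) :
    MP x (insert (c, d) (insert (a, b) P)) * MP x P ≤
      MP x (insert (a, b) P) * MP x (insert (c, d) P) := by
  classical
  by_cases hF : FX ea eb ∅ (insert (c, d) (insert (a, b) P))
  · obtain ⟨hF1, hF2⟩ := (FX_insert ea eb ∅ (insert (a, b) P) c d hcd).1 hF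
    obtain ⟨hF3, hF4⟩ := (FX_insert ea eb ∅ P a b hab).1 hF1
    have hcdP : (c, d) ∉ P := fun h => hcd (Finset.mem_insert_of_mem h)
    have hF5 : ¬ RP P c d := fun h => hF2 (RP_sub (Finset.subset_insert _ _) h)
    have hF6 : FX ea eb ∅ (insert (c, d) P) := (FX_insert ea eb ∅ P c d hcdP).2 ⟨hF3, hF5⟩
    obtain ⟨y, r, hr⟩ := exists_rep pw_B2 x hx P hF3
    have hnab : r a ≠ r b := fun h => hF4 ((hr.cls a b).1 h)
    have hncd : r c ≠ r d := fun h => hF5 ((hr.cls c d).1 h)
    have r1 := Rep_step pw_B2 x P y r hr a b hnab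
    have r2 := Rep_step pw_B2 x P y r hr c d hncd
    have hn2 : (fun z => if r z = r b then r a else r z) c ≠
        (fun z => if r z = r b then r a else r z) d := fun h => hF2 ((r1.cls c d).1 h)
    have r3 := Rep_step pw_B2 x _ _ _ r1 c d hn2
    rw [Rep_val x P y r hr hF3, Rep_val x _ _ _ r1 hF1, Rep_val x _ _ _ r2 hF6,
      Rep_val x _ _ _ r3 hF]
    exact good_cases (fun x : V → ℝ => MP x ∅) (MP_good pw_B2) y hr.nonneg (r a) (r b) (r c) (r d)
      _ _ hnab hncd rfl rfl hn2
  · rw [MP_zero x _ hF, zero_mul]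
    exact mul_nonneg (MP_nonneg x hx _) (MP_nonneg x hx _)

/-! ### sets of edges as virtual edges -/

/-- the pairs of end points -/
noncomputable def img (S : Finset (Sym2 V)) : Finset (V × V) := S.image fun e => (ea e, eb e)

lemma img_insert (e : Sym2 V) (S : Finset (Sym2 V)) :
    img (insert e S) = insert (ea e, eb e) (img S) := by
  unfold img; rw [Finset.image_insert]

lemma ee_inj (e f : Sym2 V) (h : (ea e, eb e) = (ea f, eb f)) : e = f := by
  rw [Prod.mk.injEq] at h
  rw [← ea_eb e, ← ea_eb f, h.1, h.2]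

lemma img_notMem (e : Sym2 V) (S : Finset (Sym2 V)) (h : e ∉ S) : (ea e, eb e) ∉ img S := by
  unfold img
  intro hm
  rw [Finset.mem_image] at hm
  obtain ⟨f, hf, hfe⟩ := hm
  exact h (ee_inj f e hfe ▸ hf)

lemma img_mono {S T : Finset (Sym2 V)} (h : S ⊆ T) : img S ⊆ img T := Finset.image_subset_image h

lemma gr_img (F S : Finset (Sym2 V)) :
    gr (xa (ea (V := V))) (xb eb) (Finset.disjSum F (img S)) = gr ea eb (F ∪ S) := by
  unfold gr
  congr 1
  ext g
  simp only [Set.mem_image, Finset.mem_coe]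
  constructor
  · rintro ⟨i, hi, rfl⟩
    cases i with
    | inl i => exact ⟨i, Finset.mem_union_left _ (by simpa using hi), rfl⟩
    | inr i =>
      have : i ∈ img S := by simpa using hi
      unfold img at this
      rw [Finset.mem_image] at this
      obtain ⟨e, he, rfl⟩ := this
      exact ⟨e, Finset.mem_union_right _ he, rfl⟩
  · rintro ⟨i, hi, rfl⟩
    rcases Finset.mem_union.1 hi with h | h
    · exact ⟨Sum.inl i, by simpa using h, rfl⟩
    · refine ⟨Sum.inr (ea i, eb i), ?_, rfl⟩
      have : (ea i, eb i) ∈ img S := Finset.mem_image_of_mem _ h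
      simpa using this

lemma FX_img (F S : Finset (Sym2 V)) :
    FX ea eb F (img S) ↔ Disjoint F S ∧ IsF ea eb (F ∪ S) := by
  induction S using Finset.induction_on with
  | empty =>
    have : img (∅ : Finset (Sym2 V)) = ∅ := by unfold img; simp
    rw [this, FX_empty]; simp
  | insert e S he ih =>
    rw [img_insert, FX_insert ea eb F (img S) _ _ (img_notMem e S he), ih, gr_img, and_assoc,
      ← ins_iff ea eb (F ∪ S) e, Finset.disjoint_insert_right, Finset.mem_union, not_or,
      Finset.union_insert]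
    constructor
    · rintro ⟨h1, ⟨h2, -⟩, h3⟩; exact ⟨⟨h2, h1⟩, h3⟩
    · rintro ⟨⟨h1, h2⟩, h3⟩; exact ⟨h2, ⟨h1, he⟩, h3⟩

lemma NX_img (E : Finset (Sym2 V)) (w : Sym2 V → ℝ) (S : Finset (Sym2 V)) (hS : S ⊆ E) :
    NX ea eb E w S = GS ea eb E w (img S) := by
  classical
  rw [NX_eq ea eb E w S hS]
  unfold GS
  have hsub : (E \ S).powerset ⊆ E.powerset := Finset.powerset_mono.2 Finset.sdiff_subset
  rw [← Finset.sum_subset hsub]
  · refine Finset.sum_congr rfl fun F hF => ite_iff ?_ _
    rw [Finset.mem_powerset] at hF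
    have hd : Disjoint F S := Finset.disjoint_left.2 fun e he hs => (Finset.mem_sdiff.1 (hF he)).2 hs
    rw [FX_img, Finset.union_comm]
    exact ⟨fun h => ⟨hd, h⟩, fun h => h.2⟩
  · intro F hF hF'
    rw [Finset.mem_powerset] at hF hF'
    rw [if_neg]
    rw [FX_img]
    rintro ⟨h1, -⟩
    apply hF'
    intro e he
    exact Finset.mem_sdiff.2 ⟨hF he, Finset.disjoint_left.1 h1 he⟩

lemma sumForest_MP (x : V → ℝ) (S : Finset (Sym2 V))
    (hS : ∀ e ∈ S, e ∈ (⊤ : SimpleGraph V).edgeSet) :
    sumForest (⊤ : SimpleGraph V) (pw x) S = MP x (img S) := by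
  classical
  unfold MP
  rw [← NX_img]
  · exact sumForest_any ⊤ (pw x) S _ (fun e => SimpleGraph.mem_edgeFinset)
  · intro e he
    exact SimpleGraph.mem_edgeFinset.2 (hS e he)

end H990SF
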