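import Mathlib
import Pool.Agent.H990R2.SF.PWLocal
import Pool.Agent.H135.PW.C1

/-!
Complete graphs with product weights: the sum over the forests containing `S` is log-submodular
in `S`.
-/

set_option linter.unusedSectionVars false
set_option linter.unusedSimpArgs false

namespace H990SF

open Finset

variable {V : Type*} [Fintype V] [DecidableEq V]

/-- **Log-submodularity.** -/
theorem MP_img_submodular (x : V → ℝ) (hx : ∀ v, 0 ≤ x v) (S T : Finset (Sym2 V)) :
    MP x (img (S ∪ T)) * MP x (img (S ∩ T)) ≤ MP x (img S) * MP x (img T) := by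
  refine pw_C1 (fun S => MP x (img S)) (fun S => MP_nonneg x hx _)
    (fun S T h => MP_anti x hx _ _ (img_mono h)) ?_ S T
  intro S e f he hf hef
  simp only [img_insert]
  have h := MP_local x hx (img S) (ea f) (eb f) (ea e) (eb e) (img_notMem f S hf) (by
    rw [← img_insert]
    apply img_notMem
    rw [Finset.mem_insert, not_or]
    exact ⟨hef, he⟩)
  linarith [h]

theorem product_submodular (x : V → ℝ) (hx : ∀ v, 0 ≤ x v) (S T : Finset (Sym2 V))
    (hS : ∀ e ∈ S, e ∈ (⊤ : SimpleGraph V).edgeSet)
    (hT : ∀ e ∈ T, e ∈ (⊤ : SimpleGraph V).edgeSet) :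
    sumForest (⊤ : SimpleGraph V) (pw x) (S ∪ T) * sumForest (⊤ : SimpleGraph V) (pw x) (S ∩ T) ≤
      sumForest (⊤ : SimpleGraph V) (pw x) S * sumForest (⊤ : SimpleGraph V) (pw x) T := by
  rw [sumForest_MP x (S ∪ T) (fun e he => (Finset.mem_union.1 he).elim (hS e) (hT e)),
    sumForest_MP x (S ∩ T) (fun e he => hS e (Finset.mem_inter.1 he).1), sumForest_MP x S hS,
    sumForest_MP x T hT]
  exact MP_img_submodular x hx S T

end H990SF
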