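import Mathlib
import Pool.Agent.H990R2.SF.PWFinal

/-!
Parallel edges can be lumped; complete multigraphs with product multiplicities.
-/

set_option linter.unusedSectionVars false
set_option linter.unusedSimpArgs false

namespace H990SF

open Finset

section dc

variable {V ι : Type*} [Fintype V] [DecidableEq V] [DecidableEq ι]

lemma GS_dc (a b : ι → V) (E : Finset ι) (w : ι → ℝ) (P : Finset (V × V)) (i : ι) (hi : i ∉ E) :
    GS a b (insert i E) w P = GS a b E w P + w i * GR a b E w P (a i) (b i) := by
  classical
  unfold GS GR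
  rw [Finset.sum_powerset_insert hi, Finset.mul_sum]
  congr 1
  refine Finset.sum_congr rfl fun F hF => ?_
  rw [Finset.mem_powerset] at hF
  have hiF : i ∉ F := fun h => hi (hF h)
  have h := FX_ins a b F P i
  by_cases hh : FX a b F P ∧
      ¬ (gr (xa a) (xb b) (Finset.disjSum F P)).Reachable (a i) (b i)
  · rw [if_pos hh, if_pos (h.2 hh).2, Finset.prod_insert hiF]
  · rw [if_neg hh, if_neg (fun k => hh (h.1 ⟨hiF, k⟩)), mul_zero]

lemma GR_insert_self (a b : ι → V) (E : Finset ι) (w : ι → ℝ) (P : Finset (V × V)) (i : ι)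
    (hi : i ∉ E) : GR a b (insert i E) w P (a i) (b i) = GR a b E w P (a i) (b i) := by
  classical
  unfold GR
  rw [Finset.sum_powerset_insert hi]
  have : ∑ F ∈ E.powerset, (if FX a b (insert i F) P ∧
      ¬ (gr (xa a) (xb b) (Finset.disjSum (insert i F) P)).Reachable (a i) (b i) then
      ∏ j ∈ insert i F, w j else 0) = 0 := by
    refine Finset.sum_eq_zero fun F _ => ?_
    rw [if_neg]
    rintro ⟨-, h⟩
    apply h
    by_cases hab : a i = b i
    · rw [hab]
    · apply SimpleGraph.Adj.reachable
      rw [gr_adj]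
      exact ⟨⟨Sum.inl i, by simp, rfl⟩, hab⟩
  rw [this, add_zero]

lemma GS_w_congr (a b : ι → V) (E : Finset ι) (w w' : ι → ℝ) (P : Finset (V × V))
    (h : ∀ i ∈ E, w i = w' i) : GS a b E w P = GS a b E w' P := by
  classical
  unfold GS
  refine Finset.sum_congr rfl fun F hF => ?_
  rw [Finset.mem_powerset] at hF
  rw [Finset.prod_congr rfl fun i hi => h i (hF hi)]

lemma GR_w_congr (a b : ι → V) (E : Finset ι) (w w' : ι → ℝ) (P : Finset (V × V)) (u v : V)
    (h : ∀ i ∈ E, w i = w' i) : GR a b E w P u v = GR a b E w' P u v := by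
  classical
  unfold GR
  refine Finset.sum_congr rfl fun F hF => ?_
  rw [Finset.mem_powerset] at hF
  rw [Finset.prod_congr rfl fun i hi => h i (hF hi)]

lemma GS_upd (a b : ι → V) (E : Finset ι) (w : ι → ℝ) (P : Finset (V × V)) (e : ι) (he : e ∈ E)
    (t : ℝ) : GS a b E (Function.update w e (w e + t)) P =
      GS a b E w P + t * GR a b E w P (a e) (b e) := by
  have hE : insert e (E.erase e) = E := Finset.insert_erase he
  have hn : e ∉ E.erase e := Finset.notMem_erase _ _
  have hw : ∀ i ∈ E.erase e, Function.update w e (w e + t) i = w i := by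
    intro i hi
    exact Function.update_of_ne (Finset.ne_of_mem_erase hi) _ _
  rw [← hE, GS_dc _ _ _ _ _ _ hn, GS_dc _ _ _ _ _ _ hn, GR_insert_self _ _ _ _ _ _ hn,
    GS_w_congr a b _ _ _ P hw, GR_w_congr a b _ _ _ P _ _ hw, Function.update_self]
  ring

lemma FX_none (a b : ι → V) (P : Finset (V × V)) :
    FX a b ∅ P ↔ IsF (Prod.fst : V × V → V) Prod.snd P := by
  unfold FX IsF
  have hgr : gr (xa a) (xb b) (Finset.disjSum (∅ : Finset ι) P) =
      gr (Prod.fst : V × V → V) Prod.snd P := by
    unfold gr
    congr 1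
    ext x
    simp only [Set.mem_image, Finset.mem_coe]
    constructor
    · rintro ⟨i, hi, rfl⟩
      cases i with
      | inl i => simp at hi
      | inr i => exact ⟨i, by simpa using hi, rfl⟩
    · rintro ⟨i, hi, rfl⟩
      exact ⟨Sum.inr i, by simpa using hi, rfl⟩
  rw [hgr]
  refine and_congr ?_ (and_congr_left fun _ => ?_)
  · constructor
    · intro h i hi; exact h (Sum.inr i) (by simpa using hi)
    · intro h i hi
      cases i with
      | inl i => simp at hi
      | inr i => exact h i (by simpa using hi)
  · constructor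
    · intro h i hi j hj hij
      have hi' : Sum.inr i ∈ ((Finset.disjSum (∅ : Finset ι) P : Finset (ι ⊕ (V × V))) :
          Set (ι ⊕ (V × V))) := by simpa using hi
      have hj' : Sum.inr j ∈ ((Finset.disjSum (∅ : Finset ι) P : Finset (ι ⊕ (V × V))) :
          Set (ι ⊕ (V × V))) := by simpa using hj
      exact Sum.inr_injective (h hi' hj' hij)
    · intro h i hi j hj hij
      cases i with
      | inl i => simp at hi
      | inr i =>
        cases j with
        | inl j => simp at hj
        | inr j => exact congrArg Sum.inr (h (by simpa using hi) (by simpa using hj) hij)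

lemma GS_none (a b : ι → V) (w : ι → ℝ) (E : Finset ι) (hw : ∀ i ∈ E, w i = 0)
    (P : Finset (V × V)) : GS a b E w P = GS a b ∅ w P := by
  classical
  unfold GS
  have hsub : (∅ : Finset ι).powerset ⊆ E.powerset := Finset.powerset_mono.2 (Finset.empty_subset _)
  symm
  apply Finset.sum_subset hsub
  intro F hF hF'
  rw [Finset.mem_powerset] at hF hF'
  obtain ⟨i, hi⟩ : F.Nonempty := by
    rw [Finset.nonempty_iff_ne_empty]
    rintro rfl
    exact hF' (le_refl _)
  have : ∏ j ∈ F, w j = 0 := Finset.prod_eq_zero hi (hw i (hF hi))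
  rw [this]; simp

/-- **Lumping parallel edges.** -/
lemma GS_lump (a b : ι → V) (w : ι → ℝ) (E : Finset ι) : ∀ P : Finset (V × V),
    GS a b E w P = GS ea eb univ (fun e => ∑ i ∈ E with s(a i, b i) = e, w i) P := by
  classical
  induction E using Finset.induction_on with
  | empty =>
    intro P
    rw [GS_none ea eb _ univ (fun i _ => by simp)]
    unfold GS
    simp only [Finset.powerset_empty, Finset.sum_singleton, Finset.prod_empty]
    exact ite_iff ((FX_none a b P).trans (FX_none ea eb P).symm) _
  | insert i E hi ih =>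
    intro P
    set m : Sym2 V → ℝ := fun e => ∑ i ∈ E with s(a i, b i) = e, w i with hm
    have hw : (fun e => ∑ j ∈ insert i E with s(a j, b j) = e, w j) =
        Function.update m s(a i, b i) (m s(a i, b i) + w i) := by
      funext e
      by_cases he : e = s(a i, b i)
      · subst he
        rw [Function.update_self, Finset.filter_insert, if_pos rfl, Finset.sum_insert (by simp [hi]),
          add_comm]
      · rw [Function.update_of_ne he, Finset.filter_insert, if_neg (fun h => he h.symm)]
    rw [hw, GS_upd ea eb univ m P s(a i, b i) (Finset.mem_univ _), GS_dc a b E w P i hi, ih P]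
    congr 2
    have h1 : GR ea eb univ m P (ea s(a i, b i)) (eb s(a i, b i)) =
        GR ea eb univ m P (a i) (b i) := by
      rcases Sym2.eq_iff.1 (ea_eb s(a i, b i)) with ⟨h1, h2⟩ | ⟨h1, h2⟩
      · rw [h1, h2]
      · rw [h1, h2, GR_comm]
    rw [h1]
    by_cases hP : (a i, b i) ∈ P
    · rw [GR_P _ _ _ _ _ _ _ hP, GR_P _ _ _ _ _ _ _ hP]
    · rw [← GS_insert_GR _ _ _ _ _ _ _ hP, ← GS_insert_GR _ _ _ _ _ _ _ hP, ih]

/-! ### sets of edges as virtual edges -/

noncomputable def imgab (a b : ι → V) (S : Finset ι) : Finset (V × V) :=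
  S.image fun i => (a i, b i)

lemma gr_imgab (a b : ι → V) (F S : Finset ι) :
    gr (xa a) (xb b) (Finset.disjSum F (imgab a b S)) = gr a b (F ∪ S) := by
  unfold gr
  congr 1
  ext g
  simp only [Set.mem_image, Finset.mem_coe]
  constructor
  · rintro ⟨i, hi, rfl⟩
    cases i with
    | inl i => exact ⟨i, Finset.mem_union_left _ (by simpa using hi), rfl⟩
    | inr i =>
      have : i ∈ imgab a b S := by simpa using hi
      unfold imgab at this
      rw [Finset.mem_image] at this
      obtain ⟨e, he, rfl⟩ := this
      exact ⟨e, Finset.mem_union_right _ he, rfl⟩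
  · rintro ⟨i, hi, rfl⟩
    rcases Finset.mem_union.1 hi with h | h
    · exact ⟨Sum.inl i, by simpa using h, rfl⟩
    · refine ⟨Sum.inr (a i, b i), ?_, rfl⟩
      have : (a i, b i) ∈ imgab a b S := Finset.mem_image_of_mem _ h
      simpa using this

lemma FX_imgab (a b : ι → V) (F S : Finset ι) :
    Set.InjOn (fun i => (a i, b i)) (S : Set ι) →
    (FX a b F (imgab a b S) ↔ Disjoint F S ∧ IsF a b (F ∪ S)) := by
  induction S using Finset.induction_on with
  | empty =>
    intro _
    have : imgab a b (∅ : Finset ι) = ∅ := by unfold imgab; simp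
    rw [this, FX_empty]; simp
  | insert e S he ih =>
    intro hinj
    have hinj' : Set.InjOn (fun i => (a i, b i)) (S : Set ι) :=
      hinj.mono (by exact_mod_cast Finset.subset_insert _ _)
    have hn : (a e, b e) ∉ imgab a b S := by
      unfold imgab
      intro hm
      rw [Finset.mem_image] at hm
      obtain ⟨f, hf, hfe⟩ := hm
      have := hinj (by simp [hf] : f ∈ ((insert e S : Finset ι) : Set ι))
        (by simp : e ∈ ((insert e S : Finset ι) : Set ι)) hfe
      exact he (this ▸ hf)
    have hi : imgab a b (insert e S) = insert (a e, b e) (imgab a b S) := by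
      unfold imgab; rw [Finset.image_insert]
    rw [hi, FX_insert a b F (imgab a b S) _ _ hn, ih hinj', gr_imgab, and_assoc,
      ← ins_iff a b (F ∪ S) e, Finset.disjoint_insert_right, Finset.mem_union, not_or,
      Finset.union_insert]
    constructor
    · rintro ⟨h1, ⟨h2, -⟩, h3⟩; exact ⟨⟨h2, h1⟩, h3⟩
    · rintro ⟨⟨h1, h2⟩, h3⟩; exact ⟨h2, ⟨h1, he⟩, h3⟩

lemma NX_imgab (a b : ι → V) (E : Finset ι) (w : ι → ℝ) (S : Finset ι) (hS : S ⊆ E)
    (hinj : Set.InjOn (fun i => (a i, b i)) (S : Set ι)) :
    NX a b E w S = GS a b E w (imgab a b S) := by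
  classical
  rw [NX_eq a b E w S hS]
  unfold GS
  have hsub : (E \ S).powerset ⊆ E.powerset := Finset.powerset_mono.2 Finset.sdiff_subset
  rw [← Finset.sum_subset hsub]
  · refine Finset.sum_congr rfl fun F hF => ite_iff ?_ _
    rw [Finset.mem_powerset] at hF
    have hd : Disjoint F S := Finset.disjoint_left.2 fun e he hs => (Finset.mem_sdiff.1 (hF he)).2 hs
    rw [FX_imgab a b F S hinj, Finset.union_comm]
    exact ⟨fun h => ⟨hd, h⟩, fun h => h.2⟩
  · intro F hF hF'
    rw [Finset.mem_powerset] at hF hF'
    rw [if_neg]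
    rw [FX_imgab a b F S hinj]
    rintro ⟨h1, -⟩
    apply hF'
    intro e he
    exact Finset.mem_sdiff.2 ⟨hF he, Finset.disjoint_left.1 h1 he⟩

end dc

section multi

variable {V ι : Type*} [Fintype V] [DecidableEq V] [DecidableEq ι] [Fintype ι]

lemma GS_top_univ (m : Sym2 V → ℝ) (x : V → ℝ) (hm : ∀ e : Sym2 V, ¬ e.IsDiag → m e = pw x e)
    (P : Finset (V × V)) : GS ea eb univ m P = MP x P := by
  classical
  unfold MP GS
  symm
  have hsub : (⊤ : SimpleGraph V).edgeFinset.powerset ⊆ (univ : Finset (Sym2 V)).powerset :=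
    Finset.powerset_mono.2 (Finset.subset_univ _)
  have h1 : ∑ F ∈ (univ : Finset (Sym2 V)).powerset,
      (if FX ea eb F P then ∏ i ∈ F, pw x i else 0) =
      ∑ F ∈ (univ : Finset (Sym2 V)).powerset, (if FX ea eb F P then ∏ i ∈ F, m i else 0) := by
    refine Finset.sum_congr rfl fun F _ => ?_
    by_cases hF : FX ea eb F P
    · rw [if_pos hF, if_pos hF]
      refine Finset.prod_congr rfl fun e he => ?_
      rw [hm e]
      intro hd
      have := hF.1 (Sum.inl e) (by simpa using he)
      apply this
      show ea e = eb e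
      have h2 : (s(ea e, eb e)).IsDiag := by rw [ea_eb]; exact hd
      simpa using h2
    · rw [if_neg hF, if_neg hF]
  rw [← h1]
  refine Finset.sum_subset (Finset.powerset_mono.2 (Finset.subset_univ _)) ?_
  intro F _ hF
  rw [if_neg]
  intro hFX
  apply hF
  rw [Finset.mem_powerset]
  intro e he
  rw [SimpleGraph.mem_edgeFinset]
  have := hFX.1 (Sum.inl e) (by simpa using he)
  have h3 : ea e ≠ eb e := this
  rw [← ea_eb e]
  simpa using h3

/-- **Complete multigraphs with product multiplicities.** -/
theorem multi_submodular (ends : ι → Sym2 V) (hl : ∀ i, ¬ (ends i).IsDiag) (x : V → ℝ)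
    (hx : ∀ v, 0 ≤ x v)
    (hm : ∀ u v : V, u ≠ v → ((univ.filter fun i : ι => ends i = s(u, v)).card : ℝ) = x u * x v)
    (S T : Finset ι) :
    NX (fa ends) (fb ends) univ (fun _ => 1) (S ∪ T) *
        NX (fa ends) (fb ends) univ (fun _ => 1) (S ∩ T) ≤
      NX (fa ends) (fb ends) univ (fun _ => 1) S *
        NX (fa ends) (fb ends) univ (fun _ => 1) T := by
  classical
  have hnn : ∀ X, 0 ≤ NX (fa ends) (fb ends) univ (fun _ => 1) X := by
    intro X; unfold NX
    exact Finset.sum_nonneg fun F _ => Finset.prod_nonneg fun i _ => zero_le_one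
  have hval : ∀ X : Finset ι, Set.InjOn ends (X : Set ι) →
      NX (fa ends) (fb ends) univ (fun _ => 1) X = MP x (img (X.image ends)) := by
    intro X hX
    have hinj : Set.InjOn (fun i => (fa ends i, fb ends i)) (X : Set ι) := by
      intro i hi j hj hij
      exact hX hi hj (ee_inj _ _ hij)
    rw [NX_imgab _ _ _ _ _ (Finset.subset_univ _) hinj, GS_lump]
    have himg : imgab (fa ends) (fb ends) X = img (X.image ends) := by
      unfold imgab img
      rw [Finset.image_image]
      rfl
    rw [himg]
    apply GS_top_univ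
    intro e he
    induction e with
    | _ u v =>
      have huv : u ≠ v := by simpa using he
      rw [pw_mk, ← hm u v huv]
      simp only [fa_fb, Finset.sum_const, nsmul_eq_mul, mul_one]
  by_cases hST : Set.InjOn ends ((S ∪ T : Finset ι) : Set ι)
  · have hS : Set.InjOn ends (S : Set ι) := hST.mono (by exact_mod_cast Finset.subset_union_left)
    have hT : Set.InjOn ends (T : Set ι) := hST.mono (by exact_mod_cast Finset.subset_union_right)
    have hI : Set.InjOn ends ((S ∩ T : Finset ι) : Set ι) :=
      hS.mono (by exact_mod_cast Finset.inter_subset_left)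
    rw [hval _ hST, hval _ hI, hval _ hS, hval _ hT, Finset.image_union,
      Finset.image_inter_of_injOn S T (by rwa [← Finset.coe_union])]
    exact MP_img_submodular x hx _ _
  · have h0 : NX (fa ends) (fb ends) univ (fun _ => 1) (S ∪ T) = 0 := by
      unfold NX
      refine Finset.sum_eq_zero fun F hF => ?_
      exfalso
      simp only [Finset.mem_filter] at hF
      apply hST
      have h1 : Set.InjOn ends (F : Set ι) := by
        have := hF.2.2.2.1
        intro i hi j hj hij
        refine this hi hj ?_
        show s(fa ends i, fb ends i) = s(fa ends j, fb ends j)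
        rw [fa_fb, fa_fb, hij]
      exact h1.mono (by exact_mod_cast hF.2.1)
    rw [h0, zero_mul]
    exact mul_nonneg (hnn _) (hnn _)

end multi

end H990SF
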